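import Mathlib

/-!
# Group divisible designs on `V × J` and designs; development of base blocks
-/

open Finset

namespace Pool.Agent.H59.Des

/-- Points: a position and a label. -/
@[ext] structure Pt (V : Type*) (J : Type*) where
  /-- position -/
  pos : V
  /-- label -/
  lab : J
deriving DecidableEq

/-- Points are pairs. -/
def ptEquiv (V : Type*) (J : Type*) : Pt V J ≃ V × J where
  toFun p := (p.pos, p.lab)
  invFun z := ⟨z.1, z.2⟩
  left_inv _ := rfl
  right_inv _ := rfl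

instance instFintypePt {V J : Type*} [Fintype V] [Fintype J] : Fintype (Pt V J) :=
  Fintype.ofEquiv _ (ptEquiv V J).symm

lemma card_Pt {V J : Type*} [Fintype V] [Fintype J] :
    Fintype.card (Pt V J) = Fintype.card V * Fintype.card J := by
  rw [Fintype.card_congr (ptEquiv V J), Fintype.card_prod]

/-- `𝓓` is a group divisible design of index one and block size `k` on the points with position
in `L`; two points form a group if they have the same position. -/
structure IsGDD {V J : Type*} (k : ℕ) (L : Finset V) (D : Finset (Finset (Pt V J))) : Prop where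
  card_eq : ∀ B ∈ D, B.card = k
  sub : ∀ B ∈ D, ∀ p ∈ B, p.pos ∈ L
  inj : ∀ B ∈ D, ∀ p ∈ B, ∀ r ∈ B, p.pos = r.pos → p = r
  ex : ∀ p r : Pt V J, p.pos ∈ L → r.pos ∈ L → p.pos ≠ r.pos → ∃ B ∈ D, p ∈ B ∧ r ∈ B
  uniq : ∀ B ∈ D, ∀ B' ∈ D, ∀ p r : Pt V J, p ≠ r → p ∈ B → r ∈ B → p ∈ B' → r ∈ B' → B = B'

/-- `D` is the block set of a `2`-`(v,k,1)` design with point set `P`. -/
structure IsDes {P : Type*} (k : ℕ) (D : Finset (Finset P)) : Prop where
  card_eq : ∀ B ∈ D, B.card = k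
  ex : ∀ p r : P, p ≠ r → ∃ B ∈ D, p ∈ B ∧ r ∈ B
  uniq : ∀ B ∈ D, ∀ B' ∈ D, ∀ p r : P, p ≠ r → p ∈ B → r ∈ B → p ∈ B' → r ∈ B' → B = B'

section dev

variable {F : Type*} [Field F] [Fintype F] [DecidableEq F] {J : Type*} [DecidableEq J]
  {I : Type*} [Fintype I] {k : ℕ}

/-- The image of a base block under `x ↦ a x + t`. -/
def blk (X : Fin k → F) (lam : Fin k → J) (a t : F) : Finset (Pt F J) :=
  univ.image (fun i => (⟨a * X i + t, lam i⟩ : Pt F J))

lemma mem_blk {X : Fin k → F} {lam : Fin k → J} {a t : F} {p : Pt F J} :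
    p ∈ blk X lam a t ↔ ∃ i, a * X i + t = p.pos ∧ lam i = p.lab := by
  unfold blk
  rw [mem_image]
  constructor
  · rintro ⟨i, _, rfl⟩
    exact ⟨i, rfl, rfl⟩
  · rintro ⟨i, h1, h2⟩
    exact ⟨i, mem_univ _, Pt.ext h1 h2⟩

/-- Development of a family of base blocks under `x ↦ a x + t`, `a ^ n = 1`. -/
def dev (n : ℕ) (X : I → Fin k → F) (lam : I → Fin k → J) : Finset (Finset (Pt F J)) :=
  ((univ : Finset (I × F × F)).filter (fun z => z.2.1 ^ n = 1)).image
    (fun z => blk (X z.1) (lam z.1) z.2.1 z.2.2)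

lemma mem_dev {n : ℕ} {X : I → Fin k → F} {lam : I → Fin k → J} {B : Finset (Pt F J)} :
    B ∈ dev n X lam ↔ ∃ β a t, a ^ n = 1 ∧ B = blk (X β) (lam β) a t := by
  unfold dev
  rw [mem_image]
  constructor
  · rintro ⟨⟨β, a, t⟩, h, rfl⟩
    rw [mem_filter] at h
    exact ⟨β, a, t, h.2, rfl⟩
  · rintro ⟨β, a, t, h, rfl⟩
    exact ⟨(β, a, t), by rw [mem_filter]; exact ⟨mem_univ _, h⟩, rfl⟩

/-- Affine map on points. -/
def aff (a b : F) (p : Pt F J) : Pt F J := ⟨a * p.pos + b, p.lab⟩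

lemma dev_aff {n : ℕ} {X : I → Fin k → F} {lam : I → Fin k → J} {B : Finset (Pt F J)}
    (hB : B ∈ dev n X lam) {a b : F} (ha : a ^ n = 1) : B.image (aff a b) ∈ dev n X lam := by
  obtain ⟨β, c, t, hc, rfl⟩ := mem_dev.1 hB
  refine mem_dev.2 ⟨β, a * c, a * t + b, by rw [mul_pow, ha, hc, one_mul], ?_⟩
  ext p
  rw [mem_blk, mem_image]
  constructor
  · rintro ⟨r, hr, rfl⟩
    obtain ⟨i, h1, h2⟩ := mem_blk.1 hr
    refine ⟨i, ?_, h2⟩
    simp only [aff]
    rw [← h1]
    ring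
  · rintro ⟨i, h1, h2⟩
    refine ⟨⟨c * X β i + t, lam β i⟩, mem_blk.2 ⟨i, rfl, rfl⟩, ?_⟩
    refine Pt.ext ?_ h2
    simp only [aff]
    rw [← h1]
    ring

theorem dev_isGDD {n : ℕ} (hn : 0 < n) (X : I → Fin k → F) (lam : I → Fin k → J)
    (hinj : ∀ β, Function.Injective (X β))
    (hU : ∀ β β' i j i' j', i ≠ j → i' ≠ j' → lam β i = lam β' i' → lam β j = lam β' j' →
      (X β j - X β i) ^ n = (X β' j' - X β' i') ^ n →
      β = β' ∧ ∃ ε : F, ε ^ n = 1 ∧ (∀ l, ∃ l', X β l' = ε * X β l ∧ lam β l' = lam β l) ∧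
        (∀ l, ∃ l', ε * X β l' = X β l ∧ lam β l' = lam β l) ∧
        X β i' = ε * X β i ∧ X β j' = ε * X β j)
    (hE : ∀ (a b : J) (z : F), z ≠ 0 → ∃ β i j, i ≠ j ∧ lam β i = a ∧ lam β j = b ∧
      (X β j - X β i) ^ n = z ^ n) :
    IsGDD k univ (dev n X lam) := by
  have hne : ∀ a : F, a ^ n = 1 → a ≠ 0 := by
    rintro a ha rfl
    rw [zero_pow hn.ne'] at ha
    exact zero_ne_one ha
  have hbinj : ∀ β (a t : F), a ≠ 0 → Function.Injective
      (fun i => (⟨a * X β i + t, lam β i⟩ : Pt F J)) := by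
    intro β a t ha i j hij
    have h1 := congrArg Pt.pos hij
    simp only at h1
    exact hinj β (mul_left_cancel₀ ha (add_right_cancel h1))
  refine ⟨?_, fun _ _ _ _ => mem_univ _, ?_, ?_, ?_⟩
  · intro B hB
    obtain ⟨β, a, t, ha, rfl⟩ := mem_dev.1 hB
    unfold blk
    rw [card_image_of_injective _ (hbinj β a t (hne a ha)), card_univ, Fintype.card_fin]
  · intro B hB p hp r hr hpr
    obtain ⟨β, a, t, ha, rfl⟩ := mem_dev.1 hB
    obtain ⟨i, h1, h2⟩ := mem_blk.1 hp
    obtain ⟨j, h3, h4⟩ := mem_blk.1 hr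
    have h5 : i = j := by
      apply hinj β
      rw [← h1, ← h3] at hpr
      exact mul_left_cancel₀ (hne a ha) (add_right_cancel hpr)
    subst h5
    exact Pt.ext hpr (h2.symm.trans h4)
  · intro p r _ _ hpr
    have hz : r.pos - p.pos ≠ 0 := fun h => hpr (sub_eq_zero.1 h).symm
    obtain ⟨β, i, j, hij, hi, hj, hd⟩ := hE p.lab r.lab (r.pos - p.pos) hz
    have hX : X β j - X β i ≠ 0 := fun h => hij (hinj β (sub_eq_zero.1 h)).symm
    set a := (r.pos - p.pos) / (X β j - X β i) with ha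
    have han : a ^ n = 1 := by
      rw [ha, div_pow, hd, div_self (pow_ne_zero _ hz)]
    refine ⟨blk (X β) (lam β) a (p.pos - a * X β i), mem_dev.2 ⟨β, a, _, han, rfl⟩, ?_, ?_⟩
    · exact mem_blk.2 ⟨i, by ring, hi⟩
    · refine mem_blk.2 ⟨j, ?_, hj⟩
      have : a * (X β j - X β i) = r.pos - p.pos := by
        rw [ha]; field_simp
      linear_combination this
  · intro B hB B' hB' p r hpr hpB hrB hpB' hrB'
    obtain ⟨β, a, t, ha, rfl⟩ := mem_dev.1 hB
    obtain ⟨β', a', t', ha', rfl⟩ := mem_dev.1 hB'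
    obtain ⟨i, hi1, hi2⟩ := mem_blk.1 hpB
    obtain ⟨j, hj1, hj2⟩ := mem_blk.1 hrB
    obtain ⟨i', hi1', hi2'⟩ := mem_blk.1 hpB'
    obtain ⟨j', hj1', hj2'⟩ := mem_blk.1 hrB'
    have hij : i ≠ j := by
      rintro rfl
      exact hpr (Pt.ext (hi1.symm.trans hj1) (hi2.symm.trans hj2))
    have hij' : i' ≠ j' := by
      rintro rfl
      exact hpr (Pt.ext (hi1'.symm.trans hj1') (hi2'.symm.trans hj2'))
    have e1 : a * (X β j - X β i) = a' * (X β' j' - X β' i') := by
      linear_combination hj1 - hi1 - hj1' + hi1'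
    have e2 : (X β j - X β i) ^ n = (X β' j' - X β' i') ^ n := by
      have := congrArg (· ^ n) e1
      simpa only [mul_pow, ha, ha', one_mul] using this
    obtain ⟨hβ, ε, hε, hsym, hsym', hXi, hXj⟩ := hU β β' i j i' j' hij hij' (hi2.trans hi2'.symm)
      (hj2.trans hj2'.symm) e2
    subst hβ
    have hX : X β j - X β i ≠ 0 := fun h => hij (hinj β (sub_eq_zero.1 h)).symm
    have e3 : a = a' * ε := by
      have : a * (X β j - X β i) = (a' * ε) * (X β j - X β i) := by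
        rw [e1, hXi, hXj]; ring
      exact mul_right_cancel₀ hX this
    have e4 : t = t' := by
      have h5 : a * X β i + t = a' * X β i' + t' := hi1.trans hi1'.symm
      rw [hXi, e3] at h5
      linear_combination h5
    subst e4
    ext s
    rw [mem_blk, mem_blk]
    constructor
    · rintro ⟨l, h1, h2⟩
      obtain ⟨l', h3, h4⟩ := hsym l
      refine ⟨l', ?_, h4.trans h2⟩
      rw [h3, ← h1, e3]
      ring
    · rintro ⟨l, h1, h2⟩
      obtain ⟨l', h3, h4⟩ := hsym' l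
      refine ⟨l', ?_, h4.trans h2⟩
      rw [← h1, ← h3, e3]
      ring

end dev

end Pool.Agent.H59.Des
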