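import Pool.Agent.H59.Des.Classes
import Pool.Agent.H59.Des.Basic

/-!
# Existence of a `2`-`(w,k,1)` design on `ZMod w` for infinitely many primes `w` (Wilson)
-/

open Finset

namespace Pool.Agent.H59.Des

/-- triangular index of a pair `i < j`. -/
def tri (i j : ℕ) : ℕ := j.choose 2 + i

lemma tri_lt {i j k : ℕ} (hij : i < j) (hjk : j < k) : tri i j < k.choose 2 := by
  unfold tri
  have h1 : (j + 1).choose 2 ≤ k.choose 2 := Nat.choose_le_choose 2 hjk
  have h2 : (j + 1).choose 2 = j.choose 1 + j.choose 2 := Nat.choose_succ_succ' j 1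
  rw [Nat.choose_one_right] at h2
  omega

lemma tri_inj {i j i' j' : ℕ} (hij : i < j) (hij' : i' < j') (h : tri i j = tri i' j') :
    i = i' ∧ j = j' := by
  rcases lt_trichotomy j j' with hlt | heq | hgt
  · exfalso
    have := tri_lt hij hlt
    have h2 : j'.choose 2 ≤ tri i' j' := by unfold tri; omega
    omega
  · subst heq
    unfold tri at h
    omega
  · exfalso
    have := tri_lt hij' hgt
    have h2 : j.choose 2 ≤ tri i j := by unfold tri; omega
    omega

/-- The set of nonzero `n`-th powers has `m` elements. -/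
lemma card_powers {p : ℕ} [hp : Fact p.Prime] {n m : ℕ} (hnm : p - 1 = n * m) (hn : 0 < n)
    (hm : 0 < m) : (((univ : Finset (ZMod p)).filter (fun z => z ≠ 0)).image
      (fun z => z ^ n)).card = m := by
  obtain ⟨g, hg⟩ := exists_primroot (p := p)
  have hp0 : 0 < p - 1 := by rw [hnm]; positivity
  have hζ : IsPrimitiveRoot (g ^ n) m := hg.pow hp0 hnm
  have : (((univ : Finset (ZMod p)).filter (fun z => z ≠ 0)).image (fun z => z ^ n))
      = (range m).image (fun i => (g ^ n) ^ i) := by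
    ext κ
    rw [mem_image, mem_image]
    constructor
    · rintro ⟨z, hz, rfl⟩
      rw [mem_filter] at hz
      have hz1 : z ^ (p - 1) = 1 := ZMod.pow_card_sub_one_eq_one hz.2
      have : NeZero (p - 1) := ⟨hp0.ne'⟩
      obtain ⟨i, _, hi⟩ := hg.eq_pow_of_pow_eq_one hz1
      refine ⟨i % m, mem_range.2 (Nat.mod_lt _ hm), ?_⟩
      have h := pow_mod_orderOf (g ^ n) i
      rw [← hζ.eq_orderOf] at h
      rw [h, ← hi, ← pow_mul, ← pow_mul, mul_comm]
    · rintro ⟨i, _, rfl⟩
      refine ⟨g ^ i, ?_, ?_⟩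
      · rw [mem_filter]
        refine ⟨mem_univ _, pow_ne_zero _ ?_⟩
        exact hg.ne_zero hp0.ne'
      · rw [← pow_mul, ← pow_mul, mul_comm]
  rw [this, card_image_of_injOn, card_range]
  intro i hi j hj hij
  rw [mem_coe, mem_range] at hi hj
  exact hζ.pow_inj hi hj hij

theorem exists_base_design (k : ℕ) (hk : 2 ≤ k) (N : ℕ) :
    ∃ w : ℕ, N < w ∧ w.Prime ∧ ∃ 𝒱 : Finset (Finset (ZMod w)), IsDes k 𝒱 := by
  set m := k * (k - 1) with hm
  have hm0 : 0 < m := by
    rw [hm]; exact Nat.mul_pos (by omega) (by omega)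
  have hm2 : m = 2 * k.choose 2 := by
    rw [hm, Nat.choose_two_right, Nat.mul_div_cancel']
    exact (Nat.even_mul_pred_self k).two_dvd
  obtain ⟨q₀, hq₀⟩ := prescribed m hm0 k 1 one_pos
  have hcop : Nat.Coprime (1 + m) (2 * m) := by
    apply Nat.Coprime.mul_right
    · rw [hm2]
      have : 1 + 2 * k.choose 2 = 2 * k.choose 2 + 1 := by ring
      rw [this]
      exact (Nat.coprime_mul_left_add_left 1 2 _).2 (by norm_num)
    · have : 1 + m = m * 1 + 1 := by ring
      rw [this]
      exact (Nat.coprime_mul_left_add_left 1 m 1).2 (by norm_num)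
  obtain ⟨w, hwN, hwp, hwm⟩ := Nat.forall_exists_prime_gt_and_modEq (max N (max q₀ m))
    (q := 2 * m) (a := 1 + m) (by omega) hcop
  have : Fact w.Prime := ⟨hwp⟩
  have hwN' : N < w := lt_of_le_of_lt (le_max_left _ _) hwN
  have hwq : q₀ ≤ w := (lt_of_le_of_lt ((le_max_left _ _).trans (le_max_right _ _)) hwN).le
  have hwm' : m < w := lt_of_le_of_lt ((le_max_right _ _).trans (le_max_right _ _)) hwN
  -- w = 1 + m + 2 m t
  obtain ⟨t, ht⟩ : ∃ t, w = 1 + m + 2 * m * t := by
    have h1 : 1 + m ≤ w := by omega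
    have h2 := (Nat.modEq_iff_dvd' h1).1 hwm.symm
    obtain ⟨t, ht⟩ := h2
    exact ⟨t, by omega⟩
  set n := 1 + 2 * t with hn
  have hnm : w - 1 = n * m := by
    rw [ht, hn]
    have : 1 + m + 2 * m * t - 1 = m + 2 * m * t := by omega
    rw [this]; ring
  have hn0 : 0 < n := by omega
  have hodd : Odd n := ⟨t, by omega⟩
  obtain ⟨g, hg⟩ := exists_primroot (p := w)
  have hp0 : 0 < w - 1 := by rw [hnm]; positivity
  have hζ : IsPrimitiveRoot (g ^ n) m := hg.pow hp0 hnm
  set ζ := g ^ n with hζdef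
  have hg0 : g ≠ 0 := hg.ne_zero hp0.ne'
  have hζhalf : ζ ^ (k.choose 2) = -1 := by
    have h1 : (ζ ^ (k.choose 2)) * (ζ ^ (k.choose 2)) = 1 := by
      rw [← pow_add, ← two_mul, ← hm2]
      exact hζ.pow_eq_one
    rcases mul_self_eq_one_iff.1 h1 with h | h
    · exfalso
      have h2 := hζ.dvd_of_pow_eq_one _ h
      have h3 : 0 < k.choose 2 := by omega
      have := Nat.le_of_dvd h3 h2
      omega
    · exact h
  have hζ0 : ζ ≠ 0 := pow_ne_zero _ hg0
  obtain ⟨y, -, hy⟩ := hq₀ w hwq n hn0 hnm (fun _ => univ)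
    (fun _ => by rw [card_univ, ZMod.card, one_mul])
    (fun i j => ζ ^ (tri i j)) (fun i j => ⟨g ^ (tri i j), pow_ne_zero _ hg0, by
      rw [hζdef, ← pow_mul, ← pow_mul, mul_comm]⟩)
  -- exponents
  let e : Fin k → Fin k → ℕ := fun i j => if i < j then tri i j else k.choose 2 + tri j i
  have he : ∀ i j, i ≠ j → (y j - y i) ^ n = ζ ^ (e i j) := by
    intro i j hij
    simp only [e]
    split_ifs with h
    · exact hy i j h
    · have h' : j < i := lt_of_le_of_ne (not_lt.1 h) (Ne.symm hij)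
      have h1 := hy j i h'
      have h2 : y j - y i = -(y i - y j) := by ring
      rw [h2, hodd.neg_pow, h1, pow_add, hζhalf]
      ring
  have helt : ∀ i j, i ≠ j → e i j < m := by
    intro i j hij
    simp only [e]
    split_ifs with h
    · have := tri_lt (i := i) (j := j) (k := k) h j.2
      omega
    · have h' : j < i := lt_of_le_of_ne (not_lt.1 h) (Ne.symm hij)
      have := tri_lt (i := j) (j := i) (k := k) h' i.2
      omega
  have heinj : ∀ i j i' j', i ≠ j → i' ≠ j' → e i j = e i' j' → i = i' ∧ j = j' := by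
    intro i j i' j' hij hij' h
    simp only [e] at h
    split_ifs at h with h1 h2 h2
    · have := tri_inj (i := i) (j := j) (i' := i') (j' := j') h1 h2 h
      exact ⟨Fin.ext this.1, Fin.ext this.2⟩
    · exfalso
      have := tri_lt (i := i) (j := j) (k := k) h1 j.2
      omega
    · exfalso
      have := tri_lt (i := i') (j := j') (k := k) h2 j'.2
      omega
    · have h1' : j < i := lt_of_le_of_ne (not_lt.1 h1) (Ne.symm hij)
      have h2' : j' < i' := lt_of_le_of_ne (not_lt.1 h2) (Ne.symm hij')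
      have := tri_inj (i := j) (j := i) (i' := j') (j' := i') h1' h2' (by omega)
      exact ⟨Fin.ext this.2, Fin.ext this.1⟩
  have hfinj : ∀ i j i' j', i ≠ j → i' ≠ j' → (y j - y i) ^ n = (y j' - y i') ^ n →
      i = i' ∧ j = j' := by
    intro i j i' j' hij hij' h
    rw [he i j hij, he i' j' hij'] at h
    exact heinj i j i' j' hij hij' (hζ.pow_inj (helt i j hij) (helt i' j' hij') h)
  have hyinj : Function.Injective y := by
    intro i j hij
    by_contra hne
    have h1 := he i j hne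
    rw [hij, sub_self, zero_pow hn0.ne'] at h1
    exact (pow_ne_zero _ hζ0) h1.symm
  have hGDD : IsGDD k (univ : Finset (ZMod w))
      (dev (I := Unit) (J := Unit) n (fun _ => y) (fun _ _ => ())) := by
    apply dev_isGDD hn0
    · exact fun _ => hyinj
    · intro β β' i j i' j' hij hij' _ _ h
      obtain ⟨h1, h2⟩ := hfinj i j i' j' hij hij' h
      refine ⟨rfl, 1, one_pow _, fun l => ⟨l, by simp, rfl⟩, fun l => ⟨l, by simp, rfl⟩, ?_, ?_⟩
      · rw [h1]; simp
      · rw [h2]; simp
    · intro a b z hz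
      set K := (((univ : Finset (ZMod w)).filter (fun z => z ≠ 0)).image (fun z => z ^ n)) with hK
      have hKc : K.card = m := card_powers hnm hn0 hm0
      have himg : ((univ : Finset (Fin k)).offDiag).image (fun x => (y x.2 - y x.1) ^ n) = K := by
        apply eq_of_subset_of_card_le
        · intro κ hκ
          rw [mem_image] at hκ
          obtain ⟨x, hx, rfl⟩ := hκ
          rw [mem_offDiag] at hx
          rw [hK, mem_image]
          refine ⟨y x.2 - y x.1, ?_, rfl⟩
          rw [mem_filter]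
          exact ⟨mem_univ _, fun h => hx.2.2 (hyinj (sub_eq_zero.1 h)).symm⟩
        · have hinjOn : Set.InjOn (fun x : Fin k × Fin k => (y x.2 - y x.1) ^ n)
              ((univ : Finset (Fin k)).offDiag : Set (Fin k × Fin k)) := by
            intro x hx x' hx' h
            rw [mem_coe, mem_offDiag] at hx hx'
            obtain ⟨h1, h2⟩ := hfinj _ _ _ _ hx.2.2 hx'.2.2 h
            exact Prod.ext h1 h2
          rw [card_image_of_injOn hinjOn, hKc, offDiag_card, card_univ, Fintype.card_fin, hm,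
            Nat.mul_sub_left_distrib, mul_one]
      have hz' : z ^ n ∈ K := by
        rw [hK, mem_image]
        exact ⟨z, by rw [mem_filter]; exact ⟨mem_univ _, hz⟩, rfl⟩
      rw [← himg, mem_image] at hz'
      obtain ⟨x, hx, hx'⟩ := hz'
      rw [mem_offDiag] at hx
      exact ⟨(), x.1, x.2, hx.2.2, rfl, rfl, hx'⟩
  refine ⟨w, hwN', hwp, (dev (I := Unit) (J := Unit) n (fun _ => y) (fun _ _ => ())).image
    (fun B => B.image Pt.pos), ?_⟩
  have hposinj : Function.Injective (Pt.pos : Pt (ZMod w) Unit → ZMod w) := by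
    intro p r h
    exact Pt.ext h rfl
  refine ⟨?_, ?_, ?_⟩
  · intro B hB
    obtain ⟨B', hB', rfl⟩ := mem_image.1 hB
    rw [card_image_of_injective _ hposinj]
    exact hGDD.card_eq B' hB'
  · intro p r hpr
    obtain ⟨B, hB, h1, h2⟩ := hGDD.ex ⟨p, ()⟩ ⟨r, ()⟩ (mem_univ _) (mem_univ _) hpr
    exact ⟨_, mem_image_of_mem _ hB, mem_image_of_mem Pt.pos h1, mem_image_of_mem Pt.pos h2⟩
  · intro B hB B' hB' p r hpr h1 h2 h3 h4
    obtain ⟨C, hC, rfl⟩ := mem_image.1 hB
    obtain ⟨C', hC', rfl⟩ := mem_image.1 hB'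
    have hmem : ∀ (C : Finset (Pt (ZMod w) Unit)) (p : ZMod w), p ∈ C.image Pt.pos →
        (⟨p, ()⟩ : Pt (ZMod w) Unit) ∈ C := by
      intro C p h
      obtain ⟨s, hs, rfl⟩ := mem_image.1 h
      exact hs
    rw [hGDD.uniq C hC C' hC' ⟨p, ()⟩ ⟨r, ()⟩ (fun h => hpr (congrArg Pt.pos h)) (hmem _ _ h1)
      (hmem _ _ h2) (hmem _ _ h3) (hmem _ _ h4)]

end Pool.Agent.H59.Des
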