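import Pool.Agent.H59.Des.Mixing

/-!
# Power residue classes in `ZMod p` and prescribed differences
-/

open Finset

namespace Pool.Agent.H59.Des

variable {p : ℕ} [hp : Fact p.Prime]

/-- A primitive root. -/
lemma exists_primroot : ∃ g : ZMod p, IsPrimitiveRoot g (p - 1) := by
  obtain ⟨g, hg⟩ := IsCyclic.exists_ofOrder_eq_natCard (α := (ZMod p)ˣ)
  refine ⟨(g : ZMod p), ?_⟩
  rw [IsPrimitiveRoot.coe_units_iff]
  have h1 : Nat.card (ZMod p)ˣ = p - 1 := by
    rw [Nat.card_eq_fintype_card, ZMod.card_units_eq_totient, Nat.totient_prime hp.out]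
  rw [← h1, ← hg]
  exact IsPrimitiveRoot.orderOf g

lemma card_Cls_one {n m : ℕ} (hnm : p - 1 = n * m) (hn : 0 < n) (hm : 0 < m) :
    (Cls n (1 : ZMod p)).card = n := by
  obtain ⟨g, hg⟩ := exists_primroot (p := p)
  have h1 : IsPrimitiveRoot (g ^ m) n := by
    apply hg.pow _ (by rw [hnm, mul_comm])
    rw [hnm]; positivity
  refine Eq.trans ?_ h1.card_nthRootsFinset
  congr 1
  ext z
  rw [mem_Cls, Polynomial.mem_nthRootsFinset hn]

lemma card_Cls_pow {n m : ℕ} (hnm : p - 1 = n * m) (hn : 0 < n) (hm : 0 < m) {z₀ : ZMod p}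
    (hz : z₀ ≠ 0) : (Cls n (z₀ ^ n)).card = n := by
  refine Eq.trans ?_ (card_Cls_one hnm hn hm)
  apply card_nbij' (fun z => z₀⁻¹ * z) (fun z => z₀ * z)
  · intro z h
    rw [mem_coe, mem_Cls] at h ⊢
    rw [mul_pow, h, inv_pow, inv_mul_cancel₀ (pow_ne_zero _ hz)]
  · intro z h
    rw [mem_coe, mem_Cls] at h ⊢
    rw [mul_pow, h, mul_one]
  · intro z _
    simp only
    rw [mul_inv_cancel_left₀ hz]
  · intro z _
    simp only
    rw [inv_mul_cancel_left₀ hz]

/-- Prescribed differences (Wilson): inside any dense sets. -/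
theorem prescribed (m : ℕ) (hm : 0 < m) (k : ℕ) : ∀ ε : ℝ, 0 < ε → ∃ q₀ : ℕ,
    ∀ (p : ℕ) [Fact p.Prime], q₀ ≤ p → ∀ n : ℕ, 0 < n → p - 1 = n * m →
    ∀ V : Fin k → Finset (ZMod p), (∀ i, ε * p ≤ (V i).card) →
    ∀ κ : Fin k → Fin k → ZMod p, (∀ i j, ∃ z₀ : ZMod p, z₀ ≠ 0 ∧ z₀ ^ n = κ i j) →
    ∃ y : Fin k → ZMod p, (∀ i, y i ∈ V i) ∧ ∀ i j, i < j → (y j - y i) ^ n = κ i j := by
  induction k with
  | zero =>
    intro ε _
    refine ⟨0, fun p _ _ n _ _ V _ κ _ => ⟨fun i => i.elim0, fun i => i.elim0, fun i => i.elim0⟩⟩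
  | succ k ih =>
    intro ε hε
    have hmR : (0 : ℝ) < m := by exact_mod_cast hm
    obtain ⟨q₁, hq₁⟩ := ih (ε / (2 * m)) (by positivity)
    obtain ⟨q₂, hq₂⟩ := exists_nat_gt ((k : ℝ) * (16 * m ^ 2 / ε) / ε)
    refine ⟨max q₁ (max q₂ 4), ?_⟩
    intro p hp hqp n hn hnm V hV κ hκ
    have hp1 : q₁ ≤ p := (le_max_left _ _).trans hqp
    have hp2 : q₂ ≤ p := ((le_max_left _ _).trans (le_max_right _ _)).trans hqp
    have hp4 : 4 ≤ p := ((le_max_right _ _).trans (le_max_right _ _)).trans hqp
    have hpR : (0 : ℝ) < p := by exact_mod_cast hp.out.pos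
    have hp4R : (4 : ℝ) ≤ p := by exact_mod_cast hp4
    have hnmR : (p : ℝ) - 1 = n * m := by
      have : ((p - 1 : ℕ) : ℝ) = n * m := by rw [hnm]; push_cast; ring
      rw [Nat.cast_sub hp.out.one_lt.le] at this
      simpa using this
    -- bad points
    let Bad : Fin k → Finset (ZMod p) := fun j => (V 0).filter (fun y =>
      2 * m * (((V j.succ).filter (fun z => (z - y) ^ n = κ 0 j.succ)).card) < (V j.succ).card)
    have hbad : ∀ j, ((Bad j).card : ℝ) ≤ 16 * m ^ 2 / ε := by
      intro j
      set X := Bad j with hX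
      set Y := V j.succ with hY
      have hYc : ε * p ≤ Y.card := hV j.succ
      have hYpos : (0 : ℝ) < Y.card := lt_of_lt_of_le (by positivity) hYc
      obtain ⟨z₀, hz₀, hz₀κ⟩ := hκ 0 j.succ
      have hmix := mixing hn (card_Cls_one hnm hn hm) (κ 0 j.succ)
        (by rw [← hz₀κ]; exact card_Cls_pow hnm hn hm hz₀) X Y
      set N := ((X ×ˢ Y).filter (fun z => (z.2 - z.1) ^ n = κ 0 j.succ)).card with hN
      have hNle : 2 * m * N ≤ X.card * Y.card := by
        have e1 : N = ∑ x ∈ X, ((Y.filter (fun z => (z - x) ^ n = κ 0 j.succ)).card) := by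
          rw [hN, card_filter, sum_product]
          apply sum_congr rfl
          intro x _
          rw [card_filter]
        rw [e1, mul_sum]
        calc ∑ x ∈ X, 2 * m * ((Y.filter (fun z => (z - x) ^ n = κ 0 j.succ)).card)
            ≤ ∑ x ∈ X, Y.card := by
              apply sum_le_sum
              intro x hx
              rw [hX, mem_filter] at hx
              exact hx.2.le
          _ = _ := by rw [sum_const, smul_eq_mul]
      have hNle' : 2 * m * (N : ℝ) ≤ X.card * Y.card := by exact_mod_cast hNle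
      have hlow : (n : ℝ) * X.card * Y.card / p - N ≤ Real.sqrt (p * X.card * Y.card) := by
        have := (abs_le.1 hmix).1
        linarith
      have hn34 : 3 / (4 * m) ≤ (n : ℝ) / p := by
        rw [div_le_div_iff₀ (by positivity) hpR]
        nlinarith
      set W : ℝ := (X.card : ℝ) * Y.card with hW
      have hW0 : 0 ≤ W := by positivity
      have h2 : W / (4 * m) ≤ Real.sqrt (p * W) := by
        have h3 : (n : ℝ) * X.card * Y.card / p = n / p * W := by rw [hW]; ring
        have h4 : (N : ℝ) ≤ W / (2 * m) := by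
          rw [le_div_iff₀ (by positivity)]
          linarith
        have h5 : 3 / (4 * m) * W ≤ n / p * W := by gcongr
        have h6 : (p : ℝ) * X.card * Y.card = p * W := by rw [hW]; ring
        rw [h3, h6] at hlow
        have h7 : W / (4 * m) = 3 / (4 * m) * W - W / (2 * m) := by
          field_simp
          ring
        rw [h7]
        linarith
      have h8 : W ≤ 16 * m ^ 2 * p := by
        by_cases hWz : W = 0
        · rw [hWz]; positivity
        · have hWpos : 0 < W := lt_of_le_of_ne hW0 (Ne.symm hWz)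
          have h9 : (W / (4 * m)) ^ 2 ≤ p * W := by
            calc (W / (4 * m)) ^ 2 ≤ (Real.sqrt (p * W)) ^ 2 := by gcongr
              _ = p * W := Real.sq_sqrt (by positivity)
          have h10 : W * W ≤ (16 * m ^ 2 * p) * W := by
            rw [div_pow, div_le_iff₀ (by positivity)] at h9
            nlinarith
          exact le_of_mul_le_mul_right h10 hWpos
      rw [le_div_iff₀ hε]
      have h11 : (X.card : ℝ) * (ε * p) ≤ 16 * m ^ 2 * p := by
        calc (X.card : ℝ) * (ε * p) ≤ X.card * Y.card := by gcongr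
          _ ≤ _ := h8
      have h12 : ((X.card : ℝ) * ε) * p ≤ (16 * m ^ 2) * p := by linarith
      exact le_of_mul_le_mul_right h12 hpR
    have hex : ∃ y₀ ∈ V 0, ∀ j, y₀ ∉ Bad j := by
      have hlt : (univ.biUnion Bad).card < (V 0).card := by
        have h1 : ((univ.biUnion Bad).card : ℝ) ≤ k * (16 * m ^ 2 / ε) := by
          calc ((univ.biUnion Bad).card : ℝ) ≤ ∑ j, ((Bad j).card : ℝ) := by
                exact_mod_cast card_biUnion_le
            _ ≤ ∑ j : Fin k, (16 * m ^ 2 / ε) := sum_le_sum (fun j _ => hbad j)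
            _ = _ := by rw [sum_const, card_univ, Fintype.card_fin, nsmul_eq_mul]
        have h2 : (k : ℝ) * (16 * m ^ 2 / ε) < ε * p := by
          have h3 : (k : ℝ) * (16 * m ^ 2 / ε) / ε < p := by
            have : (q₂ : ℝ) ≤ p := by exact_mod_cast hp2
            linarith
          rw [div_lt_iff₀ hε] at h3
          linarith
        have h3 : ((univ.biUnion Bad).card : ℝ) < (V 0).card := by
          linarith [hV 0]
        exact_mod_cast h3
      obtain ⟨y₀, hy₀, hy₀'⟩ := exists_mem_notMem_of_card_lt_card hlt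
      refine ⟨y₀, hy₀, fun j hj => hy₀' ?_⟩
      rw [mem_biUnion]
      exact ⟨j, mem_univ _, hj⟩
    obtain ⟨y₀, hy₀, hy₀b⟩ := hex
    obtain ⟨y, hyV, hy⟩ := hq₁ p hp1 n hn hnm
      (fun j => (V j.succ).filter (fun z => (z - y₀) ^ n = κ 0 j.succ)) (by
        intro j
        have h1 := hy₀b j
        rw [mem_filter, not_and, not_lt] at h1
        have h2 := h1 hy₀
        have h3 : ((V j.succ).card : ℝ)
          ≤ 2 * m * (((V j.succ).filter (fun z => (z - y₀) ^ n = κ 0 j.succ)).card : ℝ) := by
          exact_mod_cast h2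
        have h4 := hV j.succ
        rw [div_mul_eq_mul_div, div_le_iff₀ (by positivity)]
        linarith)
      (fun i j => κ i.succ j.succ) (fun i j => hκ i.succ j.succ)
    refine ⟨Fin.cons y₀ y, ?_, ?_⟩
    · intro i
      refine Fin.cases ?_ (fun j => ?_) i
      · simpa using hy₀
      · simp only [Fin.cons_succ]
        exact (mem_filter.1 (hyV j)).1
    · intro i j hij
      induction i using Fin.cases with
      | zero =>
        induction j using Fin.cases with
        | zero => exact absurd hij (lt_irrefl _)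
        | succ j =>
          simp only [Fin.cons_succ, Fin.cons_zero]
          exact (mem_filter.1 (hyV j)).2
      | succ i =>
        induction j using Fin.cases with
        | zero => exact absurd hij (Fin.not_lt_zero _)
        | succ j =>
          simp only [Fin.cons_succ]
          exact hy i j (Fin.succ_lt_succ_iff.1 hij)

end Pool.Agent.H59.Des
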