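import Pool.Agent.H59.Des.Rigid

/-!
# A line on which an automorphism is not induced by the group gives a constraint
-/

open Finset
open scoped Pointwise

namespace Pool.Agent.H59.Des

section constraint

variable {F V J : Type*} [Field F] [Fintype F] [AddCommGroup V] [Module F V] [DecidableEq V]
  [DecidableEq J] [Fintype V] {k : ℕ} {G : Type*} [Group G] [DistribMulAction G V]
  [SMulCommClass G F V]

/-- Generic lines: all images under nontrivial group elements are disjoint from the line. -/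
def Gen (G : Type*) [Group G] [DistribMulAction G V] (L : Lin F V) : Prop :=
  ∀ g : G, ∀ x ∈ L.pts, g • x ∈ L.pts → g = 1

lemma Gen.smul {L : Lin F V} (h : Gen G L) (a : G) : Gen G (a • L) := by
  intro g x hx hgx
  rw [Lin.mem_smul] at hx hgx
  have h1 := h (a⁻¹ * g * a) (a⁻¹ • x) hx (by
    rw [smul_smul, mul_assoc, mul_inv_cancel, mul_one, mul_smul]
    exact hgx)
  have h2 : g = a * (a⁻¹ * g * a) * a⁻¹ := by group
  rw [h2, h1, mul_one, mul_inv_cancel]

lemma Lin.exists_two (L : Lin F V) : ∃ x ∈ L.pts, ∃ y ∈ L.pts, x ≠ y := by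
  have h1 : 1 < L.pts.card := by
    rw [L.card]
    exact Fintype.one_lt_card
  exact one_lt_card.1 h1

lemma Gen.stab {L : Lin F V} (h : Gen G L) {g : G} (hg : g • L = L) : g = 1 := by
  obtain ⟨x, hx, _⟩ := L.exists_two
  refine h g x hx ?_
  have h1 := (Lin.smul_mem g L).2 hx
  rwa [hg] at h1

lemma Gen.rep {L : Lin F V} (h : Gen G L) : Gen G (Des.rep (orb G L)) := by
  have h1 : Des.rep (orb G L) = (tr G L)⁻¹ • L := by
    rw [eq_inv_smul_iff, tr_smul]
  rw [h1]
  exact h.smul _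

lemma exists_om {L : Lin F V} (hgen : Gen G L) {D : Finset (Finset (Pt V J))}
    (hD : IsGDD k L.pts D) :
    ∃ z : Om J k (orb G L), ∀ y : (∀ M : Orb F V G, Om J k M), y (orb G L) = z → fam y L = D := by
  have h1 : Des.rep (orb G L) = (tr G L)⁻¹ • L := by
    rw [eq_inv_smul_iff, tr_smul]
  have h2 := hD.gsmul (tr G L)⁻¹
  rw [← h1] at h2
  refine ⟨⟨(gam (tr G L)⁻¹ : Equiv.Perm (Pt V J)) • D, h2, ?_⟩, ?_⟩
  · intro g hg
    rw [hgen.rep.stab hg, gam_one, one_smul]
  · intro y hy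
    unfold fam
    rw [hy]
    change (gam (tr G L) : Equiv.Perm (Pt V J)) • (gam (tr G L)⁻¹ : Equiv.Perm (Pt V J)) • D = D
    rw [gam_inv, smul_inv_smul]

lemma exists_smul_of_orb_eq {L L' : Lin F V} (h : orb G L' = orb G L) : ∃ g : G, L' = g • L := by
  have h1 : MulAction.orbitRel G (Lin F V) L' L := Quotient.exact h
  obtain ⟨g, hg⟩ := h1
  exact ⟨g, hg.symm⟩

lemma Gen.eq_of_mem {L : Lin F V} (h : Gen G L) {a b : G} {x : V} (ha : x ∈ (a • L).pts)
    (hb : x ∈ (b • L).pts) : a = b := by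
  rw [Lin.mem_smul] at ha hb
  have h1 := h (b⁻¹ * a) (a⁻¹ • x) ha (by
    rw [mul_smul, smul_inv_smul]
    exact hb)
  rw [inv_mul_eq_one] at h1
  exact h1.symm

theorem constraint [Fintype J] (hk : 3 ≤ k) (hJ : 5 ≤ Fintype.card J)
    (hF : 5 ≤ Fintype.card F) {𝒱 : Finset (Finset J)} (h𝒱 : IsDes k 𝒱)
    (hex : ∀ L : Lin F V, ∃ D : Finset (Finset (Pt V J)), IsGDD k L.pts D)
    (τ : Equiv.Perm (Pt V J)) {L : Lin F V} (hgen : Gen G L)
    (hnf : ¬ ∃ g : G, ∀ p : Pt V J, p.pos ∈ L.pts → τ⁻¹ p = gam g p) :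
    ∃ (d : Orb F V G) (f : (∀ M : Orb F V G, Om J k M) → Om J k (orb G L)),
      (∀ [DecidableEq (Orb F V G)] y c, f (Function.update y (orb G L) c) = f y) ∧
      (∀ [DecidableEq (Orb F V G)] j, j ≠ d → ∀ y c, f (Function.update y j c) = f y) ∧
      ∀ y : (∀ M : Orb F V G, Om J k M),
        τ • desOf 𝒱 (fam y) = desOf 𝒱 (fam y) → y (orb G L) ≠ f y := by
  have hJn : Nontrivial J := by
    rw [← Fintype.one_lt_card_iff_nontrivial]
    omega
  obtain ⟨D₀, hD₀⟩ := hex L
  by_cases hA : ∃ p r : Pt V J, p.pos ∈ L.pts ∧ r.pos ∈ L.pts ∧ p.pos ≠ r.pos ∧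
      (τ⁻¹ p).pos = (τ⁻¹ r).pos
  · -- vertical preimage
    obtain ⟨p, r, hp, hr, hpr, hpr'⟩ := hA
    have hne : τ⁻¹ p ≠ τ⁻¹ r := fun h => hpr (by rw [(τ⁻¹).injective h])
    have hlab : (τ⁻¹ p).lab ≠ (τ⁻¹ r).lab := fun h => hne (Pt.ext hpr' h)
    obtain ⟨A, hAV, hA1, hA2⟩ := h𝒱.ex _ _ hlab
    set B : Finset (Pt V J) := τ • vert (τ⁻¹ p).pos A with hB
    have hpB : p ∈ B := by
      rw [hB, mem_smul_perm, mem_vert]
      exact ⟨rfl, hA1⟩
    have hrB : r ∈ B := by
      rw [hB, mem_smul_perm, mem_vert]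
      exact ⟨hpr'.symm, hA2⟩
    obtain ⟨D, hD, hBD⟩ := avoid_block hk hD₀ hpr hpB hrB
    obtain ⟨z, hz⟩ := exists_om hgen hD
    refine ⟨orb G L, fun _ => z, fun _ _ => rfl, fun _ _ _ _ => rfl, ?_⟩
    intro y hy hyz
    apply hBD
    rw [← hz y hyz]
    have h1 : B ∈ desOf 𝒱 (fam y) := by
      rw [← hy]
      exact smul_mem_smul_finset (mem_desOf.2 (Or.inr ⟨_, A, hAV, rfl⟩))
    exact mem_of_mem_desOf (fam_isGDD y) h1 hpB hrB hpr hp hr
  · push Not at hA
    by_cases hB : ∃ p r : Pt V J, p.pos ∈ L.pts ∧ r.pos ∈ L.pts ∧ p.pos ≠ r.pos ∧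
        ∃ h : (τ⁻¹ p).pos ≠ (τ⁻¹ r).pos, orb G (thr F _ _ h) ≠ orb G L
    · -- preimage in another orbit
      obtain ⟨p, r, hp, hr, hpr, hpr', hM⟩ := hB
      set L' : Lin F V := thr F _ _ hpr' with hL'
      have hsel : ∀ z' : Om J k (orb G L'), ∃ z : Om J k (orb G L),
          ∀ y : (∀ M : Orb F V G, Om J k M), y (orb G L') = z' →
            τ • desOf 𝒱 (fam y) = desOf 𝒱 (fam y) → y (orb G L) ≠ z := by
        intro z'
        set D' := (gam (tr G L') : Equiv.Perm (Pt V J)) • z'.1 with hD'def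
        have hD' : IsGDD k L'.pts D' := by
          have h := z'.2.1.gsmul (tr G L')
          rw [tr_smul] at h
          exact h
        obtain ⟨B', hB', h1, h2⟩ := hD'.ex (τ⁻¹ p) (τ⁻¹ r) (left_mem_thr _) (right_mem_thr _) hpr'
        set B : Finset (Pt V J) := τ • B' with hB
        have hpB : p ∈ B := by
          rw [hB, mem_smul_perm]
          exact h1
        have hrB : r ∈ B := by
          rw [hB, mem_smul_perm]
          exact h2
        obtain ⟨D, hD, hBD⟩ := avoid_block hk hD₀ hpr hpB hrB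
        obtain ⟨z, hz⟩ := exists_om hgen hD
        refine ⟨z, ?_⟩
        intro y hy' hy hyz
        apply hBD
        rw [← hz y hyz]
        have h3 : B ∈ desOf 𝒱 (fam y) := by
          rw [← hy]
          apply smul_mem_smul_finset
          refine mem_desOf.2 (Or.inl ⟨L', ?_⟩)
          unfold fam
          rw [hy']
          exact hB'
        exact mem_of_mem_desOf (fam_isGDD y) h3 hpB hrB hpr hp hr
      choose f hf using hsel
      refine ⟨orb G L', fun y => f (y (orb G L')), ?_, ?_, ?_⟩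
      · intro _ y c
        simp only
        rw [Function.update_of_ne hM]
      · intro _ j hj y c
        simp only
        rw [Function.update_of_ne (Ne.symm hj)]
      · intro y hy
        exact hf _ y rfl hy
    · push Not at hB
      -- all pairs are mapped inside the orbit
      obtain ⟨x₀, hx₀, x₁, hx₁, hx⟩ := L.exists_two
      obtain ⟨j₀⟩ : Nonempty J := inferInstance
      have hpair : ∀ p r : Pt V J, p.pos ∈ L.pts → r.pos ∈ L.pts → p.pos ≠ r.pos →
          ∃ g : G, (τ⁻¹ p).pos ∈ (g • L).pts ∧ (τ⁻¹ r).pos ∈ (g • L).pts := by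
        intro p r hp hr hpr
        have h1 := hA p r hp hr hpr
        obtain ⟨g, hg⟩ := exists_smul_of_orb_eq (hB p r hp hr hpr h1)
        refine ⟨g, ?_, ?_⟩
        · rw [← hg]; exact left_mem_thr _
        · rw [← hg]; exact right_mem_thr _
      obtain ⟨g₀, hg₀, hg₀'⟩ := hpair ⟨x₀, j₀⟩ ⟨x₁, j₀⟩ hx₀ hx₁ hx
      have hall : ∀ p : Pt V J, p.pos ∈ L.pts → (τ⁻¹ p).pos ∈ (g₀ • L).pts := by
        intro p hp
        by_cases h : p.pos = x₀
        · obtain ⟨g, h1, h2⟩ := hpair p ⟨x₁, j₀⟩ hp hx₁ (by rw [h]; exact hx)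
          rw [hgen.eq_of_mem hg₀' h2]
          exact h1
        · obtain ⟨g, h1, h2⟩ := hpair p ⟨x₀, j₀⟩ hp hx₀ h
          rw [hgen.eq_of_mem hg₀ h2]
          exact h1
      set ρ : Equiv.Perm (Pt V J) := (gam g₀)⁻¹ * τ⁻¹ with hρ
      obtain ⟨D, hD, hρD⟩ : ∃ D : Finset (Finset (Pt V J)), IsGDD k L.pts D ∧ ρ • D ≠ D := by
        by_contra hcon
        push Not at hcon
        apply hnf
        refine ⟨g₀, ?_⟩
        intro p hp
        have h1 := rigid hk hJ (by rw [L.card]; exact hF) hD₀ ρ hcon p hp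
        rw [hρ, Equiv.Perm.mul_apply] at h1
        rw [← perm_apply_inv (gam g₀) (τ⁻¹ p), h1]
      obtain ⟨z, hz⟩ := exists_om hgen hD
      refine ⟨orb G L, fun _ => z, fun _ _ => rfl, fun _ _ _ _ => rfl, ?_⟩
      intro y hy hyz
      apply hρD
      have hfam := hz y hyz
      refine eq_of_subset_of_card_le ?_ (by rw [card_smul_finset])
      intro B' hB'
      obtain ⟨B, hBD, rfl⟩ := mem_smul_finset.1 hB'
      have h1 : B ∈ desOf 𝒱 (fam y) := mem_desOf.2 (Or.inl ⟨L, by rw [hfam]; exact hBD⟩)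
      have h2 : τ⁻¹ • B ∈ desOf 𝒱 (fam y) := by
        have h3 : τ⁻¹ • desOf 𝒱 (fam y) = desOf 𝒱 (fam y) := by
          rw [inv_smul_eq_iff]
          exact hy.symm
        rw [← h3]
        exact smul_mem_smul_finset h1
      have h4 : 1 < B.card := by rw [hD.card_eq B hBD]; omega
      obtain ⟨p, hp, r, hr, hpr⟩ := one_lt_card.1 h4
      have hpr' : p.pos ≠ r.pos := fun h => hpr (hD.inj B hBD p hp r hr h)
      have hpL := hD.sub B hBD p hp
      have hrL := hD.sub B hBD r hr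
      have h5 : τ⁻¹ • B ∈ fam y (g₀ • L) :=
        mem_of_mem_desOf (fam_isGDD y) h2 (smul_mem_smul_finset hp) (smul_mem_smul_finset hr)
          (hA p r hpL hrL hpr') (hall p hpL) (hall r hrL)
      rw [fam_smul, hfam] at h5
      rw [hρ, mul_smul]
      obtain ⟨B₁, hB₁, h6⟩ := mem_smul_finset.1 h5
      rw [← h6, inv_smul_smul]
      exact hB₁

end constraint

end Pool.Agent.H59.Des
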