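import Mathlib

/-!
# Counting points of a product subject to sparse constraints
-/

open Finset

namespace Pool.Agent.H59.Des

section count

variable {I : Type*} [Fintype I] [DecidableEq I] {Ω : I → Type*} [∀ i, Fintype (Ω i)]
  [∀ i, DecidableEq (Ω i)] {N : ℕ}

theorem count_step (hN1 : 1 ≤ N) (a : I) (hN : Fintype.card (Ω a) ≤ N)
    (A : Finset (∀ i, Ω i)) (hA : ∀ y ∈ A, ∀ c, Function.update y a c ∈ A)
    (f : (∀ i, Ω i) → Ω a) (hf : ∀ y c, f (Function.update y a c) = f y) :
    N * (A.filter (fun y => y a ≠ f y)).card ≤ (N - 1) * A.card := by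
  have h1 : (A.filter (fun y => y a ≠ f y)).card
      ≤ (N - 1) * (A.filter (fun y => ¬ (y a ≠ f y))).card := by
    apply card_le_mul_card_image_of_maps_to (f := fun y => Function.update y a (f y))
    · intro y hy
      rw [mem_filter] at hy ⊢
      refine ⟨hA y hy.1 _, ?_⟩
      rw [not_not, Function.update_self, hf]
    · intro z hz
      have h2 : (((univ : Finset (Ω a)).erase (f z))).card ≤ N - 1 := by
        rw [card_erase_of_mem (mem_univ _), card_univ]
        omega
      refine le_trans ?_ h2
      apply card_le_card_of_injOn (fun y => y a)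
      · intro y hy
        rw [mem_coe, mem_filter, mem_filter] at hy
        rw [mem_coe, mem_erase]
        refine ⟨?_, mem_univ _⟩
        intro h
        apply hy.1.2
        rw [← hy.2, hf] at h
        exact h
      · intro y hy y' hy' h
        rw [mem_coe, mem_filter, mem_filter] at hy hy'
        have e1 : y = Function.update z a (y a) := by
          rw [← hy.2, Function.update_idem, Function.update_eq_self]
        have e2 : y' = Function.update z a (y' a) := by
          rw [← hy'.2, Function.update_idem, Function.update_eq_self]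
        simp only at h
        rw [e1, e2, h]
  have h3 := card_filter_add_card_filter_not (s := A) (fun y => y a ≠ f y)
  obtain ⟨M, rfl⟩ : ∃ M, N = M + 1 := ⟨N - 1, by omega⟩
  rw [Nat.add_sub_cancel] at h1 ⊢
  rw [← h3]
  nlinarith

theorem count_ranked (hN1 : 1 ≤ N) (hN : ∀ i, Fintype.card (Ω i) ≤ N) (r : I → ℕ) (S : Finset I)
    (f : ∀ i, (∀ j, Ω j) → Ω i)
    (hf : ∀ i ∈ S, ∀ j, r i ≤ r j → ∀ y c, f i (Function.update y j c) = f i y) :
    N ^ S.card * ((univ : Finset (∀ i, Ω i)).filter (fun y => ∀ i ∈ S, y i ≠ f i y)).card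
      ≤ (N - 1) ^ S.card * Fintype.card (∀ i, Ω i) := by
  induction S using Finset.induction_on_max_value r with
  | empty => simp
  | insert a s ha hmax ih =>
    have ih' := ih (fun i hi => hf i (mem_insert_of_mem hi))
    set A := (univ : Finset (∀ i, Ω i)).filter (fun y => ∀ i ∈ s, y i ≠ f i y) with hA
    have h1 : (univ : Finset (∀ i, Ω i)).filter (fun y => ∀ i ∈ insert a s, y i ≠ f i y)
        = A.filter (fun y => y a ≠ f a y) := by
      ext y
      rw [hA, mem_filter, mem_filter, mem_filter]
      constructor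
      · rintro ⟨h, h2⟩
        exact ⟨⟨h, fun i hi => h2 i (mem_insert_of_mem hi)⟩, h2 a (mem_insert_self _ _)⟩
      · rintro ⟨⟨h, h2⟩, h3⟩
        refine ⟨h, fun i hi => ?_⟩
        rcases mem_insert.1 hi with rfl | hi
        · exact h3
        · exact h2 i hi
    have h2 := count_step hN1 a (hN a) A (by
      intro y hy c
      rw [hA, mem_filter] at hy ⊢
      refine ⟨mem_univ _, fun i hi => ?_⟩
      have hia : i ≠ a := fun h => ha (h ▸ hi)
      rw [Function.update_of_ne hia, hf i (mem_insert_of_mem hi) a (hmax i hi)]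
      exact hy.2 i hi) (f a) (fun y c => hf a (mem_insert_self _ _) a le_rfl y c)
    rw [h1, card_insert_of_notMem ha, pow_succ, pow_succ]
    calc N ^ s.card * N * (A.filter (fun y => y a ≠ f a y)).card
        = N ^ s.card * (N * (A.filter (fun y => y a ≠ f a y)).card) := by ring
      _ ≤ N ^ s.card * ((N - 1) * A.card) := Nat.mul_le_mul_left _ h2
      _ = (N - 1) * (N ^ s.card * A.card) := by ring
      _ ≤ (N - 1) * ((N - 1) ^ s.card * Fintype.card (∀ i, Ω i)) := Nat.mul_le_mul_left _ ih'
      _ = _ := by ring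

theorem count_half (hN1 : 1 ≤ N) (hN : ∀ i, Fintype.card (Ω i) ≤ N) (S : Finset I)
    (f : ∀ i, (∀ j, Ω j) → Ω i) (d : I → I)
    (hf : ∀ i ∈ S, ∀ y c, f i (Function.update y i c) = f i y)
    (hf' : ∀ i ∈ S, ∀ j, j ≠ d i → ∀ y c, f i (Function.update y j c) = f i y) :
    ∃ s, S.card ≤ 2 * s ∧
    N ^ s * ((univ : Finset (∀ i, Ω i)).filter (fun y => ∀ i ∈ S, y i ≠ f i y)).card
      ≤ (N - 1) ^ s * Fintype.card (∀ i, Ω i) := by
  classical
  let e := Fintype.equivFin I
  have main : ∀ r : I → ℕ, Function.Injective r → ∀ S' : Finset I, S' ⊆ S →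
      (∀ i ∈ S', r (d i) ≤ r i) →
      N ^ S'.card * ((univ : Finset (∀ i, Ω i)).filter (fun y => ∀ i ∈ S, y i ≠ f i y)).card
        ≤ (N - 1) ^ S'.card * Fintype.card (∀ i, Ω i) := by
    intro r hr S' hS' hd
    have h1 := count_ranked hN1 hN r S' f (by
      intro i hi j hij y c
      by_cases hj : j = d i
      · have h2 : j = i := by
          apply hr
          have := hd i hi
          rw [← hj] at this
          omega
        subst h2
        exact hf j (hS' hi) y c
      · exact hf' i (hS' hi) j hj y c)
    refine le_trans (Nat.mul_le_mul_left _ ?_) h1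
    apply card_le_card
    intro y hy
    rw [mem_filter] at hy ⊢
    exact ⟨hy.1, fun i hi => hy.2 i (hS' hi)⟩
  have hsum := card_filter_add_card_filter_not (s := S) (fun i => (e (d i)).val ≤ (e i).val)
  by_cases h : S.card ≤ 2 * (S.filter (fun i => (e (d i)).val ≤ (e i).val)).card
  · refine ⟨_, h, main (fun i => (e i).val) ?_ _ (filter_subset _ _) ?_⟩
    · intro i j hij
      exact e.injective (Fin.ext hij)
    · intro i hi
      exact (mem_filter.1 hi).2
  · refine ⟨(S.filter (fun i => ¬ ((e (d i)).val ≤ (e i).val))).card, by omega,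
      main (fun i => (Fin.rev (e i)).val) ?_ _ (filter_subset _ _) ?_⟩
    · intro i j hij
      exact e.injective (Fin.rev_injective (Fin.ext hij))
    · intro i hi
      have h1 := (mem_filter.1 hi).2
      simp only [Fin.val_rev]
      have := (e i).2
      have := (e (d i)).2
      omega

end count

end Pool.Agent.H59.Des
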