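import Pool.Agent.H59.Des.Lines

/-!
# The designs obtained from an equivariant family of group divisible designs on the lines
-/

open Finset
open scoped Pointwise

namespace Pool.Agent.H59.Des

section design

variable {F V J : Type*} [Field F] [Fintype F] [AddCommGroup V] [Module F V] [DecidableEq V]
  [DecidableEq J] [Fintype V] {k : ℕ}

noncomputable instance instFintypeLin : Fintype (Lin F V) := by
  classical
  exact Fintype.ofInjective (fun L : Lin F V => L.pts) (fun _ _ h => Lin.ext' h)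

/-- The vertical block at `x`. -/
def vert (x : V) (A : Finset J) : Finset (Pt V J) := A.image (fun j => ⟨x, j⟩)

lemma mem_vert {x : V} {A : Finset J} {p : Pt V J} : p ∈ vert x A ↔ p.pos = x ∧ p.lab ∈ A := by
  unfold vert
  rw [mem_image]
  constructor
  · rintro ⟨j, hj, rfl⟩
    exact ⟨rfl, hj⟩
  · rintro ⟨rfl, hj⟩
    exact ⟨p.lab, hj, rfl⟩

/-- The block set of a family of designs on the lines, completed by the vertical blocks. -/
noncomputable def desOf (𝒱 : Finset (Finset J)) (Dm : Lin F V → Finset (Finset (Pt V J))) :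
    Finset (Finset (Pt V J)) :=
  (univ : Finset (Lin F V)).biUnion Dm ∪
    ((univ : Finset V) ×ˢ 𝒱).image (fun z => vert z.1 z.2)

lemma mem_desOf {𝒱 : Finset (Finset J)} {Dm : Lin F V → Finset (Finset (Pt V J))}
    {B : Finset (Pt V J)} :
    B ∈ desOf 𝒱 Dm ↔ (∃ L, B ∈ Dm L) ∨ ∃ x, ∃ A ∈ 𝒱, B = vert x A := by
  unfold desOf
  rw [mem_union, mem_biUnion, mem_image]
  constructor
  · rintro (⟨L, _, h⟩ | ⟨z, hz, rfl⟩)
    · exact Or.inl ⟨L, h⟩
    · exact Or.inr ⟨z.1, z.2, (mem_product.1 hz).2, rfl⟩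
  · rintro (⟨L, h⟩ | ⟨x, A, hA, rfl⟩)
    · exact Or.inl ⟨L, mem_univ _, h⟩
    · exact Or.inr ⟨(x, A), mem_product.2 ⟨mem_univ _, hA⟩, rfl⟩

/-- A block of the design containing two points at different positions is a block of the
design on the corresponding line. -/
lemma mem_of_mem_desOf {𝒱 : Finset (Finset J)} {Dm : Lin F V → Finset (Finset (Pt V J))}
    (hDm : ∀ L, IsGDD k L.pts (Dm L)) {B : Finset (Pt V J)} (hB : B ∈ desOf 𝒱 Dm)
    {p r : Pt V J} (hp : p ∈ B) (hr : r ∈ B) (hpr : p.pos ≠ r.pos) {L : Lin F V}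
    (hpL : p.pos ∈ L.pts) (hrL : r.pos ∈ L.pts) : B ∈ Dm L := by
  rcases mem_desOf.1 hB with ⟨L', h⟩ | ⟨x, A, hA, rfl⟩
  · have h1 := (hDm L').sub B h p hp
    have h2 := (hDm L').sub B h r hr
    rw [Lin.eq_of_mem hpr hpL hrL h1 h2]
    exact h
  · exact absurd ((mem_vert.1 hp).1.trans (mem_vert.1 hr).1.symm) hpr

theorem isDes_desOf {𝒱 : Finset (Finset J)} (h𝒱 : IsDes k 𝒱)
    {Dm : Lin F V → Finset (Finset (Pt V J))} (hDm : ∀ L, IsGDD k L.pts (Dm L)) :
    IsDes k (desOf 𝒱 Dm) := by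
  refine ⟨?_, ?_, ?_⟩
  · intro B hB
    rcases mem_desOf.1 hB with ⟨L, h⟩ | ⟨x, A, hA, rfl⟩
    · exact (hDm L).card_eq B h
    · unfold vert
      rw [card_image_of_injective, h𝒱.card_eq A hA]
      intro i j h
      exact congrArg Pt.lab h
  · intro p r hpr
    by_cases h : p.pos = r.pos
    · have h2 : p.lab ≠ r.lab := fun h2 => hpr (Pt.ext h h2)
      obtain ⟨A, hA, h3, h4⟩ := h𝒱.ex p.lab r.lab h2
      exact ⟨vert p.pos A, mem_desOf.2 (Or.inr ⟨_, A, hA, rfl⟩), mem_vert.2 ⟨rfl, h3⟩,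
        mem_vert.2 ⟨h.symm, h4⟩⟩
    · obtain ⟨B, hB, h3, h4⟩ := (hDm (thr F p.pos r.pos h)).ex p r (left_mem_thr h)
        (right_mem_thr h) h
      exact ⟨B, mem_desOf.2 (Or.inl ⟨_, hB⟩), h3, h4⟩
  · intro B hB B' hB' p r hpr hpB hrB hpB' hrB'
    by_cases h : p.pos = r.pos
    · have h2 : p.lab ≠ r.lab := fun h2 => hpr (Pt.ext h h2)
      have key : ∀ B ∈ desOf 𝒱 Dm, p ∈ B → r ∈ B → ∃ A ∈ 𝒱, B = vert p.pos A ∧
          p.lab ∈ A ∧ r.lab ∈ A := by
        intro B hB hp hr
        rcases mem_desOf.1 hB with ⟨L, h5⟩ | ⟨x, A, hA, rfl⟩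
        · exact absurd ((hDm L).inj B h5 p hp r hr h) hpr
        · have h6 := mem_vert.1 hp
          have h7 := mem_vert.1 hr
          exact ⟨A, hA, by rw [h6.1], h6.2, h7.2⟩
      obtain ⟨A, hA, rfl, h3, h4⟩ := key B hB hpB hrB
      obtain ⟨A', hA', rfl, h3', h4'⟩ := key B' hB' hpB' hrB'
      rw [h𝒱.uniq A hA A' hA' p.lab r.lab h2 h3 h4 h3' h4']
    · have h1 := mem_of_mem_desOf hDm hB hpB hrB h (left_mem_thr h) (right_mem_thr h)
      have h2 := mem_of_mem_desOf hDm hB' hpB' hrB' h (left_mem_thr h) (right_mem_thr h)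
      exact (hDm _).uniq B h1 B' h2 p r hpr hpB hrB hpB' hrB'

lemma gam_smul_vert {G : Type*} [Group G] [MulAction G V] (g : G) (x : V) (A : Finset J) :
    (gam g : Equiv.Perm (Pt V J)) • vert x A = vert (g • x) A := by
  ext p
  rw [mem_smul_finset, mem_vert]
  constructor
  · rintro ⟨r, hr, rfl⟩
    have := mem_vert.1 hr
    refine ⟨?_, ?_⟩
    · rw [← this.1]; rfl
    · exact this.2
  · rintro ⟨h1, h2⟩
    exact ⟨⟨x, p.lab⟩, mem_vert.2 ⟨rfl, h2⟩, Pt.ext h1.symm rfl⟩

variable {G : Type*} [Group G] [DistribMulAction G V] [SMulCommClass G F V]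

theorem desOf_invariant {𝒱 : Finset (Finset J)} {Dm : Lin F V → Finset (Finset (Pt V J))}
    (heq : ∀ (g : G) L, Dm (g • L) = (gam g : Equiv.Perm (Pt V J)) • Dm L) (g : G) :
    (gam g : Equiv.Perm (Pt V J)) • desOf 𝒱 Dm = desOf 𝒱 Dm := by
  refine eq_of_subset_of_card_le ?_ (by rw [card_smul_finset])
  intro B' hB'
  obtain ⟨B, hB, rfl⟩ := mem_smul_finset.1 hB'
  rcases mem_desOf.1 hB with ⟨L, h⟩ | ⟨x, A, hA, rfl⟩
  · refine mem_desOf.2 (Or.inl ⟨g • L, ?_⟩)
    rw [heq]
    exact smul_mem_smul_finset h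
  · rw [gam_smul_vert]
    exact mem_desOf.2 (Or.inr ⟨_, A, hA, rfl⟩)

end design

section orbits

variable (F V J G : Type*) [Field F] [Fintype F] [AddCommGroup V] [Module F V] [DecidableEq V]
  [DecidableEq J] [Group G] [DistribMulAction G V] [SMulCommClass G F V]

/-- orbits of lines -/
abbrev Orb : Type _ := MulAction.orbitRel.Quotient G (Lin F V)

variable {F V G}

/-- the chosen line in an orbit -/
noncomputable def rep (M : Orb F V G) : Lin F V := Quotient.out M

/-- the orbit of a line -/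
def orb (G : Type*) [Group G] [DistribMulAction G V] [SMulCommClass G F V]
    (L : Lin F V) : Orb F V G := Quotient.mk _ L

lemma orb_rep (M : Orb F V G) : orb G (rep M) = M := Quotient.out_eq M

lemma orb_smul (g : G) (L : Lin F V) : orb G (g • L) = orb G L :=
  Quotient.sound ⟨g, rfl⟩

lemma exists_tr (L : Lin F V) : ∃ g : G, g • rep (orb G L) = L := by
  have h : MulAction.orbitRel G (Lin F V) L (rep (orb G L)) :=
    Quotient.exact (Quotient.out_eq (orb G L)).symm
  obtain ⟨g, hg⟩ := h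
  exact ⟨g, hg⟩

/-- an element moving the representative to a given line -/
noncomputable def tr (G : Type*) [Group G] [DistribMulAction G V] [SMulCommClass G F V]
    (L : Lin F V) : G := (exists_tr (G := G) L).choose

lemma tr_smul (L : Lin F V) : tr G L • rep (orb G L) = L := (exists_tr (G := G) L).choose_spec

variable {J}

/-- the admissible designs on the representative of an orbit -/
def Om (J : Type*) [DecidableEq J] (k : ℕ) (M : Orb F V G) : Type _ :=
  {D : Finset (Finset (Pt V J)) // IsGDD k (rep M).pts D ∧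
    ∀ g : G, g • rep M = rep M → (gam g : Equiv.Perm (Pt V J)) • D = D}

/-- the family of designs on all lines -/
noncomputable def fam {k : ℕ} (y : ∀ M : Orb F V G, Om J k M) (L : Lin F V) :
    Finset (Finset (Pt V J)) :=
  (gam (tr G L) : Equiv.Perm (Pt V J)) • (y (orb G L)).1

lemma fam_isGDD {k : ℕ} (y : ∀ M : Orb F V G, Om J k M) (L : Lin F V) :
    IsGDD k L.pts (fam y L) := by
  have h := (y (orb G L)).2.1.gsmul (tr G L)
  rw [tr_smul] at h
  exact h

lemma fam_smul {k : ℕ} (y : ∀ M : Orb F V G, Om J k M) (g : G) (L : Lin F V) :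
    fam y (g • L) = (gam g : Equiv.Perm (Pt V J)) • fam y L := by
  have key : ∀ (M : Orb F V G) (a b : G), a • rep M = b • rep M →
      (gam a : Equiv.Perm (Pt V J)) • (y M).1 = (gam b : Equiv.Perm (Pt V J)) • (y M).1 := by
    intro M a b hab
    have h1 : (b⁻¹ * a) • rep M = rep M := by
      rw [mul_smul, hab, inv_smul_smul]
    have h2 := (y M).2.2 _ h1
    rw [gam_mul, gam_inv, mul_smul, inv_smul_eq_iff] at h2
    exact h2
  have h3 : orb G (g • L) = orb G L := orb_smul g L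
  have h4 : ∀ M : Orb F V G, M = orb G L → tr G (g • L) • rep M = g • L →
      (gam (tr G (g • L)) : Equiv.Perm (Pt V J)) • (y M).1
        = (gam g : Equiv.Perm (Pt V J)) • fam y L := by
    rintro M rfl hM
    unfold fam
    rw [smul_smul, ← gam_mul]
    apply key
    rw [hM, mul_smul, tr_smul]
  exact h4 _ h3 (tr_smul (g • L))

end orbits

end Pool.Agent.H59.Des
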