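import Pool.Agent.H59.Des.SBlocks
import Pool.Agent.H59.Des.BaseDesign

/-!
# A group divisible design on `ZMod q × ZMod w` invariant under `x ↦ a x + b`, `a ^ e = 1`
-/

open Finset

namespace Pool.Agent.H59.Des

section roles

variable {k : ℕ}

/-- role of an index. -/
def rol (i : Fin k) : ℕ := min i.val (k - 1 - i.val)

/-- sign of an index. -/
def sn (p : ℕ) (i : Fin k) : ZMod p :=
  if i.val < k / 2 then 1 else if k - 1 - i.val < k / 2 then -1 else 0

/-- is the index in the first half -/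
def bi (i : Fin k) : Bool := decide (i.val < k / 2)

lemma rol_le (i : Fin k) : rol i ≤ k / 2 := by
  have := i.2
  unfold rol
  omega

lemma rol_rev (i : Fin k) : rol (Fin.rev i) = rol i := by
  have := i.2
  unfold rol
  rw [Fin.val_rev]
  omega

lemma sn_of_lt {p : ℕ} {i : Fin k} (h : rol i < k / 2) : sn p i = sgb (bi i) := by
  have := i.2
  unfold rol at h
  unfold sn bi sgb
  by_cases h1 : i.val < k / 2
  · simp [h1]
  · have h2 : k - 1 - i.val < k / 2 := by omega
    simp [h1, h2]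

lemma sn_rev {p : ℕ} (i : Fin k) : sn p (Fin.rev i) = - sn p i := by
  have := i.2
  unfold sn
  rw [Fin.val_rev]
  by_cases h1 : i.val < k / 2
  · have h2 : ¬ (k - (i.val + 1) < k / 2) := by omega
    have h3 : k - 1 - (k - (i.val + 1)) < k / 2 := by omega
    simp [h1, h2, h3]
  · by_cases h4 : k - 1 - i.val < k / 2
    · have h2 : k - (i.val + 1) < k / 2 := by omega
      simp [h1, h2, h4]
    · have h2 : ¬ (k - (i.val + 1) < k / 2) := by omega
      have h3 : ¬ (k - 1 - (k - (i.val + 1)) < k / 2) := by omega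
      simp [h1, h2, h3, h4]

lemma sn_center {p : ℕ} {i : Fin k} (h : rol i = k / 2) : sn p i = 0 := by
  have := i.2
  unfold rol at h
  unfold sn
  have h1 : ¬ i.val < k / 2 := by omega
  have h2 : ¬ (k - 1 - i.val < k / 2) := by omega
  simp [h1, h2]

lemma rev_center {i : Fin k} (h : rol i = k / 2) : Fin.rev i = i := by
  have := i.2
  unfold rol at h
  apply Fin.ext
  rw [Fin.val_rev]
  omega

lemma rev_ne_of_lt {i : Fin k} (h : rol i < k / 2) : Fin.rev i ≠ i := by
  have := i.2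
  unfold rol at h
  intro h1
  have h2 := congrArg Fin.val h1
  rw [Fin.val_rev] at h2
  omega

lemma rol_eq {i j : Fin k} (h : rol i = rol j) : j = i ∨ j = Fin.rev i := by
  have := i.2
  have := j.2
  unfold rol at h
  by_cases h1 : j.val = i.val
  · exact Or.inl (Fin.ext h1)
  · right
    apply Fin.ext
    rw [Fin.val_rev]
    omega

lemma bi_eq {i j : Fin k} (h : rol i = rol j) (hlt : rol i < k / 2) (hb : bi i = bi j) :
    j = i := by
  have := i.2
  have := j.2
  unfold rol at h hlt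
  unfold bi at hb
  rw [decide_eq_decide] at hb
  apply Fin.ext
  by_cases h1 : i.val < k / 2
  · have h2 := hb.1 h1
    omega
  · have h2 : ¬ j.val < k / 2 := fun h => h1 (hb.2 h)
    omega

lemma bi_ne {i j : Fin k} (h : rol i = rol j) (hb : bi i ≠ bi j) :
    j = Fin.rev i := by
  rcases rol_eq h with h1 | h1
  · rw [h1] at hb
    exact absurd rfl hb
  · exact h1

lemma bi_rev {i : Fin k} (h : rol i < k / 2) : bi (Fin.rev i) = !(bi i) := by
  have := i.2
  unfold rol at h
  unfold bi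
  rw [Fin.val_rev]
  by_cases h1 : i.val < k / 2
  · have h2 : ¬ (k - (i.val + 1) < k / 2) := by omega
    simp [h1, h2]
  · have h2 : (k - (i.val + 1) < k / 2) := by omega
    simp [h1, h2]

lemma sgb_sq {p : ℕ} (b : Bool) : (sgb b : ZMod p) * sgb b = 1 := by
  cases b <;> simp [sgb]

lemma sgb_pow {p n : ℕ} (hn : Even n) (b : Bool) : (sgb b : ZMod p) ^ n = 1 := by
  cases b
  · simp [sgb, hn.neg_one_pow]
  · simp [sgb]

lemma neg_sgb_mul {p : ℕ} (a b : Bool) : -((sgb a : ZMod p) * sgb b) = sgb (xor a b) := by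
  cases a <;> cases b <;> simp [sgb]

end roles

section assembly

variable {k p w n : ℕ}

/-- positions of the symmetric blocks -/
def XS (x : (ZMod w)ˣ × ZMod w → ℕ → ZMod p) (β : (ZMod w)ˣ × ZMod w) (i : Fin k) : ZMod p :=
  sn p i * x β (rol i)

/-- labels of the symmetric blocks -/
def LS (β : (ZMod w)ˣ × ZMod w) (i : Fin k) : ZMod w := slab β (rol i)

lemma two_ne_zero' {p : ℕ} [hp : Fact p.Prime] (hp2 : p ≠ 2) : (2 : ZMod p) ≠ 0 := by
  intro h
  have h' : ((2 : ℕ) : ZMod p) = 0 := by exact_mod_cast h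
  rw [ZMod.natCast_eq_zero_iff] at h'
  exact hp2 ((Nat.prime_dvd_prime_iff_eq hp.out Nat.prime_two).1 h')

lemma cls_same (heven : Even n) (x : (ZMod w)ˣ × ZMod w → ℕ → ZMod p)
    (β : (ZMod w)ˣ × ZMod w) {i j : Fin k} (hij : i ≠ j) (h : rol i = rol j) :
    rol i < k / 2 ∧ XS x β j - XS x β i = -(2 * (sgb (bi i) * x β (rol i))) ∧
      (XS x β j - XS x β i) ^ n = 2 ^ n * x β (rol i) ^ n := by
  have hj : j = Fin.rev i := by
    rcases rol_eq h with h1 | h1
    · exact absurd h1.symm hij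
    · exact h1
  have hlt : rol i < k / 2 := by
    rcases lt_or_eq_of_le (rol_le i) with h1 | h1
    · exact h1
    · exfalso
      rw [rev_center h1] at hj
      exact hij hj.symm
  have e1 : XS x β j - XS x β i = -(2 * (sgb (bi i) * x β (rol i))) := by
    unfold XS
    rw [hj, sn_rev, rol_rev, sn_of_lt hlt]
    ring
  refine ⟨hlt, e1, ?_⟩
  rw [e1, heven.neg_pow, mul_pow, mul_pow, sgb_pow heven, one_mul]

lemma cls_left (heven : Even n) (x : (ZMod w)ˣ × ZMod w → ℕ → ZMod p)
    (β : (ZMod w)ˣ × ZMod w) {i j : Fin k} (hi : rol i = k / 2) (hj : rol j < k / 2) :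
    XS x β j - XS x β i = sgb (bi j) * x β (rol j) ∧
      (XS x β j - XS x β i) ^ n = x β (rol j) ^ n := by
  have e1 : XS x β j - XS x β i = sgb (bi j) * x β (rol j) := by
    unfold XS
    rw [sn_center hi, sn_of_lt hj]
    ring
  exact ⟨e1, by rw [e1, mul_pow, sgb_pow heven, one_mul]⟩

lemma cls_right (heven : Even n) (x : (ZMod w)ˣ × ZMod w → ℕ → ZMod p)
    (β : (ZMod w)ˣ × ZMod w) {i j : Fin k} (hi : rol i < k / 2) (hj : rol j = k / 2) :
    XS x β j - XS x β i = -(sgb (bi i) * x β (rol i)) ∧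
      (XS x β j - XS x β i) ^ n = x β (rol i) ^ n := by
  have e1 : XS x β j - XS x β i = -(sgb (bi i) * x β (rol i)) := by
    unfold XS
    rw [sn_center hj, sn_of_lt hi]
    ring
  exact ⟨e1, by rw [e1, heven.neg_pow, mul_pow, sgb_pow heven, one_mul]⟩

lemma cls_gen (heven : Even n) (x : (ZMod w)ˣ × ZMod w → ℕ → ZMod p)
    (β : (ZMod w)ˣ × ZMod w) {i j : Fin k} (hi : rol i < k / 2) (hj : rol j < k / 2) :
    XS x β j - XS x β i = sgb (bi j) * (x β (rol j) + sgb (xor (bi i) (bi j)) * x β (rol i)) ∧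
      (XS x β j - XS x β i) ^ n = (x β (rol j) + sgb (xor (bi i) (bi j)) * x β (rol i)) ^ n := by
  have e1 : XS x β j - XS x β i
      = sgb (bi j) * (x β (rol j) + sgb (xor (bi i) (bi j)) * x β (rol i)) := by
    unfold XS
    rw [sn_of_lt hi, sn_of_lt hj, ← neg_sgb_mul]
    have := sgb_sq (p := p) (bi j)
    linear_combination (sgb (bi i) * x β (rol i)) * this
  exact ⟨e1, by rw [e1, mul_pow, sgb_pow heven, one_mul]⟩


lemma rev_cases {β β' : (ZMod w)ˣ × ZMod w} {i j i' j' : Fin k} (hβ : β = β')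
    (hi : rol i < k / 2) (hi' : rol i = rol i') (hj' : rol j = rol j')
    (hj : rol j < k / 2) (hb : xor (bi i) (bi j) = xor (bi i') (bi j')) :
    β = β' ∧ ((i' = i ∧ j' = j) ∨ (i' = Fin.rev i ∧ j' = Fin.rev j)) := by
  refine ⟨hβ, ?_⟩
  by_cases h1 : bi i = bi i'
  · left
    have h2 : bi j = bi j' := by
      rw [h1] at hb
      exact (Bool.xor_right_inj).1 hb
    exact ⟨bi_eq hi' hi h1, bi_eq hj' hj h2⟩
  · right
    have h2 : bi j ≠ bi j' := by
      intro h2
      rw [h2] at hb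
      exact h1 (Bool.xor_left_inj.1 hb)
    exact ⟨bi_ne hi' h1, bi_ne hj' h2⟩

theorem sym_unique [hw : Fact w.Prime] [hp : Fact p.Prime] (hp2 : p ≠ 2) (heven : Even n)
    (hkw : 2 * (k / 2) < w)
    (E : (ZMod w)ˣ → ℕ → ZMod p) (x : (ZMod w)ˣ × ZMod w → ℕ → ZMod p)
    (hEinj : ∀ u u', ∀ r < k / 2, ∀ r' < k / 2, E u r = E u' r' → u = u' ∧ r = r')
    (P1 : ∀ β, ∀ r < k / 2, x β r ^ n = E β.1 r)
    (P3 : ∀ β β', ∀ r < k / 2, ∀ r' < k / 2, r ≠ r' → ∀ s < k / 2, ∀ s' < k / 2, s ≠ s' →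
        ∀ b b' : Bool, slab β r = slab β' s → slab β r' = slab β' s' →
        (x β r' + sgb b * x β r) ^ n = (x β' s' + sgb b' * x β' s) ^ n → β = β' ∧ b = b')
    (P4 : ∀ β, ∀ r < k / 2, ∀ r' < k / 2, r ≠ r' → ∀ b : Bool, ∀ β', ∀ t < k / 2,
        ((slab β r = slab β' (k / 2) ∧ slab β r' = slab β' t) ∨
          (slab β r = slab β' t ∧ slab β r' = slab β' (k / 2))) →
        (x β r' + sgb b * x β r) ^ n ≠ E β'.1 t)
    {β β' : (ZMod w)ˣ × ZMod w} {i j i' j' : Fin k} (hij : i ≠ j) (hij' : i' ≠ j')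
    (h1 : LS β i = LS β' i') (h2 : LS β j = LS β' j')
    (hc : (XS x β j - XS x β i) ^ n = (XS x β' j' - XS x β' i') ^ n) :
    β = β' ∧ ((i' = i ∧ j' = j) ∨ (i' = Fin.rev i ∧ j' = Fin.rev j)) := by
  unfold LS at h1 h2
  have hle : ∀ i : Fin k, rol i < w := fun i => by have := rol_le i; omega
  by_cases hr : rol i = rol j
  · -- same role
    have hr' : rol i' = rol j' := by
      have : slab β' (rol i') = slab β' (rol j') := by rw [← h1, ← h2, hr]
      exact slab_inj (hle _) (hle _) this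
    obtain ⟨hl, _, e1⟩ := cls_same heven x β hij hr
    obtain ⟨hl', _, e2⟩ := cls_same heven x β' hij' hr'
    rw [e1, e2] at hc
    have h3 := mul_left_cancel₀ (pow_ne_zero n (two_ne_zero' hp2)) hc
    rw [P1 β _ hl, P1 β' _ hl'] at h3
    obtain ⟨h4, h5⟩ := hEinj _ _ _ hl _ hl' h3
    have hβ : β = β' := by
      refine Prod.ext h4 ?_
      unfold slab at h1
      rw [h4, h5] at h1
      exact add_right_cancel ((Units.mul_right_inj β'.1).1 h1)
    refine ⟨hβ, ?_⟩
    have hj : j = Fin.rev i := by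
      rcases rol_eq hr with h6 | h6
      · exact absurd h6.symm hij
      · exact h6
    have hj' : j' = Fin.rev i' := by
      rcases rol_eq hr' with h6 | h6
      · exact absurd h6.symm hij'
      · exact h6
    rcases rol_eq h5 with h6 | h6
    · left
      exact ⟨h6, by rw [hj', h6, hj]⟩
    · right
      exact ⟨h6, by rw [hj', h6, hj]⟩
  · have hr' : rol i' ≠ rol j' := by
      intro h
      have : slab β (rol i) = slab β (rol j) := by rw [h1, h2, h]
      exact hr (slab_inj (hle _) (hle _) this)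
    -- generic lemmas for centre cases
    have key1 : ∀ {i j i' j' : Fin k}, slab β (rol i) = slab β' (rol i') →
        slab β (rol j) = slab β' (rol j') →
        (XS x β j - XS x β i) ^ n = (XS x β' j' - XS x β' i') ^ n → rol i = k / 2 →
        rol j < k / 2 → rol i' = k / 2 → rol j' < k / 2 →
        β = β' ∧ ((i' = i ∧ j' = j) ∨ (i' = Fin.rev i ∧ j' = Fin.rev j)) := by
      intro i j i' j' h1 h2 hc hi hj hi' hj'
      obtain ⟨_, e1⟩ := cls_left heven x β hi hj
      obtain ⟨_, e2⟩ := cls_left heven x β' hi' hj'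
      rw [e1, e2, P1 β _ hj, P1 β' _ hj'] at hc
      obtain ⟨h4, h5⟩ := hEinj _ _ _ hj _ hj' hc
      have hβ : β = β' := by
        refine Prod.ext h4 ?_
        unfold slab at h1
        rw [h4, hi, hi'] at h1
        exact add_right_cancel ((Units.mul_right_inj β'.1).1 h1)
      refine ⟨hβ, ?_⟩
      have hii : i' = i := by
        rcases rol_eq (hi.trans hi'.symm) with h6 | h6
        · exact h6
        · rw [h6, rev_center hi]
      rcases rol_eq h5 with h6 | h6
      · exact Or.inl ⟨hii, h6⟩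
      · exact Or.inr ⟨by rw [hii, rev_center hi], h6⟩
    have key2 : ∀ {i j i' j' : Fin k}, slab β (rol i) = slab β' (rol i') →
        slab β (rol j) = slab β' (rol j') →
        (XS x β j - XS x β i) ^ n = (XS x β' j' - XS x β' i') ^ n → rol i = k / 2 →
        rol j < k / 2 → rol i' < k / 2 → rol j' = k / 2 → False := by
      intro i j i' j' h1 h2 hc hi hj hi' hj'
      obtain ⟨_, e1⟩ := cls_left heven x β hi hj
      obtain ⟨_, e2⟩ := cls_right heven x β' hi' hj'
      rw [e1, e2, P1 β _ hj, P1 β' _ hi'] at hc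
      obtain ⟨h4, h5⟩ := hEinj _ _ _ hj _ hi' hc
      unfold slab at h1 h2
      rw [h4] at h1 h2
      have h6 := (Units.mul_right_inj β'.1).1 h1
      have h7 := (Units.mul_right_inj β'.1).1 h2
      rw [hi, ← h5] at h6
      rw [hj'] at h7
      have h8 : (((k / 2) + (k / 2) : ℕ) : ZMod w) = ((rol j + rol j : ℕ) : ZMod w) := by
        push_cast
        linear_combination h6 - h7
      have h9 := natCast_inj_of_lt (by omega) (by omega) h8
      omega
    have swap : ∀ {β : (ZMod w)ˣ × ZMod w} {i j : Fin k},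
        (XS x β j - XS x β i) ^ n = (XS x β i - XS x β j) ^ n := by
      intro β i j
      rw [← neg_sub, heven.neg_pow]
    rcases lt_or_eq_of_le (rol_le i) with hi | hi
    · rcases lt_or_eq_of_le (rol_le j) with hj | hj
      · rcases lt_or_eq_of_le (rol_le i') with hi' | hi'
        · rcases lt_or_eq_of_le (rol_le j') with hj' | hj'
          · -- generic, generic
            obtain ⟨_, e1⟩ := cls_gen heven x β hi hj
            obtain ⟨_, e2⟩ := cls_gen heven x β' hi' hj'
            rw [e1, e2] at hc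
            obtain ⟨h4, h5⟩ := P3 β β' _ hi _ hj hr _ hi' _ hj' hr' _ _ h1 h2 hc
            subst h4
            exact rev_cases rfl hi (slab_inj (hle _) (hle _) h1) (slab_inj (hle _) (hle _) h2) hj
              h5
          · exfalso
            obtain ⟨_, e1⟩ := cls_gen heven x β hi hj
            obtain ⟨_, e2⟩ := cls_right heven x β' hi' hj'
            rw [e1, e2, P1 β' _ hi'] at hc
            refine P4 β _ hi _ hj hr _ β' _ hi' (Or.inr ⟨h1, ?_⟩) hc
            rw [h2, hj']
        · have hj' : rol j' < k / 2 := lt_of_le_of_ne (rol_le _) (fun h => hr' (hi'.trans h.symm))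
          exfalso
          obtain ⟨_, e1⟩ := cls_gen heven x β hi hj
          obtain ⟨_, e2⟩ := cls_left heven x β' hi' hj'
          rw [e1, e2, P1 β' _ hj'] at hc
          refine P4 β _ hi _ hj hr _ β' _ hj' (Or.inl ⟨?_, h2⟩) hc
          rw [h1, hi']
      · -- j centre
        rcases lt_or_eq_of_le (rol_le i') with hi' | hi'
        · rcases lt_or_eq_of_le (rol_le j') with hj' | hj'
          · exfalso
            obtain ⟨_, e1⟩ := cls_right heven x β hi hj
            obtain ⟨_, e2⟩ := cls_gen heven x β' hi' hj'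
            rw [e1, e2, P1 β _ hi] at hc
            refine P4 β' _ hi' _ hj' hr' _ β _ hi (Or.inr ⟨h1.symm, ?_⟩) hc.symm
            rw [← h2, hj]
          · rw [swap (β := β), swap (β := β')] at hc
            obtain ⟨h3, h4⟩ := key1 h2 h1 hc hj hi hj' hi'
            refine ⟨h3, ?_⟩
            rcases h4 with h4 | h4
            · exact Or.inl ⟨h4.2, h4.1⟩
            · exact Or.inr ⟨h4.2, h4.1⟩
        · have hj' : rol j' < k / 2 := lt_of_le_of_ne (rol_le _) (fun h => hr' (hi'.trans h.symm))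
          rw [swap (β := β), swap (β := β')] at hc
          exact (key2 h2 h1 hc hj hi hj' hi').elim
    · have hj : rol j < k / 2 := lt_of_le_of_ne (rol_le _) (fun h => hr (hi.trans h.symm))
      rcases lt_or_eq_of_le (rol_le i') with hi' | hi'
      · rcases lt_or_eq_of_le (rol_le j') with hj' | hj'
        · exfalso
          obtain ⟨_, e1⟩ := cls_left heven x β hi hj
          obtain ⟨_, e2⟩ := cls_gen heven x β' hi' hj'
          rw [e1, e2, P1 β _ hj] at hc
          refine P4 β' _ hi' _ hj' hr' _ β _ hj (Or.inl ⟨?_, h2.symm⟩) hc.symm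
          rw [← h1, hi]
        · exact (key2 h1 h2 hc hi hj hi' hj').elim
      · have hj' : rol j' < k / 2 := lt_of_le_of_ne (rol_le _) (fun h => hr' (hi'.trans h.symm))
        exact key1 h1 h2 hc hi hj hi' hj'


lemma XS_rev (x : (ZMod w)ˣ × ZMod w → ℕ → ZMod p) (β : (ZMod w)ˣ × ZMod w) (i : Fin k) :
    XS x β (Fin.rev i) = - XS x β i := by
  unfold XS
  rw [sn_rev, rol_rev]
  ring

lemma LS_rev (β : (ZMod w)ˣ × ZMod w) (i : Fin k) : LS β (Fin.rev i) = LS β i := by
  unfold LS
  rw [rol_rev]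

lemma sgb_ne [hp : Fact p.Prime] (b : Bool) : (sgb b : ZMod p) ≠ 0 := by
  intro h
  have := sgb_sq (p := p) b
  rw [h, mul_zero] at this
  exact zero_ne_one this

lemma XS_inj [hp : Fact p.Prime] (hp2 : p ≠ 2) (heven : Even n)
    (x : (ZMod w)ˣ × ZMod w → ℕ → ZMod p)
    (hx0 : ∀ β, ∀ r < k / 2, x β r ≠ 0)
    (P2 : ∀ β, ∀ r < k / 2, ∀ r' < k / 2, r ≠ r' → x β r' - x β r ≠ 0 ∧ x β r' + x β r ≠ 0)
    (β : (ZMod w)ˣ × ZMod w) : Function.Injective (XS (k := k) x β) := by
  intro i j hx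
  by_contra hij
  have hx' : XS x β j - XS x β i = 0 := by rw [hx, sub_self]
  by_cases hr : rol i = rol j
  · obtain ⟨hl, e1, _⟩ := cls_same heven x β hij hr
    rw [hx'] at e1
    exact neg_ne_zero.2 (mul_ne_zero (two_ne_zero' hp2) (mul_ne_zero (sgb_ne _) (hx0 β _ hl)))
      e1.symm
  · rcases lt_or_eq_of_le (rol_le i) with hi | hi
    · rcases lt_or_eq_of_le (rol_le j) with hj | hj
      · obtain ⟨e1, _⟩ := cls_gen heven x β hi hj
        rw [hx'] at e1
        refine mul_ne_zero (sgb_ne _) ?_ e1.symm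
        rcases xor (bi i) (bi j) with _ | _
        · simp only [sgb, Bool.false_eq_true, if_false, neg_mul, one_mul]
          rw [← sub_eq_add_neg]
          exact (P2 β _ hi _ hj hr).1
        · simp only [sgb, if_true, one_mul]
          exact (P2 β _ hi _ hj hr).2
      · obtain ⟨e1, _⟩ := cls_right heven x β hi hj
        rw [hx'] at e1
        exact neg_ne_zero.2 (mul_ne_zero (sgb_ne _) (hx0 β _ hi)) e1.symm
    · have hj : rol j < k / 2 := lt_of_le_of_ne (rol_le _) (fun h => hr (hi.trans h.symm))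
      obtain ⟨e1, _⟩ := cls_left heven x β hi hj
      rw [hx'] at e1
      exact mul_ne_zero (sgb_ne _) (hx0 β _ hj) e1.symm

lemma slab_solve [hw : Fact w.Prime] {r r' : ℕ} (hr : r < w) (hr' : r' < w) (hne : r ≠ r')
    {a b : ZMod w} (hab : a ≠ b) : ∃ β, slab β r = a ∧ slab β r' = b := by
  have h1 : (r : ZMod w) - r' ≠ 0 := fun h => hne (natCast_inj_of_lt hr hr' (sub_eq_zero.1 h))
  have h2 : a - b ≠ 0 := sub_ne_zero.2 hab
  refine ⟨(Units.mk0 ((a - b) / ((r : ZMod w) - r')) (div_ne_zero h2 h1),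
    a * (((r : ZMod w) - r') / (a - b)) - r), ?_, ?_⟩
  · unfold slab
    simp only [Units.val_mk0]
    field_simp
    ring
  · unfold slab
    simp only [Units.val_mk0]
    field_simp
    ring

/-- Classes of differences of the symmetric blocks with labels `a`, `b`. -/
def Uset (k n : ℕ) [NeZero w] (x : (ZMod w)ˣ × ZMod w → ℕ → ZMod p) (a b : ZMod w) :
    Finset (ZMod p) :=
  ((univ : Finset (((ZMod w)ˣ × ZMod w) × Fin k × Fin k)).filter (fun z =>
    rol z.2.1 ≠ rol z.2.2 ∧ LS z.1 z.2.1 = a ∧ LS z.1 z.2.2 = b)).image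
      (fun z => (XS x z.1 z.2.2 - XS x z.1 z.2.1) ^ n)

lemma mem_Uset [NeZero w] {x : (ZMod w)ˣ × ZMod w → ℕ → ZMod p} {a b : ZMod w} {c : ZMod p} :
    c ∈ Uset k n x a b ↔ ∃ (β : (ZMod w)ˣ × ZMod w) (i j : Fin k), rol i ≠ rol j ∧ LS β i = a ∧
      LS β j = b ∧ (XS x β j - XS x β i) ^ n = c := by
  unfold Uset
  rw [mem_image]
  constructor
  · rintro ⟨⟨β, i, j⟩, h, rfl⟩
    rw [mem_filter] at h
    exact ⟨β, i, j, h.2.1, h.2.2.1, h.2.2.2, rfl⟩
  · rintro ⟨β, i, j, h1, h2, h3, rfl⟩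
    exact ⟨(β, i, j), by rw [mem_filter]; exact ⟨mem_univ _, h1, h2, h3⟩, rfl⟩

lemma Uset_comm [NeZero w] (heven : Even n) (x : (ZMod w)ˣ × ZMod w → ℕ → ZMod p)
    (a b : ZMod w) : Uset k n x a b = Uset k n x b a := by
  have : ∀ a b c, c ∈ Uset k n x a b → c ∈ Uset k n x b a := by
    intro a b c h
    obtain ⟨β, i, j, h1, h2, h3, rfl⟩ := mem_Uset.1 h
    exact mem_Uset.2 ⟨β, j, i, h1.symm, h3, h2, by rw [← neg_sub, heven.neg_pow]⟩
  ext c
  exact ⟨this a b c, this b a c⟩

lemma card_Uset [NeZero w] [hw : Fact w.Prime] (heven : Even n) (hkw : k / 2 < w)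
    (x : (ZMod w)ˣ × ZMod w → ℕ → ZMod p)
    (hU : ∀ (β β' : (ZMod w)ˣ × ZMod w) (i j i' j' : Fin k), i ≠ j → i' ≠ j' →
      LS β i = LS β' i' → LS β j = LS β' j' →
      (XS x β j - XS x β i) ^ n = (XS x β' j' - XS x β' i') ^ n →
      β = β' ∧ ((i' = i ∧ j' = j) ∨ (i' = Fin.rev i ∧ j' = Fin.rev j)))
    {a b : ZMod w} (hab : a ≠ b) :
    ((univ : Finset (Fin k × Fin k)).filter (fun z => rol z.1 ≠ rol z.2)).card
      = 2 * (Uset k n x a b).card := by
  have hle : ∀ i : Fin k, rol i < w := fun i => by have := rol_le i; omega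
  have hsol : ∀ z : Fin k × Fin k, ∃ β : (ZMod w)ˣ × ZMod w, rol z.1 ≠ rol z.2 →
      LS β z.1 = a ∧ LS β z.2 = b := by
    intro z
    by_cases h : rol z.1 = rol z.2
    · exact ⟨(1, 0), fun h' => absurd h h'⟩
    · obtain ⟨β, h1, h2⟩ := slab_solve (hle z.1) (hle z.2) h hab
      exact ⟨β, fun _ => ⟨h1, h2⟩⟩
  choose f hf using hsol
  have hne : ∀ i j : Fin k, rol i ≠ rol j → i ≠ j := fun i j h h' => h (by rw [h'])
  have hdet : ∀ (β : (ZMod w)ˣ × ZMod w) (i j : Fin k), rol i ≠ rol j → LS β i = a → LS β j = b →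
      f (i, j) = β := by
    intro β i j h h1 h2
    have h3 := hf (i, j) h
    exact slab_det (hle i) (hle j) h (h3.1.trans h1.symm) (h3.2.trans h2.symm)
  rw [card_eq_sum_card_fiberwise (t := Uset k n x a b)
    (f := fun z => (XS x (f z) z.2 - XS x (f z) z.1) ^ n)]
  · rw [sum_const_nat (m := 2), mul_comm]
    intro c hc
    obtain ⟨β, i, j, h1, h2, h3, rfl⟩ := mem_Uset.1 hc
    have : ((univ : Finset (Fin k × Fin k)).filter (fun z => rol z.1 ≠ rol z.2)).filter
        (fun z => (XS x (f z) z.2 - XS x (f z) z.1) ^ n = (XS x β j - XS x β i) ^ n)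
        = {(i, j), (Fin.rev i, Fin.rev j)} := by
      ext z
      rw [mem_filter, mem_filter, mem_insert, mem_singleton]
      constructor
      · rintro ⟨⟨_, h4⟩, h5⟩
        have h6 := hf z h4
        obtain ⟨_, h7⟩ := hU β (f z) i j z.1 z.2 (hne _ _ h1) (hne _ _ h4)
          (h2.trans h6.1.symm) (h3.trans h6.2.symm) h5.symm
        rcases h7 with h7 | h7
        · exact Or.inl (Prod.ext h7.1 h7.2)
        · exact Or.inr (Prod.ext h7.1 h7.2)
      · rintro (rfl | rfl)
        · refine ⟨⟨mem_univ _, h1⟩, ?_⟩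
          rw [hdet β i j h1 h2 h3]
        · have h1' : rol (Fin.rev i) ≠ rol (Fin.rev j) := by rwa [rol_rev, rol_rev]
          refine ⟨⟨mem_univ _, h1'⟩, ?_⟩
          rw [hdet β (Fin.rev i) (Fin.rev j) h1' (by rw [LS_rev, h2]) (by rw [LS_rev, h3])]
          simp only
          rw [XS_rev, XS_rev, ← neg_sub, heven.neg_pow]
          congr 1
          ring
    rw [this, card_pair]
    intro heq
    have e1 := congrArg Prod.fst heq
    have e2 := congrArg Prod.snd heq
    simp only at e1 e2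
    have h4 : rol i = k / 2 := by
      rcases lt_or_eq_of_le (rol_le i) with h | h
      · exact absurd e1.symm (rev_ne_of_lt h)
      · exact h
    have h5 : rol j = k / 2 := by
      rcases lt_or_eq_of_le (rol_le j) with h | h
      · exact absurd e2.symm (rev_ne_of_lt h)
      · exact h
    exact h1 (h4.trans h5.symm)
  · intro z hz
    rw [mem_coe, mem_filter] at hz
    rw [mem_coe]
    have h6 := hf z hz.2
    exact mem_Uset.2 ⟨f z, z.1, z.2, hz.2, h6.1, h6.2, rfl⟩


end assembly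

theorem exists_nth {α : Type*} [DecidableEq α] [Inhabited α] (u₀ : ℕ) :
    ∃ e : Finset α → Fin u₀ → α, ∀ S : Finset α, S.card = u₀ →
      Function.Injective (e S) ∧ ∀ z, z ∈ S ↔ ∃ l, e S l = z := by
  classical
  refine ⟨fun S => if h : S.card = u₀ then fun l => ((S.equivFinOfCardEq h).symm l : α)
    else fun _ => default, ?_⟩
  intro S hS
  simp only [hS, dif_pos]
  refine ⟨?_, ?_⟩
  · intro l l' h
    exact (S.equivFinOfCardEq hS).symm.injective (Subtype.ext h)
  · intro z
    constructor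
    · intro hz
      exact ⟨S.equivFinOfCardEq hS ⟨z, hz⟩, by simp⟩
    · rintro ⟨l, rfl⟩
      exact ((S.equivFinOfCardEq hS).symm l).2

theorem exists_gdd {k w : ℕ} (hk : 3 ≤ k) [hw : Fact w.Prime]
    (hwk : 32 * (k / 2) ^ 2 * (k / 2 + 1) ≤ w - 1) (𝒱 : Finset (Finset (ZMod w)))
    (h𝒱 : IsDes k 𝒱) (e : ℕ) (he : 0 < e) (N : ℕ) :
    ∃ q : ℕ, ∃ _ : Fact q.Prime, N < q ∧ ∃ D : Finset (Finset (Pt (ZMod q) (ZMod w))),
      IsGDD k univ D ∧ ∀ a b : ZMod q, a ^ e = 1 → ∀ B ∈ D, B.image (aff a b) ∈ D := by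
  have hh : 0 < k / 2 := by omega
  have hh2 : 0 < 32 * (k / 2) ^ 2 * (k / 2 + 1) := by positivity
  have hw1 : 0 < w - 1 := by omega
  set m := k / 2 * (w - 1) with hm
  have hm0 : 0 < m := Nat.mul_pos hh hw1
  obtain ⟨q₀, hq₀⟩ := prescribed m hm0 k 1 one_pos
  obtain ⟨q, hq, hqN, hqm⟩ := Nat.exists_prime_gt_modEq_one (k := 2 * e * m)
    (max N (max q₀ (max (4 * m ^ 4) (8 * (k / 2) ^ 2 * m + 2)))) (by positivity)
  haveI hqF : Fact q.Prime := ⟨hq⟩
  have hqN' : N < q ∧ q₀ < q ∧ 4 * m ^ 4 < q ∧ 8 * (k / 2) ^ 2 * m + 2 < q := by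
    simpa [max_lt_iff] using hqN
  obtain ⟨hN1, hN2, hN3, hN4⟩ := hqN'
  have hdvd : 2 * e * m ∣ q - 1 := (Nat.modEq_iff_dvd' hq.one_lt.le).1 hqm.symm
  obtain ⟨t, ht⟩ := hdvd
  have hq2 : q ≠ 2 := by omega
  set n := 2 * e * t with hndef
  have hnm : q - 1 = n * m := by rw [ht, hndef]; ring
  have heven : Even n := ⟨e * t, by rw [hndef]; ring⟩
  have hn0 : 0 < n := by
    rcases Nat.eq_zero_or_pos n with h | h
    · rw [h, zero_mul] at hnm; omega
    · exact h
  have hn8 : 8 * (k / 2) ^ 2 ≤ n := by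
    by_contra hlt
    push Not at hlt
    have := Nat.mul_le_mul_right m hlt.le
    omega
  have hkw : 2 * (k / 2) < w := by nlinarith [Nat.sub_le w 1]
  obtain ⟨E, hE1, hE2, hE3, hE4⟩ := exists_E (p := q) (w := w) hn0 hh hq2 hnm (by nlinarith)
  obtain ⟨x, P1, P2, P3, P4⟩ := exists_sym (p := q) (w := w) hn0 hh hnm (by rw [← hm]; omega)
    heven hwk hn8 E hE1 hE4
  have hx0 : ∀ β, ∀ r < k / 2, x β r ≠ 0 := by
    intro β r hr h
    have h1 := P1 β r hr
    rw [h, zero_pow hn0.ne'] at h1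
    obtain ⟨z₀, hz, hz'⟩ := hE1 β.1 r hr
    rw [← h1] at hz'
    exact hz (pow_eq_zero_iff hn0.ne' |>.1 hz')
  have hU : ∀ (β β' : (ZMod w)ˣ × ZMod w) (i j i' j' : Fin k), i ≠ j → i' ≠ j' →
      LS β i = LS β' i' → LS β j = LS β' j' →
      (XS x β j - XS x β i) ^ n = (XS x β' j' - XS x β' i') ^ n →
      β = β' ∧ ((i' = i ∧ j' = j) ∨ (i' = Fin.rev i ∧ j' = Fin.rev j)) := by
    intro β β' i j i' j' h1 h2 h3 h4 h5
    exact sym_unique hq2 heven hkw E x hE2 P1 P3 P4 h1 h2 h3 h4 h5
  have hXinj : ∀ β, Function.Injective (XS (k := k) x β) := XS_inj hq2 heven x hx0 P2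
  set K := ((univ : Finset (ZMod q)).filter (fun z => z ≠ 0)).image (fun z => z ^ n) with hK
  have hKc : K.card = m := card_powers hnm hn0 hm0
  have hKmem : ∀ c, c ∈ K ↔ ∃ z : ZMod q, z ≠ 0 ∧ z ^ n = c := by
    intro c
    rw [hK, mem_image]
    constructor
    · rintro ⟨z, hz, rfl⟩
      rw [mem_filter] at hz
      exact ⟨z, hz.2, rfl⟩
    · rintro ⟨z, hz, rfl⟩
      exact ⟨z, by rw [mem_filter]; exact ⟨mem_univ _, hz⟩, rfl⟩
  have hUK : ∀ a b, Uset k n x a b ⊆ K := by
    intro a b c hc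
    obtain ⟨β, i, j, h1, h2, h3, rfl⟩ := mem_Uset.1 hc
    refine (hKmem _).2 ⟨_, ?_, rfl⟩
    intro h
    have := hXinj β (sub_eq_zero.1 h)
    exact h1 (by rw [this])
  set R := ((univ : Finset (Fin k × Fin k)).filter (fun z => rol z.1 ≠ rol z.2)).card with hR
  set u₀ := m - R / 2 with hu₀
  have hcardS : ∀ a b, a ≠ b → (K \ Uset k n x a b).card = u₀ := by
    intro a b hab
    have h1 := card_Uset (k := k) heven (by omega) x hU hab
    rw [card_sdiff_of_subset (hUK a b), hKc, hu₀, hR, h1]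
    omega
  obtain ⟨ν, hν⟩ := exists_nth (α := ZMod q) u₀
  have hlab : ∀ B : {B // B ∈ 𝒱}, ∃ b : Fin k → ZMod w, Function.Injective b ∧
      ∀ a, a ∈ B.1 ↔ ∃ i, b i = a := by
    intro B
    obtain ⟨e', he'⟩ := exists_nth (α := ZMod w) k
    exact ⟨e' B.1, he' B.1 (h𝒱.card_eq B.1 B.2)⟩
  choose lab hlabinj hlabmem using hlab
  have hy : ∀ z : {B // B ∈ 𝒱} × Fin u₀, ∃ y : Fin k → ZMod q, ∀ i j, i ≠ j →
      (y j - y i) ^ n = ν (K \ Uset k n x (lab z.1 i) (lab z.1 j)) z.2 := by
    rintro ⟨B, l⟩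
    obtain ⟨y, _, hy⟩ := hq₀ q hN2.le n hn0 hnm (fun _ => univ)
      (by intro i; rw [card_univ, ZMod.card, one_mul])
      (fun i j => if i = j then 1 else ν (K \ Uset k n x (lab B i) (lab B j)) l) (by
        intro i j
        by_cases hij : i = j
        · simp only [hij, if_true]
          exact ⟨1, one_ne_zero, one_pow _⟩
        · simp only [hij, if_false]
          have h1 := hcardS (lab B i) (lab B j) (fun h => hij (hlabinj B h))
          have h2 := ((hν _ h1).2 (ν (K \ Uset k n x (lab B i) (lab B j)) l)).2 ⟨l, rfl⟩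
          exact (hKmem _).1 (mem_sdiff.1 h2).1)
    refine ⟨y, ?_⟩
    intro i j hij
    rcases lt_or_gt_of_ne hij with h | h
    · rw [hy i j h, if_neg hij]
    · rw [← neg_sub, heven.neg_pow, hy j i h, if_neg hij.symm, Uset_comm heven]
  choose y hy using hy
  have hycls : ∀ (z : {B // B ∈ 𝒱} × Fin u₀) (i j : Fin k), i ≠ j →
      (y z j - y z i) ^ n ∈ K \ Uset k n x (lab z.1 i) (lab z.1 j) := by
    intro z i j hij
    rw [hy z i j hij]
    exact ((hν _ (hcardS _ _ (fun h => hij (hlabinj z.1 h)))).2 _).2 ⟨z.2, rfl⟩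
  let X : ((ZMod w)ˣ × ZMod w) ⊕ ({B // B ∈ 𝒱} × Fin u₀) → Fin k → ZMod q :=
    Sum.elim (XS x) y
  let lam : ((ZMod w)ˣ × ZMod w) ⊕ ({B // B ∈ 𝒱} × Fin u₀) → Fin k → ZMod w :=
    Sum.elim LS (fun z => lab z.1)
  have hX1 : ∀ β, X (Sum.inl β) = XS x β := fun _ => rfl
  have hX2 : ∀ z, X (Sum.inr z) = y z := fun _ => rfl
  have hL1 : ∀ β, lam (Sum.inl β) = LS β := fun _ => rfl
  have hL2 : ∀ z, lam (Sum.inr z) = lab z.1 := fun _ => rfl
  refine ⟨q, hqF, hN1, dev n X lam, ?_, ?_⟩
  · apply dev_isGDD hn0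
    · rintro (β | z)
      · exact hXinj β
      · rw [hX2]
        intro i j hij
        by_contra hne
        have h1 := hycls z i j hne
        rw [hij, sub_self, zero_pow hn0.ne', mem_sdiff, hKmem] at h1
        obtain ⟨⟨z₀, h2, h3⟩, _⟩ := h1
        exact h2 ((pow_eq_zero_iff hn0.ne').1 h3)
    · rintro (β | z) (β' | z') i j i' j' hij hij' hl1 hl2 hcl
      · rw [hL1, hL1] at hl1 hl2
        rw [hX1, hX1] at hcl
        obtain ⟨h1, h2⟩ := hU β β' i j i' j' hij hij' hl1 hl2 hcl
        subst h1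
        refine ⟨rfl, ?_⟩
        rw [hX1, hL1]
        rcases h2 with ⟨h2, h3⟩ | ⟨h2, h3⟩
        · exact ⟨1, one_pow _, fun l => ⟨l, by rw [one_mul], rfl⟩,
            fun l => ⟨l, by rw [one_mul], rfl⟩, by rw [h2, one_mul], by rw [h3, one_mul]⟩
        · refine ⟨-1, heven.neg_one_pow, fun l => ⟨Fin.rev l, ?_, LS_rev β l⟩,
            fun l => ⟨Fin.rev l, ?_, LS_rev β l⟩, ?_, ?_⟩
          · rw [XS_rev, neg_one_mul]
          · rw [XS_rev, neg_one_mul, neg_neg]
          · rw [h2, XS_rev, neg_one_mul]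
          · rw [h3, XS_rev, neg_one_mul]
      · exfalso
        rw [hL1, hL2] at hl1 hl2
        rw [hX1, hX2] at hcl
        have h1 := hycls z' i' j' hij'
        rw [← hcl, ← hl1, ← hl2] at h1
        have hroles : rol i ≠ rol j := by
          intro h
          apply hij'
          apply hlabinj z'.1
          rw [← hl1, ← hl2]
          unfold LS
          rw [h]
        exact (mem_sdiff.1 h1).2 (mem_Uset.2 ⟨β, i, j, hroles, rfl, rfl, rfl⟩)
      · exfalso
        rw [hL1, hL2] at hl1 hl2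
        rw [hX1, hX2] at hcl
        have h1 := hycls z i j hij
        rw [hcl, hl1, hl2] at h1
        have hroles : rol i' ≠ rol j' := by
          intro h
          apply hij
          apply hlabinj z.1
          rw [hl1, hl2]
          unfold LS
          rw [h]
        exact (mem_sdiff.1 h1).2 (mem_Uset.2 ⟨β', i', j', hroles, rfl, rfl, rfl⟩)
      · rw [hL2, hL2] at hl1 hl2
        rw [hX2, hX2] at hcl
        have hne : lab z.1 i ≠ lab z.1 j := fun h => hij (hlabinj z.1 h)
        have hB : z.1 = z'.1 := by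
          apply Subtype.ext
          apply h𝒱.uniq _ z.1.2 _ z'.1.2 (lab z.1 i) (lab z.1 j) hne
          · exact (hlabmem z.1 _).2 ⟨i, rfl⟩
          · exact (hlabmem z.1 _).2 ⟨j, rfl⟩
          · rw [hl1]; exact (hlabmem z'.1 _).2 ⟨i', rfl⟩
          · rw [hl2]; exact (hlabmem z'.1 _).2 ⟨j', rfl⟩
        have hi : i' = i := by
          apply hlabinj z'.1
          rw [← hl1, hB]
        have hj : j' = j := by
          apply hlabinj z'.1
          rw [← hl2, hB]
        have hl : z.2 = z'.2 := by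
          rw [hy z i j hij, hy z' i' j' hij', hi, hj, ← hB] at hcl
          exact (hν _ (hcardS _ _ hne)).1 hcl
        have hz : z = z' := Prod.ext hB hl
        subst hz
        refine ⟨rfl, 1, one_pow _, fun l => ⟨l, by rw [one_mul], rfl⟩,
            fun l => ⟨l, by rw [one_mul], rfl⟩, by rw [hi, one_mul], by rw [hj, one_mul]⟩
    · intro a b z hz
      by_cases hab : a = b
      · subst hab
        have h2 : (2 : ZMod q) ≠ 0 := two_ne_zero' hq2
        obtain ⟨u, r, hr, hEr⟩ := hE3 (z / 2) (div_ne_zero hz h2)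
        have hr' : r < k := by omega
        refine ⟨Sum.inl (u, a * ((u⁻¹ : (ZMod w)ˣ) : ZMod w) - r), ⟨r, hr'⟩, Fin.rev ⟨r, hr'⟩,
          ?_, ?_, ?_, ?_⟩
        · refine (rev_ne_of_lt ?_).symm
          unfold rol
          exact lt_of_le_of_lt (min_le_left _ _) hr
        · rw [hL1]
          have : rol (⟨r, hr'⟩ : Fin k) = r := by
            unfold rol
            simp only
            omega
          unfold LS
          rw [this]
          unfold slab
          simp only
          rw [sub_add_cancel, mul_comm a, ← mul_assoc, Units.mul_inv, one_mul]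
        · rw [hL1, LS_rev]
          have : rol (⟨r, hr'⟩ : Fin k) = r := by
            unfold rol
            simp only
            omega
          unfold LS
          rw [this]
          unfold slab
          simp only
          rw [sub_add_cancel, mul_comm a, ← mul_assoc, Units.mul_inv, one_mul]
        · rw [hX1]
          have h3 : rol (⟨r, hr'⟩ : Fin k) = r := by
            unfold rol
            simp only
            omega
          have h4 := (cls_same heven x (u, a * ((u⁻¹ : (ZMod w)ˣ) : ZMod w) - r)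
            (i := ⟨r, hr'⟩) (j := Fin.rev ⟨r, hr'⟩) (rev_ne_of_lt (by rw [h3]; exact hr)).symm
            (rol_rev _).symm).2.2
          rw [h4, h3, P1 _ _ hr]
          simp only
          rw [hEr, ← mul_pow]
          congr 1
          field_simp
      · by_cases hc : z ^ n ∈ Uset k n x a b
        · obtain ⟨β, i, j, h1, h2, h3, h4⟩ := mem_Uset.1 hc
          exact ⟨Sum.inl β, i, j, fun h => h1 (by rw [h]), h2, h3, h4⟩
        · have h1 : z ^ n ∈ K \ Uset k n x a b :=
            mem_sdiff.2 ⟨(hKmem _).2 ⟨z, hz, rfl⟩, hc⟩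
          obtain ⟨l, hl⟩ := ((hν _ (hcardS a b hab)).2 _).1 h1
          obtain ⟨B, hB, ha, hb⟩ := h𝒱.ex a b hab
          obtain ⟨i, hi⟩ := (hlabmem ⟨B, hB⟩ a).1 ha
          obtain ⟨j, hj⟩ := (hlabmem ⟨B, hB⟩ b).1 hb
          have hij : i ≠ j := by
            rintro rfl
            exact hab (hi.symm.trans hj)
          refine ⟨Sum.inr (⟨B, hB⟩, l), i, j, hij, hi, hj, ?_⟩
          rw [hX2, hy _ i j hij]
          simp only
          rw [hi, hj, hl]
  · intro a b ha B hB
    apply dev_aff hB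
    rw [hndef, mul_comm 2 e, mul_assoc, pow_mul, ha, one_pow]

end Pool.Agent.H59.Des
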