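import Pool.Agent.H59.Des.Union
import Pool.Agent.H59.Des.GDD

/-!
# Every finite group is the automorphism group of a design of block size `k`
-/

open Finset
open scoped Pointwise

namespace Pool.Agent.H59.Des

universe u

/-- The regular representation with multiplicity. -/
def Reg (G F : Type*) (n : ℕ) : Type _ := G → Fin n → F

section reg

variable {G F : Type*} {n : ℕ} [Group G] [Field F]

instance instAddReg : AddCommGroup (Reg G F n) := inferInstanceAs (AddCommGroup (G → Fin n → F))

instance instModReg : Module F (Reg G F n) := inferInstanceAs (Module F (G → Fin n → F))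

instance instDecReg [Fintype G] [DecidableEq F] : DecidableEq (Reg G F n) :=
  inferInstanceAs (DecidableEq (G → Fin n → F))

instance instFinReg [Fintype G] [DecidableEq G] [Fintype F] : Fintype (Reg G F n) :=
  inferInstanceAs (Fintype (G → Fin n → F))

lemma card_Reg [Fintype G] [DecidableEq G] [Fintype F] :
    Fintype.card (Reg G F n) = Fintype.card F ^ (n * Fintype.card G) := by
  have h : Fintype.card (Reg G F n) = Fintype.card (G → Fin n → F) := rfl
  rw [h, Fintype.card_fun, Fintype.card_fun, Fintype.card_fin, ← pow_mul]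

instance instActReg : DistribMulAction G (Reg G F n) where
  smul g x := fun h => x (g⁻¹ * h)
  one_smul x := by
    funext h
    change x ((1 : G)⁻¹ * h) = x h
    rw [inv_one, one_mul]
  mul_smul a b x := by
    funext h
    change x ((a * b)⁻¹ * h) = x (b⁻¹ * (a⁻¹ * h))
    rw [mul_inv_rev, mul_assoc]
  smul_zero _ := rfl
  smul_add _ _ _ := rfl

lemma reg_smul_apply (g : G) (x : Reg G F n) (h : G) : (g • x) h = x (g⁻¹ * h) := rfl

instance instCommReg : SMulCommClass G F (Reg G F n) where
  smul_comm _ _ _ := rfl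

lemma card_fix_reg [Fintype G] [DecidableEq G] [Fintype F] [DecidableEq F] {g : G} (hg : g ≠ 1) :
    ((univ : Finset (Reg G F n)).filter (fun x => g • x = x)).card * Fintype.card F ^ n
      ≤ Fintype.card (Reg G F n) := by
  have h1 : Fintype.card F ^ n = (univ : Finset (Fin n → F)).card := by
    rw [card_univ, Fintype.card_fun, Fintype.card_fin]
  rw [h1, ← card_product, ← card_univ (α := Reg G F n)]
  apply card_le_card_of_injOn (fun z => (Function.update z.1 1 z.2 : G → Fin n → F))
  · intro z _
    exact mem_univ _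
  · intro z hz z' hz' h
    rw [mem_coe, mem_product, mem_filter] at hz hz'
    have e1 : z.2 = z'.2 := by
      have := congrFun h 1
      simpa using this
    have e2 : ∀ a : G, a ≠ 1 → z.1 a = z'.1 a := by
      intro a ha
      have := congrFun h a
      simpa [Function.update_of_ne ha] using this
    have e3 : z.1 1 = z.1 g := by
      have := congrFun hz.1.2 g
      rw [reg_smul_apply, inv_mul_cancel] at this
      exact this
    have e4 : z'.1 1 = z'.1 g := by
      have := congrFun hz'.1.2 g
      rw [reg_smul_apply, inv_mul_cancel] at this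
      exact this
    refine Prod.ext ?_ e1
    funext a
    by_cases ha : a = 1
    · rw [ha, e3, e4, e2 g hg]
    · exact e2 a ha

end reg

section numeric

lemma bern (M n : ℕ) : M ^ n * (M + n) ≤ M * (M + 1) ^ n := by
  induction n with
  | zero => simp
  | succ n ih =>
    calc M ^ (n + 1) * (M + (n + 1)) = M ^ n * (M * (M + n) + M) := by ring
      _ ≤ M ^ n * (M * (M + n) + (M + n)) := by
          apply Nat.mul_le_mul_left
          omega
      _ = (M + 1) * (M ^ n * (M + n)) := by ring
      _ ≤ (M + 1) * (M * (M + 1) ^ n) := Nat.mul_le_mul_left _ ih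
      _ = _ := by ring

lemma two_mul_pow_le {M : ℕ} (hM : 0 < M) : 2 * M ^ M ≤ (M + 1) ^ M := by
  have h := bern M M
  have h2 : M * (2 * M ^ M) ≤ M * (M + 1) ^ M := by
    calc M * (2 * M ^ M) = M ^ M * (M + M) := by ring
      _ ≤ _ := h
  exact Nat.le_of_mul_le_mul_left h2 hM

lemma two_pow_mul_le {M : ℕ} (hM : 0 < M) (s : ℕ) : 2 ^ (s / M) * M ^ s ≤ (M + 1) ^ s := by
  have h1 : s = M * (s / M) + s % M := (Nat.div_add_mod s M).symm
  set t := s / M with ht
  set r := s % M with hr
  rw [h1, pow_add, pow_add, pow_mul, pow_mul]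
  calc 2 ^ t * ((M ^ M) ^ t * M ^ r) = (2 * M ^ M) ^ t * M ^ r := by rw [mul_pow]; ring
    _ ≤ ((M + 1) ^ M) ^ t * (M + 1) ^ r :=
      Nat.mul_le_mul (Nat.pow_le_pow_left (two_mul_pow_le hM) t)
        (Nat.pow_le_pow_left (Nat.le_succ M) r)

lemma sq_le_two_pow {b : ℕ} (hb : 4 ≤ b) : b * b ≤ 2 ^ b := by
  induction b, hb using Nat.le_induction with
  | base => norm_num
  | succ b hb ih =>
    rw [pow_succ]
    nlinarith

/-- The final numerical inequality. -/
lemma numeric {q w C M b a : ℕ} (hw : 0 < w) (hC : 0 < C) (hM : 0 < M)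
    (hb : 32 * C * M * ((q + w) * w + 1) ≤ b) (ha : a = q ^ b) (hq : 2 ≤ q) {s : ℕ}
    (hs : a * a / (16 * C) < 2 * s) :
    (a * w).factorial * M ^ s < (M + 1) ^ s := by
  have hb1 : 32 ≤ 32 * C * M * ((q + w) * w + 1) := by
    have : 0 < C * M * ((q + w) * w + 1) := by positivity
    nlinarith
  have hb4 : 32 ≤ b := le_trans hb1 hb
  have ha2 : b * b ≤ a := by
    rw [ha]
    exact (sq_le_two_pow (by omega)).trans (Nat.pow_le_pow_left hq b)
  have ha0 : 0 < a := lt_of_lt_of_le (by positivity) ha2
  have hs' : a * a < 32 * C * s := by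
    have h := (Nat.div_lt_iff_lt_mul (by positivity)).1 hs
    calc a * a < 2 * s * (16 * C) := h
      _ = 32 * C * s := by ring
  set u := q * b + w with hu
  have hv : a * w ≤ 2 ^ u := by
    rw [ha, hu, pow_add, pow_mul]
    exact Nat.mul_le_mul (Nat.pow_le_pow_left (Nat.lt_two_pow_self).le b) (Nat.lt_two_pow_self).le
  have hkey : u * (a * w) < s / M := by
    rw [Nat.lt_iff_add_one_le, Nat.le_div_iff_mul_le hM]
    have h1 : 32 * C * ((u * (a * w) + 1) * M) ≤ a * a := by
      have h2 : u * w + 1 ≤ ((q + w) * w + 1) * b := by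
        rw [hu]
        have : 1 ≤ b := by omega
        nlinarith [Nat.mul_le_mul_left (w * w) this]
      have h3 : u * (a * w) + 1 ≤ (u * w + 1) * a := by nlinarith
      calc 32 * C * ((u * (a * w) + 1) * M) ≤ 32 * C * (((u * w + 1) * a) * M) := by
            apply Nat.mul_le_mul_left
            exact Nat.mul_le_mul_right _ h3
        _ ≤ 32 * C * (((((q + w) * w + 1) * b) * a) * M) := by
            apply Nat.mul_le_mul_left
            apply Nat.mul_le_mul_right
            exact Nat.mul_le_mul_right _ h2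
        _ = (32 * C * M * ((q + w) * w + 1)) * b * a := by ring
        _ ≤ b * b * a := by
            apply Nat.mul_le_mul_right
            exact Nat.mul_le_mul_right _ hb
        _ ≤ a * a := Nat.mul_le_mul_right _ ha2
    have h4 : 32 * C * ((u * (a * w) + 1) * M) < 32 * C * s := lt_of_le_of_lt h1 hs'
    exact (lt_of_mul_lt_mul_left h4 (Nat.zero_le _)).le
  have hfac : (a * w).factorial < 2 ^ (s / M) := by
    calc (a * w).factorial ≤ (a * w) ^ (a * w) := Nat.factorial_le_pow _
      _ ≤ (2 ^ u) ^ (a * w) := Nat.pow_le_pow_left hv _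
      _ = 2 ^ (u * (a * w)) := by rw [← pow_mul]
      _ < 2 ^ (s / M) := Nat.pow_lt_pow_right (by norm_num) hkey
  calc (a * w).factorial * M ^ s < 2 ^ (s / M) * M ^ s :=
        Nat.mul_lt_mul_of_pos_right hfac (by positivity)
    _ ≤ _ := two_pow_mul_le hM s

end numeric

theorem exists_design (k : ℕ) (hk : 3 ≤ k) (G : Type u) [Group G] [Finite G] :
    ∃ (P : Type u) (_ : Fintype P) (_ : DecidableEq P) (D : Finset (Finset P))
      (φ : G →* Equiv.Perm P), k < Fintype.card P ∧ IsDes k D ∧ Function.Injective φ ∧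
      ∀ τ : Equiv.Perm P, τ • D = D ↔ ∃ g, τ = φ g := by
  classical
  have : Fintype G := Fintype.ofFinite G
  obtain ⟨w, hw1, hwp, 𝒱, h𝒱⟩ := exists_base_design k (by omega)
    (32 * (k / 2) ^ 2 * (k / 2 + 1) + 5)
  have : Fact w.Prime := ⟨hwp⟩
  obtain ⟨q, hqF, hq5, D₀, hD₀, hinv⟩ := exists_gdd hk (w := w) (by omega) 𝒱 h𝒱
    (Fintype.card G) Fintype.card_pos 5
  set C := Fintype.card G * (q * q) with hC
  set M := 2 ^ (2 ^ (q * w)) with hM
  have hC0 : 0 < C := by
    have : 0 < Fintype.card G := Fintype.card_pos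
    have : 0 < q := by omega
    positivity
  have hM0 : 0 < M := by positivity
  have hw0 : 0 < w := hwp.pos
  set n := 32 * C * M * ((q + w) * w + 1) with hn
  set b := n * Fintype.card G with hb
  have hnb : n ≤ b := Nat.le_mul_of_pos_right _ Fintype.card_pos
  let V := Reg G (ZMod q) n
  have hFc : Fintype.card (ZMod q) = q := ZMod.card q
  have hJc : Fintype.card (ZMod w) = w := ZMod.card w
  obtain ⟨a, ha⟩ : ∃ a, Fintype.card V = a := ⟨_, rfl⟩
  have hVc : a = q ^ b := by
    have h := card_Reg (G := G) (F := ZMod q) (n := n)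
    rw [hFc] at h
    exact ha.symm.trans h
  have hn32 : 32 * C ≤ n := by
    have h1 : 0 < M * ((q + w) * w + 1) := by positivity
    calc 32 * C = 32 * C * 1 := by ring
      _ ≤ 32 * C * (M * ((q + w) * w + 1)) := Nat.mul_le_mul_left _ h1
      _ = n := by rw [hn]; ring
  have hqn : 32 * C ≤ q ^ n := by
    calc 32 * C ≤ n := hn32
      _ ≤ 2 ^ n := (Nat.lt_two_pow_self).le
      _ ≤ q ^ n := Nat.pow_le_pow_left (by omega) n
  have hV32 : 32 * C ≤ a := by
    rw [hVc]
    exact hqn.trans (Nat.pow_le_pow_right (by omega) hnb)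
  set Φ := a / q ^ n with hΦdef
  have hΦ : ∀ g : G, g ≠ 1 → ((univ : Finset V).filter (fun x => g • x = x)).card ≤ Φ := by
    intro g hg
    rw [hΦdef, Nat.le_div_iff_mul_le (by positivity)]
    have h := card_fix_reg (G := G) (F := ZMod q) (n := n) hg
    rw [hFc] at h
    exact h.trans (le_of_eq ha)
  have hk1 : k < w := by
    have h1 : 0 < k / 2 := by omega
    have h2 : k / 2 ≤ 32 * (k / 2) ^ 2 * (k / 2 + 1) := by
      have : 0 < (k / 2) * (k / 2 + 1) := by positivity
      nlinarith
    have h3 : k / 2 + 2 ≤ 32 * (k / 2) ^ 2 * (k / 2 + 1) := by nlinarith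
    nlinarith [Nat.div_add_mod k 2, Nat.mod_lt k (y := 2) (by norm_num)]
  have haw : w ≤ a * w := Nat.le_mul_of_pos_left _ (by omega)
  have h2k : 2 * k ≤ a * w := by
    calc 2 * k ≤ a * k := Nat.mul_le_mul_right _ (by omega)
      _ ≤ a * w := Nat.mul_le_mul_left _ hk1.le
  obtain ⟨y, hy⟩ := exists_rigid (F := ZMod q) (V := V) (J := ZMod w) (G := G) hk
    (by rw [hJc]; omega) (by rw [hFc]; omega) h𝒱
    (fun L => exists_inv_gdd hD₀ hinv L) hΦ (by rw [hJc, ha]; exact h2k)
    (a * a / (16 * C)) (M + 1) (by omega) (by rw [hFc, hJc, ← hM]; omega)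
    (by
      rw [hFc, ha]
      have e1 : Fintype.card G * (q * q) * (Φ * a) * 32 ≤ a * a := by
        calc Fintype.card G * (q * q) * (Φ * a) * 32 = (32 * C) * Φ * a := by rw [hC]; ring
          _ ≤ q ^ n * Φ * a := Nat.mul_le_mul_right _ (Nat.mul_le_mul_right _ hqn)
          _ = (a / q ^ n * q ^ n) * a := by rw [hΦdef]; ring
          _ ≤ a * a := Nat.mul_le_mul_right _ (Nat.div_mul_le_self _ _)
      have e2 : a * a / (16 * C) * Fintype.card G * (q * q) * 16 ≤ a * a := by
        calc a * a / (16 * C) * Fintype.card G * (q * q) * 16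
            = a * a / (16 * C) * (16 * C) := by rw [hC]; ring
          _ ≤ a * a := Nat.div_mul_le_self _ _
      have e3 : 32 * a ≤ a * a := Nat.mul_le_mul_right _ (by omega)
      have e4 : 0 < a * a := by
        have : 0 < a := by omega
        positivity
      omega)
    (by
      intro s hs
      rw [hJc, ha, Nat.add_sub_cancel]
      exact numeric hw0 hC0 hM0 hnb hVc (by omega) hs)
  let φ : G →* Equiv.Perm (Pt V (ZMod w)) := {
    toFun := fun g => gam g
    map_one' := gam_one
    map_mul' := gam_mul }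
  refine ⟨Pt V (ZMod w), inferInstance, inferInstance, desOf 𝒱 (fam y), φ, ?_,
    isDes_desOf h𝒱 (fam_isGDD y), ?_, ?_⟩
  · rw [card_Pt, hJc, ha]
    exact lt_of_lt_of_le hk1 haw
  · rw [injective_iff_map_eq_one]
    intro g hg
    by_contra hne
    have h1 := hΦ g hne
    have h2 : (univ : Finset V).filter (fun x => g • x = x) = univ := by
      ext x
      rw [mem_filter]
      refine ⟨fun h => h.1, fun h => ⟨h, ?_⟩⟩
      have h3 : (gam g : Equiv.Perm (Pt V (ZMod w))) ⟨x, 0⟩ = ⟨x, 0⟩ := by
        have h4 : (gam g : Equiv.Perm (Pt V (ZMod w))) = 1 := hg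
        rw [h4]
        rfl
      exact congrArg Pt.pos h3
    rw [h2, card_univ, ha, hΦdef] at h1
    have h5 : a / q ^ n < a := Nat.div_lt_self (by omega) (by omega)
    omega
  · intro τ
    constructor
    · intro h
      exact hy τ h
    · rintro ⟨g, rfl⟩
      exact desOf_invariant (fun g L => fam_smul y g L) g

end Pool.Agent.H59.Des
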