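import Pool.Agent.H59.Des.Basic

/-!
# Lines of a finite vector space, and a group acting linearly on it
-/

open Finset
open scoped Pointwise

namespace Pool.Agent.H59.Des

section lines

variable {F V : Type*} [Field F] [Fintype F] [AddCommGroup V] [Module F V] [DecidableEq V]

/-- The line through `x` with direction `d`. -/
def ln (F : Type*) {V : Type*} [Field F] [Fintype F] [AddCommGroup V] [Module F V]
    [DecidableEq V] (x d : V) : Finset V :=
  (univ : Finset F).image (fun t : F => x + t • d)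

lemma mem_ln {x d y : V} : y ∈ ln F x d ↔ ∃ t : F, x + t • d = y := by
  unfold ln
  rw [mem_image]
  simp

lemma card_ln {x d : V} (hd : d ≠ 0) : (ln F x d).card = Fintype.card F := by
  unfold ln
  rw [card_image_of_injective, card_univ]
  intro s t h
  exact smul_left_injective F hd (add_left_cancel h)

lemma ln_eq_of_mem {x d y z : V} (hy : y ∈ ln F x d) (hz : z ∈ ln F x d) (hyz : y ≠ z) :
    ln F x d = ln F y (z - y) := by
  obtain ⟨s, rfl⟩ := mem_ln.1 hy
  obtain ⟨t, rfl⟩ := mem_ln.1 hz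
  have hst : t - s ≠ 0 := by
    intro h
    exact hyz (by rw [sub_eq_zero.1 h])
  have h1 : x + t • d - (x + s • d) = (t - s) • d := by rw [sub_smul]; abel
  ext v
  rw [mem_ln, mem_ln, h1]
  constructor
  · rintro ⟨u, rfl⟩
    refine ⟨(u - s) / (t - s), ?_⟩
    rw [smul_smul, div_mul_cancel₀ _ hst, sub_smul]
    abel
  · rintro ⟨u, rfl⟩
    refine ⟨s + u * (t - s), ?_⟩
    rw [smul_smul, add_smul]
    abel

/-- Being a line. -/
def IsLn (F : Type*) {V : Type*} [Field F] [Fintype F] [AddCommGroup V] [Module F V]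
    [DecidableEq V] (L : Finset V) : Prop := ∃ x d : V, d ≠ 0 ∧ L = ln F x d

/-- The type of lines. -/
structure Lin (F V : Type*) [Field F] [Fintype F] [AddCommGroup V] [Module F V]
    [DecidableEq V] where
  /-- the points of the line -/
  pts : Finset V
  /-- it is a line -/
  isLn : IsLn F pts

lemma Lin.card (L : Lin F V) : L.1.card = Fintype.card F := by
  obtain ⟨x, d, hd, h⟩ := L.2
  rw [h, card_ln hd]

lemma Lin.ext' {L L' : Lin F V} (h : L.1 = L'.1) : L = L' := by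
  cases L
  cases L'
  simp only at h
  subst h
  rfl

lemma Lin.eq_ln {L : Lin F V} {x y : V} (hxy : x ≠ y) (hx : x ∈ L.1) (hy : y ∈ L.1) :
    L.1 = ln F x (y - x) := by
  obtain ⟨x₀, d, hd, h⟩ := L.2
  rw [h] at hx hy ⊢
  exact ln_eq_of_mem hx hy hxy

lemma Lin.eq_of_mem {L L' : Lin F V} {x y : V} (hxy : x ≠ y) (hx : x ∈ L.1) (hy : y ∈ L.1)
    (hx' : x ∈ L'.1) (hy' : y ∈ L'.1) : L = L' :=
  Lin.ext' (by rw [Lin.eq_ln hxy hx hy, Lin.eq_ln hxy hx' hy'])

/-- The line through two points. -/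
def thr (F : Type*) {V : Type*} [Field F] [Fintype F] [AddCommGroup V] [Module F V]
    [DecidableEq V] (x y : V) (h : x ≠ y) : Lin F V :=
  ⟨ln F x (y - x), x, y - x, sub_ne_zero.2 h.symm, rfl⟩

lemma left_mem_thr {x y : V} (h : x ≠ y) : x ∈ (thr F x y h).1 :=
  mem_ln.2 ⟨0, by rw [zero_smul, add_zero]⟩

lemma right_mem_thr {x y : V} (h : x ≠ y) : y ∈ (thr F x y h).1 :=
  mem_ln.2 ⟨1, by rw [one_smul, add_sub_cancel]⟩

end lines

section action

variable {F V : Type*} [Field F] [Fintype F] [AddCommGroup V] [Module F V] [DecidableEq V]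
  {G : Type*} [Group G] [DistribMulAction G V] [SMulCommClass G F V]

lemma smul_ln (g : G) (x d : V) : g • ln F x d = ln F (g • x) (g • d) := by
  ext y
  rw [mem_smul_finset, mem_ln]
  constructor
  · rintro ⟨z, hz, rfl⟩
    obtain ⟨t, rfl⟩ := mem_ln.1 hz
    exact ⟨t, by rw [smul_add, smul_comm g t d]⟩
  · rintro ⟨t, rfl⟩
    exact ⟨x + t • d, mem_ln.2 ⟨t, rfl⟩, by rw [smul_add, smul_comm g t d]⟩

instance instActLin : MulAction G (Lin F V) where
  smul g L := ⟨g • L.1, by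
    obtain ⟨x, d, hd, h⟩ := L.2
    refine ⟨g • x, g • d, ?_, by rw [h, smul_ln]⟩
    intro h0
    exact hd ((smul_eq_zero_iff_eq g).1 h0)⟩
  one_smul L := Lin.ext' (one_smul G L.1)
  mul_smul g h L := Lin.ext' (mul_smul g h L.1)

lemma Lin.smul_val (g : G) (L : Lin F V) : (g • L).1 = g • L.1 := rfl

lemma Lin.smul_mem (g : G) (L : Lin F V) {x : V} : g • x ∈ (g • L).1 ↔ x ∈ L.1 := by
  rw [Lin.smul_val]
  exact smul_mem_smul_finset_iff g

lemma Lin.mem_smul (g : G) (L : Lin F V) {x : V} : x ∈ (g • L).1 ↔ g⁻¹ • x ∈ L.1 := by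
  have h := Lin.smul_mem g L (x := g⁻¹ • x)
  rwa [smul_inv_smul] at h

end action

section ptaction

variable {V G J : Type*} [Group G] [MulAction G V]

instance instActPt : MulAction G (Pt V J) where
  smul g p := ⟨g • p.pos, p.lab⟩
  one_smul p := Pt.ext (one_smul G p.pos) rfl
  mul_smul g h p := Pt.ext (mul_smul g h p.pos) rfl

/-- The permutation of the points induced by a group element. -/
def gam (g : G) : Equiv.Perm (Pt V J) := MulAction.toPerm g

lemma gam_pos (g : G) (p : Pt V J) : (gam g p).pos = g • p.pos := rfl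

lemma gam_lab (g : G) (p : Pt V J) : (gam g p).lab = p.lab := rfl

lemma gam_mul (g h : G) : (gam (g * h) : Equiv.Perm (Pt V J)) = gam g * gam h := by
  ext1 p
  exact mul_smul g h p

lemma gam_one : (gam (1 : G) : Equiv.Perm (Pt V J)) = 1 := by
  ext1 p
  exact one_smul G p

lemma gam_inv (g : G) : (gam g⁻¹ : Equiv.Perm (Pt V J)) = (gam g)⁻¹ := by
  rw [eq_inv_iff_mul_eq_one, ← gam_mul, inv_mul_cancel, gam_one]

end ptaction

lemma perm_apply_inv {α : Type*} (σ : Equiv.Perm α) (x : α) : σ (σ⁻¹ x) = x :=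
  σ.apply_symm_apply x

lemma perm_inv_apply {α : Type*} (σ : Equiv.Perm α) (x : α) : σ⁻¹ (σ x) = x :=
  σ.symm_apply_apply x

section transport

variable {V J V' J' : Type*} [DecidableEq V'] [DecidableEq J'] {k : ℕ}

theorem IsGDD.map {L : Finset V} {L' : Finset V'} {D : Finset (Finset (Pt V J))}
    (hD : IsGDD k L D) (Φ : Pt V J → Pt V' J') (hinj : Function.Injective Φ)
    (h1 : ∀ p, p.pos ∈ L → (Φ p).pos ∈ L')
    (h2 : ∀ p', p'.pos ∈ L' → ∃ p, p.pos ∈ L ∧ Φ p = p')
    (h3 : ∀ p r, p.pos ∈ L → r.pos ∈ L → (p.pos = r.pos ↔ (Φ p).pos = (Φ r).pos)) :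
    IsGDD k L' (D.image (fun B => B.image Φ)) := by
  refine ⟨?_, ?_, ?_, ?_, ?_⟩
  · intro B' hB'
    obtain ⟨B, hB, rfl⟩ := mem_image.1 hB'
    rw [card_image_of_injective _ hinj, hD.card_eq B hB]
  · intro B' hB' p' hp'
    obtain ⟨B, hB, rfl⟩ := mem_image.1 hB'
    obtain ⟨p, hp, rfl⟩ := mem_image.1 hp'
    exact h1 p (hD.sub B hB p hp)
  · intro B' hB' p' hp' r' hr' hpr
    obtain ⟨B, hB, rfl⟩ := mem_image.1 hB'
    obtain ⟨p, hp, rfl⟩ := mem_image.1 hp'
    obtain ⟨r, hr, rfl⟩ := mem_image.1 hr'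
    rw [hD.inj B hB p hp r hr ((h3 p r (hD.sub B hB p hp) (hD.sub B hB r hr)).2 hpr)]
  · intro p' r' hp' hr' hpr
    obtain ⟨p, hp, rfl⟩ := h2 p' hp'
    obtain ⟨r, hr, rfl⟩ := h2 r' hr'
    obtain ⟨B, hB, h4, h5⟩ := hD.ex p r hp hr (fun h => hpr ((h3 p r hp hr).1 h))
    exact ⟨B.image Φ, mem_image_of_mem _ hB, mem_image_of_mem _ h4, mem_image_of_mem _ h5⟩
  · intro B₁' hB₁' B₂' hB₂' p' r' hpr hp₁ hr₁ hp₂ hr₂
    obtain ⟨B₁, hB₁, rfl⟩ := mem_image.1 hB₁'
    obtain ⟨B₂, hB₂, rfl⟩ := mem_image.1 hB₂'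
    obtain ⟨p, hp, rfl⟩ := mem_image.1 hp₁
    obtain ⟨r, hr, rfl⟩ := mem_image.1 hr₁
    obtain ⟨p2, hp2, e1⟩ := mem_image.1 hp₂
    obtain ⟨r2, hr2, e2⟩ := mem_image.1 hr₂
    rw [hinj e1] at hp2
    rw [hinj e2] at hr2
    rw [hD.uniq B₁ hB₁ B₂ hB₂ p r (fun h => hpr (by rw [h])) hp hr hp2 hr2]

variable [DecidableEq V] [DecidableEq J]

theorem IsGDD.smul {L L' : Finset V} {D : Finset (Finset (Pt V J))}
    (hD : IsGDD k L D) (σ : Equiv.Perm (Pt V J))
    (h1 : ∀ p, p.pos ∈ L ↔ (σ p).pos ∈ L')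
    (h3 : ∀ p r, p.pos ∈ L → r.pos ∈ L → (p.pos = r.pos ↔ (σ p).pos = (σ r).pos)) :
    IsGDD k L' (σ • D) := by
  have h := hD.map (L' := L') (fun p => σ p) σ.injective (fun p => (h1 p).1) (by
    intro p' hp'
    refine ⟨σ⁻¹ p', ?_, ?_⟩
    · rw [h1, perm_apply_inv]
      exact hp'
    · exact perm_apply_inv σ p') h3
  exact h

end transport

section inv

variable {F V J : Type*} [Field F] [Fintype F] [AddCommGroup V] [Module F V] [DecidableEq V]
  [DecidableEq J] {G : Type*} [Group G] [DistribMulAction G V] [SMulCommClass G F V] {k : ℕ}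

lemma IsGDD.gsmul {L : Lin F V} {D : Finset (Finset (Pt V J))} (hD : IsGDD k L.1 D) (g : G) :
    IsGDD k (g • L).1 ((Des.gam g : Equiv.Perm (Pt V J)) • D) := by
  apply hD.smul
  · intro p
    rw [gam_pos, Lin.smul_mem]
  · intro p r _ _
    rw [gam_pos, gam_pos, smul_left_cancel_iff]

theorem exists_inv_gdd [Fintype G] [DecidableEq F] {D : Finset (Finset (Pt F J))}
    (hD : IsGDD k univ D)
    (hinv : ∀ a b : F, a ^ (Fintype.card G) = 1 → ∀ B ∈ D, B.image (aff a b) ∈ D)
    (L : Lin F V) : ∃ D' : Finset (Finset (Pt V J)), IsGDD k L.1 D' ∧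
      ∀ g : G, g • L = L → (Des.gam g : Equiv.Perm (Pt V J)) • D' = D' := by
  obtain ⟨x, d, hd, hL⟩ := L.2
  let Φ : Pt F J → Pt V J := fun p => ⟨x + p.pos • d, p.lab⟩
  have hΦpos : ∀ p, (Φ p).pos = x + p.pos • d := fun _ => rfl
  have hpos : ∀ p r : Pt F J, p.pos = r.pos ↔ (Φ p).pos = (Φ r).pos := by
    intro p r
    constructor
    · intro h
      rw [hΦpos, hΦpos, h]
    · intro h
      exact smul_left_injective F hd (add_left_cancel h)
  have hinj : Function.Injective Φ := by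
    intro p r h
    refine Pt.ext ((hpos p r).2 (congrArg Pt.pos h)) ?_
    have h2 : (Φ p).lab = (Φ r).lab := by rw [h]
    exact h2
  have hD' : IsGDD k L.1 (D.image (fun B => B.image Φ)) := by
    apply hD.map Φ hinj
    · intro p _
      rw [hL, hΦpos]
      exact mem_ln.2 ⟨_, rfl⟩
    · intro p' hp'
      rw [hL, mem_ln] at hp'
      obtain ⟨t, ht⟩ := hp'
      exact ⟨⟨t, p'.lab⟩, mem_univ _, Pt.ext ht rfl⟩
    · intro p r _ _
      exact hpos p r
  refine ⟨_, hD', ?_⟩
  have key : ∀ g : G, g • L = L → (Des.gam g : Equiv.Perm (Pt V J)) •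
      (D.image (fun B => B.image Φ)) ⊆ D.image (fun B => B.image Φ) := by
    intro g hg
    have hx : x ∈ L.1 := by rw [hL]; exact mem_ln.2 ⟨0, by rw [zero_smul, add_zero]⟩
    have hxd : x + d ∈ L.1 := by rw [hL]; exact mem_ln.2 ⟨1, by rw [one_smul]⟩
    have h1 : g • x ∈ L.1 := by
      have := (Lin.smul_mem g L).2 hx
      rwa [hg] at this
    have h2 : g • (x + d) ∈ L.1 := by
      have := (Lin.smul_mem g L).2 hxd
      rwa [hg] at this
    rw [hL, mem_ln] at h1 h2
    obtain ⟨b, hb⟩ := h1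
    obtain ⟨c, hc⟩ := h2
    have hgd : g • d = (c - b) • d := by
      rw [smul_add, ← hb] at hc
      rw [sub_smul, eq_sub_iff_add_eq, add_comm]
      have : x + c • d = x + (b • d + g • d) := by rw [hc, add_assoc]
      exact (add_left_cancel this).symm
    have hpow : ∀ i : ℕ, (g ^ i) • d = ((c - b) ^ i) • d := by
      intro i
      induction i with
      | zero => rw [pow_zero, pow_zero, one_smul, one_smul]
      | succ i ih =>
        rw [pow_succ, mul_smul, hgd, smul_comm, ih, smul_smul, pow_succ, mul_comm]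
    have ha : (c - b) ^ (Fintype.card G) = 1 := by
      have h3 := hpow (Fintype.card G)
      rw [pow_card_eq_one, one_smul] at h3
      have h4 : (1 : F) • d = ((c - b) ^ Fintype.card G) • d := by rw [one_smul]; exact h3
      exact (smul_left_injective F hd h4).symm
    intro B' hB'
    rw [mem_smul_finset] at hB'
    obtain ⟨B'', hB'', rfl⟩ := hB'
    obtain ⟨B, hB, rfl⟩ := mem_image.1 hB''
    refine mem_image.2 ⟨B.image (aff (c - b) b), hinv _ _ ha B hB, ?_⟩
    have e1 : (Des.gam g : Equiv.Perm (Pt V J)) • B.image Φ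
        = (B.image Φ).image (fun p => Des.gam g p) := rfl
    rw [e1, image_image, image_image]
    apply image_congr
    intro p _
    refine Pt.ext ?_ rfl
    change x + ((c - b) * p.pos + b) • d = g • (x + p.pos • d)
    rw [smul_add, smul_comm, hgd, ← hb, smul_smul, add_smul, mul_comm]
    abel
  intro g hg
  refine eq_of_subset_of_card_le (key g hg) ?_
  rw [card_smul_finset]

end inv

end Pool.Agent.H59.Des
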