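import Mathlib

/-!
# Mixing lemma for cosets of `n`-th roots of unity in `ZMod p`
-/

open Finset

namespace Pool.Agent.H59.Des

variable {p : ℕ} [hp : Fact p.Prime]

/-- Fourier transform of the indicator function of `S`. -/
noncomputable def ft (S : Finset (ZMod p)) (a : ZMod p) : ℂ := ∑ x ∈ S, ZMod.stdAddChar (a * x)

lemma sum_char (b : ZMod p) :
    ∑ a : ZMod p, (ZMod.stdAddChar (a * b) : ℂ) = if b = 0 then (p : ℂ) else 0 := by
  have := AddChar.sum_mulShift (R := ZMod p) (R' := ℂ) b (ZMod.isPrimitive_stdAddChar p)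
  rw [this, ZMod.card]
  split_ifs <;> simp

lemma conj_char (x : ZMod p) :
    (starRingEnd ℂ) (ZMod.stdAddChar x : ℂ) = ZMod.stdAddChar (-x) :=
  (AddChar.map_neg_eq_conj _ _).symm

lemma conj_ft (S : Finset (ZMod p)) (a : ZMod p) :
    (starRingEnd ℂ) (ft S a) = ∑ x ∈ S, ZMod.stdAddChar (-(a * x)) := by
  simp only [ft, map_sum, conj_char]

lemma parseval (S : Finset (ZMod p)) : ∑ a, ‖ft S a‖ ^ 2 = (p : ℝ) * S.card := by
  have h : (∑ a, ft S a * (starRingEnd ℂ) (ft S a)) = (p : ℂ) * S.card := by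
    have h1 : ∀ a, ft S a * (starRingEnd ℂ) (ft S a)
        = ∑ x ∈ S, ∑ y ∈ S, (ZMod.stdAddChar (a * (x - y)) : ℂ) := by
      intro a
      rw [conj_ft, ft, sum_mul_sum]
      refine sum_congr rfl (fun x _ => sum_congr rfl (fun y _ => ?_))
      rw [← AddChar.map_add_eq_mul]
      congr 1
      ring
    simp_rw [h1]
    rw [sum_comm]
    have h2 : ∀ x ∈ S, ∑ a : ZMod p, ∑ y ∈ S, (ZMod.stdAddChar (a * (x - y)) : ℂ) = p := by
      intro x hx
      rw [sum_comm]
      simp_rw [sum_char, sub_eq_zero]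
      rw [sum_ite_eq S x, if_pos hx]
    rw [sum_congr rfl h2, sum_const, nsmul_eq_mul, mul_comm]
  have h3 : ∀ a, ft S a * (starRingEnd ℂ) (ft S a) = ((‖ft S a‖ ^ 2 : ℝ) : ℂ) := by
    intro a
    rw [Complex.mul_conj, Complex.normSq_eq_norm_sq]
  simp_rw [h3] at h
  exact_mod_cast h

/-- The class of elements whose `n`-th power is `κ`. -/
def Cls (n : ℕ) (κ : ZMod p) : Finset (ZMod p) := univ.filter (fun z => z ^ n = κ)

lemma mem_Cls {n : ℕ} {κ z : ZMod p} : z ∈ Cls n κ ↔ z ^ n = κ := by simp [Cls]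

lemma card_Cls_le {n : ℕ} (hn : 0 < n) (κ : ZMod p) : (Cls n κ).card ≤ n := by
  have h1 : Cls n κ ⊆ (Polynomial.nthRoots n κ).toFinset := by
    intro z hz
    rw [Multiset.mem_toFinset, Polynomial.mem_nthRoots hn]
    exact mem_Cls.1 hz
  calc (Cls n κ).card ≤ _ := card_le_card h1
    _ ≤ Multiset.card (Polynomial.nthRoots n κ) := Multiset.toFinset_card_le _
    _ ≤ n := Polynomial.card_nthRoots n κ

lemma ft_class_bound {n : ℕ} (hn : 0 < n) (h1 : (Cls n (1 : ZMod p)).card = n) (κ a : ZMod p)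
    (ha : a ≠ 0) : ‖ft (Cls n κ) a‖ ^ 2 ≤ p := by
  have hb : ∀ b ∈ Cls n (1 : ZMod p), ft (Cls n κ) (a * b) = ft (Cls n κ) a := by
    intro b hb
    rw [mem_Cls] at hb
    have hb0 : b ≠ 0 := by
      rintro rfl
      rw [zero_pow hn.ne'] at hb
      exact zero_ne_one hb
    unfold ft
    apply sum_nbij' (fun x => b * x) (fun x => b⁻¹ * x)
    · intro x hx
      rw [mem_Cls] at hx ⊢
      rw [mul_pow, hb, hx, one_mul]
    · intro x hx
      rw [mem_Cls] at hx ⊢
      rw [mul_pow, inv_pow, hb, hx, inv_one, one_mul]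
    · intro x _
      field_simp
    · intro x _
      field_simp
    · intro x _
      rw [mul_assoc]
  have h2 : (n : ℝ) * ‖ft (Cls n κ) a‖ ^ 2 ≤ p * n := by
    calc (n : ℝ) * ‖ft (Cls n κ) a‖ ^ 2
        = ∑ b ∈ Cls n (1 : ZMod p), ‖ft (Cls n κ) (a * b)‖ ^ 2 := by
          rw [sum_congr rfl (fun b hb' => by rw [hb b hb']), sum_const, h1, nsmul_eq_mul]
      _ = ∑ c ∈ (Cls n (1 : ZMod p)).image (fun b => a * b), ‖ft (Cls n κ) c‖ ^ 2 := by
          rw [sum_image]
          intro x _ y _ hxy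
          exact mul_left_cancel₀ ha hxy
      _ ≤ ∑ c, ‖ft (Cls n κ) c‖ ^ 2 :=
          sum_le_sum_of_subset_of_nonneg (subset_univ _) (fun _ _ _ => by positivity)
      _ = p * (Cls n κ).card := parseval _
      _ ≤ p * n := by
          have : ((Cls n κ).card : ℝ) ≤ n := by exact_mod_cast card_Cls_le hn κ
          gcongr
  have hn' : (0 : ℝ) < n := by exact_mod_cast hn
  rw [mul_comm (p : ℝ) n] at h2
  exact le_of_mul_le_mul_left h2 hn'

/-- **Mixing lemma.** -/
theorem mixing {n : ℕ} (hn : 0 < n) (h1 : (Cls n (1 : ZMod p)).card = n) (κ : ZMod p)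
    (hκ : (Cls n κ).card = n) (X Y : Finset (ZMod p)) :
    |(((X ×ˢ Y).filter (fun z => (z.2 - z.1) ^ n = κ)).card : ℝ) - n * X.card * Y.card / p|
      ≤ Real.sqrt (p * X.card * Y.card) := by
  have hp0 : (0 : ℝ) < p := by exact_mod_cast hp.out.pos
  set N := ((X ×ˢ Y).filter (fun z => (z.2 - z.1) ^ n = κ)).card with hN
  have hsum : ∑ a : ZMod p, ft (Cls n κ) a * ft X a * (starRingEnd ℂ) (ft Y a)
      = (p : ℂ) * N := by
    have e1 : ∀ a : ZMod p, ft (Cls n κ) a * ft X a * (starRingEnd ℂ) (ft Y a)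
        = ∑ x ∈ X, ∑ y ∈ Y, ∑ z ∈ Cls n κ, (ZMod.stdAddChar (a * (z - (y - x))) : ℂ) := by
      intro a
      rw [conj_ft, ft, ft]
      have e0 : ∀ x y z : ZMod p, (ZMod.stdAddChar (a * (z - (y - x))) : ℂ)
          = ZMod.stdAddChar (a * z) * ZMod.stdAddChar (a * x) * ZMod.stdAddChar (-(a * y)) := by
        intro x y z
        rw [← AddChar.map_add_eq_mul, ← AddChar.map_add_eq_mul]
        congr 1
        ring
      simp_rw [e0, ← sum_mul, ← mul_sum, ← sum_mul]
      congr 1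
      rw [mul_sum]
    simp_rw [e1]
    rw [sum_comm]
    have e2 : ∀ x ∈ X, ∑ a : ZMod p, ∑ y ∈ Y, ∑ z ∈ Cls n κ,
        (ZMod.stdAddChar (a * (z - (y - x))) : ℂ) = ∑ y ∈ Y, if (y - x) ^ n = κ then (p : ℂ) else 0 := by
      intro x _
      rw [sum_comm]
      apply sum_congr rfl
      intro y _
      rw [sum_comm]
      simp_rw [sum_char, sub_eq_zero]
      rw [sum_ite_eq' (Cls n κ) (y - x)]
      simp only [mem_Cls]
    rw [sum_congr rfl e2, ← sum_product', ← sum_filter, sum_const, nsmul_eq_mul, mul_comm]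
  have hzero : ft (Cls n κ) 0 * ft X 0 * (starRingEnd ℂ) (ft Y 0) = (n * X.card * Y.card : ℂ) := by
    rw [conj_ft]
    simp [ft, hκ]
  have hsplit : (p : ℂ) * N - n * X.card * Y.card
      = ∑ a ∈ univ.erase (0 : ZMod p), ft (Cls n κ) a * ft X a * (starRingEnd ℂ) (ft Y a) := by
    rw [← hsum, ← hzero, ← add_sum_erase univ _ (mem_univ (0 : ZMod p))]
    ring
  have hnorm : |(p : ℝ) * N - n * X.card * Y.card|
      ≤ ∑ a ∈ univ.erase (0 : ZMod p), Real.sqrt p * (‖ft X a‖ * ‖ft Y a‖) := by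
    have e3 : |(p : ℝ) * N - n * X.card * Y.card| = ‖(p : ℂ) * N - n * X.card * Y.card‖ := by
      have : (((p : ℝ) * N - n * X.card * Y.card : ℝ) : ℂ)
          = (p : ℂ) * N - n * X.card * Y.card := by push_cast; ring
      rw [← this, Complex.norm_real, Real.norm_eq_abs]
    rw [e3, hsplit]
    refine (norm_sum_le _ _).trans (sum_le_sum (fun a ha => ?_))
    rw [norm_mul, norm_mul, RCLike.norm_conj, mul_assoc]
    apply mul_le_mul_of_nonneg_right _ (by positivity)
    exact Real.le_sqrt_of_sq_le (ft_class_bound hn h1 κ a (ne_of_mem_erase ha))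
  have hcs : ∑ a ∈ univ.erase (0 : ZMod p), Real.sqrt p * (‖ft X a‖ * ‖ft Y a‖)
      ≤ p * Real.sqrt (p * X.card * Y.card) := by
    rw [← mul_sum]
    have e4 : ∑ a ∈ univ.erase (0 : ZMod p), ‖ft X a‖ * ‖ft Y a‖
        ≤ ∑ a, ‖ft X a‖ * ‖ft Y a‖ :=
      sum_le_sum_of_subset_of_nonneg (erase_subset _ _) (fun _ _ _ => by positivity)
    have e5 : ∑ a, ‖ft X a‖ * ‖ft Y a‖
        ≤ Real.sqrt (∑ a, ‖ft X a‖ ^ 2) * Real.sqrt (∑ a, ‖ft Y a‖ ^ 2) :=
      Real.sum_mul_le_sqrt_mul_sqrt _ _ _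
    rw [parseval, parseval] at e5
    have e6 : Real.sqrt p * (Real.sqrt (p * X.card) * Real.sqrt (p * Y.card))
        = p * Real.sqrt (p * X.card * Y.card) := by
      rw [← Real.sqrt_mul (by positivity), ← Real.sqrt_mul (by positivity)]
      have : (p : ℝ) * (p * X.card * (p * Y.card)) = p ^ 2 * (p * X.card * Y.card) := by ring
      rw [this, Real.sqrt_mul (by positivity), Real.sqrt_sq hp0.le]
    rw [← e6]
    have := e4.trans e5
    gcongr
  have hfin := hnorm.trans hcs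
  have e7 : (N : ℝ) - n * X.card * Y.card / p = ((p : ℝ) * N - n * X.card * Y.card) / p := by
    field_simp
  rw [e7, abs_div, abs_of_pos hp0, div_le_iff₀ hp0]
  linarith

end Pool.Agent.H59.Des
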