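import Pool.Agent.H59.Des.Constraint

/-!
# An automorphism that is induced by the group on most lines belongs to the group
-/

open Finset
open scoped Pointwise

namespace Pool.Agent.H59.Des

theorem fix_all {P : Type*} [Fintype P] [DecidableEq P] {k : ℕ} (hk : 3 ≤ k)
    {D : Finset (Finset P)} (hD : IsDes k D) (σ : Equiv.Perm P) (hσ : σ • D = D)
    (h : Fintype.card P + k < 2 * ((univ : Finset P).filter (fun p => σ p = p)).card) :
    σ = 1 := by
  by_contra hne
  obtain ⟨p, hp⟩ : ∃ p, σ p ≠ p := by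
    by_contra hcon
    push Not at hcon
    exact hne (Equiv.ext hcon)
  obtain ⟨B₀, hB₀, hpB₀, hσB₀⟩ := hD.ex p (σ p) (Ne.symm hp)
  set Fx := (univ : Finset P).filter (fun p => σ p = p) with hFx
  have hfne : ∀ f, σ f = f → p ≠ f := by
    rintro f hf rfl
    exact hp hf
  have hsel : ∀ f : P, ∃ z : P × Finset P, σ f = f → (z.2 ∈ D ∧ p ∈ z.2 ∧ f ∈ z.2 ∧ z.1 ∈ z.2 ∧
      z.1 ≠ p ∧ z.1 ≠ f) := by
    intro f
    by_cases hf : σ f = f
    · obtain ⟨B, hB, h1, h2⟩ := hD.ex p f (hfne f hf)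
      obtain ⟨s, hs, h3, h4⟩ := exists_third hk (hD.card_eq B hB) p f
      exact ⟨(s, B), fun _ => ⟨hB, h1, h2, hs, h3, h4⟩⟩
    · exact ⟨(p, B₀), fun h => absurd h hf⟩
  choose z hz using hsel
  have hnon : ∀ f, σ f = f → f ∉ B₀ → ∀ s ∈ (z f).2, s ≠ f → σ s ≠ s := by
    intro f hf hfB s hs hsf hfix
    obtain ⟨h1, h2, h3, _, _, _⟩ := hz f hf
    have h4 : σ • (z f).2 ∈ D := by
      rw [← hσ]
      exact smul_mem_smul_finset h1
    have h5 : σ • (z f).2 = (z f).2 := by
      refine hD.uniq _ h4 _ h1 s f hsf ?_ ?_ hs h3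
      · have := smul_mem_smul_finset (a := σ) hs
        rwa [Equiv.Perm.smul_def, hfix] at this
      · have := smul_mem_smul_finset (a := σ) h3
        rwa [Equiv.Perm.smul_def, hf] at this
    have h6 : σ p ∈ (z f).2 := by
      have := smul_mem_smul_finset (a := σ) h2
      rwa [h5] at this
    have h7 := hD.uniq _ h1 _ hB₀ p (σ p) (Ne.symm hp) h2 h6 hpB₀ hσB₀
    rw [h7] at h3
    exact hfB h3
  have h1 : (Fx \ B₀).card ≤ Fxᶜ.card := by
    apply card_le_card_of_injOn (fun f => (z f).1)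
    · intro f hf
      rw [mem_coe, mem_sdiff, hFx, mem_filter] at hf
      rw [mem_coe, mem_compl, hFx, mem_filter]
      rintro ⟨_, h⟩
      exact hnon f hf.1.2 hf.2 _ (hz f hf.1.2).2.2.2.1 (hz f hf.1.2).2.2.2.2.2 h
    · intro f hf f' hf' heq
      rw [mem_coe, mem_sdiff, hFx, mem_filter] at hf hf'
      simp only at heq
      obtain ⟨a1, a2, a3, a4, a5, a6⟩ := hz f hf.1.2
      obtain ⟨b1, b2, b3, b4, b5, b6⟩ := hz f' hf'.1.2
      rw [← heq] at b4
      have h2 := hD.uniq _ a1 _ b1 p (z f).1 (Ne.symm a5) a2 a4 b2 b4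
      by_contra hff
      rw [← h2] at b3
      exact hnon f hf.1.2 hf.2 f' b3 (Ne.symm hff) hf'.1.2
  have h2 : Fx.card ≤ B₀.card + (Fx \ B₀).card := by
    have h3 : Fx ⊆ B₀ ∪ (Fx \ B₀) := by
      intro x hx
      rw [mem_union, mem_sdiff]
      by_cases hxB : x ∈ B₀
      · exact Or.inl hxB
      · exact Or.inr ⟨hx, hxB⟩
    exact (card_le_card h3).trans (card_union_le _ _)
  rw [hD.card_eq B₀ hB₀] at h2
  rw [card_compl] at h1
  have h3 : Fx.card ≤ Fintype.card P := card_le_univ _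
  omega

section pairs

variable {F V J : Type*} [Field F] [Fintype F] [AddCommGroup V] [Module F V] [DecidableEq V]
  [DecidableEq J] [Fintype V] {k : ℕ} {G : Type*} [Group G] [DistribMulAction G V]
  [SMulCommClass G F V]

/-- `τ⁻¹` is induced by a group element on the points over the line -/
def Fine (G : Type*) [Group G] [DistribMulAction G V] (τ : Equiv.Perm (Pt V J)) (L : Lin F V) :
    Prop := ∃ g : G, ∀ p : Pt V J, p.pos ∈ L.pts → τ⁻¹ p = gam g p

open Classical in
/-- orbits that contain a generic line on which `τ` is not induced by the group -/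
noncomputable def badOrb (τ : Equiv.Perm (Pt V J)) : Finset (Orb F V G) :=
  (univ : Finset (Lin F V)).image (orb G) |>.filter
    (fun M => ∃ L : Lin F V, orb G L = M ∧ Gen G L ∧ ¬ Fine G τ L)

lemma mem_badOrb {τ : Equiv.Perm (Pt V J)} {M : Orb F V G} :
    M ∈ badOrb τ ↔ ∃ L : Lin F V, orb G L = M ∧ Gen G L ∧ ¬ Fine G τ L := by
  classical
  unfold badOrb
  rw [mem_filter]
  constructor
  · exact fun h => h.2
  · rintro ⟨L, h1, h2⟩
    exact ⟨mem_image.2 ⟨L, mem_univ _, h1⟩, L, h1, h2⟩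

/-- Pairs of points spanning a line that is not generic are rare. -/
lemma card_nongen [Fintype G] [DecidableEq F] {Φ : ℕ}
    (hΦ : ∀ g : G, g ≠ 1 → ((univ : Finset V).filter (fun x => g • x = x)).card ≤ Φ)
    (A : Finset (V × V)) (hA : ∀ z ∈ A, ∃ h : z.1 ≠ z.2, ¬ Gen G (thr F z.1 z.2 h)) :
    A.card ≤ Fintype.card G * (Fintype.card F * Fintype.card F) * (Φ * Fintype.card V) := by
  classical
  let T : G × F × F → Finset (V × V) := fun w =>
    (univ : Finset (V × V)).filter (fun z => w.1 ≠ 1 ∧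
      w.1 • (z.1 + w.2.1 • (z.2 - z.1)) = z.1 + w.2.2 • (z.2 - z.1))
  have hsub : A ⊆ (univ : Finset (G × F × F)).biUnion T := by
    intro z hz
    obtain ⟨h, hgen⟩ := hA z hz
    unfold Gen at hgen
    push Not at hgen
    obtain ⟨g, x, hx, hgx, hg⟩ := hgen
    obtain ⟨s, hs⟩ := mem_ln.1 hx
    obtain ⟨t, ht⟩ := mem_ln.1 hgx
    refine mem_biUnion.2 ⟨(g, s, t), mem_univ _, ?_⟩
    simp only [T, mem_filter]
    refine ⟨mem_univ _, hg, ?_⟩
    rw [hs, ht]
  have hT : ∀ w ∈ (univ : Finset (G × F × F)), (T w).card ≤ Φ * Fintype.card V := by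
    rintro ⟨g, s, t⟩ _
    rw [← card_univ (α := V)]
    apply card_le_mul_card_image_of_maps_to (f := fun z : V × V => z.2 - z.1)
    · intro z _
      exact mem_univ _
    · intro dd _
      by_cases hempty : ((T (g, s, t)).filter (fun z => z.2 - z.1 = dd)).Nonempty
      · obtain ⟨z₀, hz₀⟩ := hempty
        simp only [T, mem_filter] at hz₀
        obtain ⟨⟨_, hg, h1⟩, h2⟩ := hz₀
        refine le_trans ?_ (hΦ g hg)
        apply card_le_card_of_injOn (fun z => z.1 - z₀.1)
        · intro z hz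
          simp only [T, coe_filter, Set.mem_ofPred_eq, mem_filter] at hz
          obtain ⟨⟨_, _, h3⟩, h4⟩ := hz
          simp only [coe_filter, Set.mem_ofPred_eq]
          refine ⟨mem_univ _, ?_⟩
          rw [h2, smul_add] at h1
          rw [h4, smul_add] at h3
          rw [smul_sub]
          have e1 : g • z.1 = z.1 + t • dd - g • s • dd := eq_sub_of_add_eq h3
          have e2 : g • z₀.1 = z₀.1 + t • dd - g • s • dd := eq_sub_of_add_eq h1
          rw [e1, e2]
          abel
        · intro z hz z' hz' heq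
          simp only [T, coe_filter, Set.mem_ofPred_eq, mem_filter] at hz hz'
          have e1 : z.1 = z'.1 := sub_left_injective heq
          refine Prod.ext e1 ?_
          have e2 := hz.2.trans hz'.2.symm
          rw [e1] at e2
          exact sub_left_injective e2
      · rw [not_nonempty_iff_eq_empty] at hempty
        rw [hempty, card_empty]
        exact Nat.zero_le _
  calc A.card ≤ _ := card_le_card hsub
    _ ≤ (univ : Finset (G × F × F)).card * (Φ * Fintype.card V) := card_biUnion_le_card_mul _ _ _ hT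
    _ = _ := by rw [card_univ, Fintype.card_prod, Fintype.card_prod]

lemma card_nonfine [Fintype G] (τ : Equiv.Perm (Pt V J))
    (A : Finset (V × V)) (hA : ∀ z ∈ A, ∃ h : z.1 ≠ z.2, Gen G (thr F z.1 z.2 h) ∧
      ¬ Fine G τ (thr F z.1 z.2 h)) :
    A.card ≤ ((badOrb τ : Finset (Orb F V G)).card * Fintype.card G) *
      (Fintype.card F * Fintype.card F) := by
  classical
  let T : Orb F V G × G → Finset (V × V) := fun w => (w.2 • rep w.1).pts ×ˢ (w.2 • rep w.1).pts
  have hsub : A ⊆ ((badOrb τ : Finset (Orb F V G)) ×ˢ (univ : Finset G)).biUnion T := by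
    intro z hz
    obtain ⟨h, h1, h2⟩ := hA z hz
    refine mem_biUnion.2 ⟨(orb G (thr F z.1 z.2 h), tr G (thr F z.1 z.2 h)), ?_, ?_⟩
    · exact mem_product.2 ⟨mem_badOrb.2 ⟨_, rfl, h1, h2⟩, mem_univ _⟩
    · simp only [T, mem_product]
      rw [tr_smul]
      exact ⟨left_mem_thr h, right_mem_thr h⟩
  have hT : ∀ w ∈ ((badOrb τ : Finset (Orb F V G)) ×ˢ (univ : Finset G)),
      (T w).card ≤ Fintype.card F * Fintype.card F := by
    intro w _
    simp only [T, card_product, Lin.card]
    exact le_rfl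
  calc A.card ≤ _ := card_le_card hsub
    _ ≤ _ := card_biUnion_le_card_mul _ _ _ hT
    _ = _ := by rw [card_product, card_univ]

theorem mem_of_few [Fintype G] [DecidableEq F] [Fintype J] (hk : 3 ≤ k)
    {𝒱 : Finset (Finset J)} (h𝒱 : IsDes k 𝒱) {Φ : ℕ}
    (hΦ : ∀ g : G, g ≠ 1 → ((univ : Finset V).filter (fun x => g • x = x)).card ≤ Φ)
    (y : ∀ M : Orb F V G, Om J k M) (τ : Equiv.Perm (Pt V J))
    (hτ : τ • desOf 𝒱 (fam y) = desOf 𝒱 (fam y)) (hJ : 0 < Fintype.card J)
    (hv : 2 * k ≤ Fintype.card V * Fintype.card J)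
    (hfew : 4 * (Fintype.card V + Fintype.card G * (Fintype.card F * Fintype.card F) *
      (Φ * Fintype.card V) + ((badOrb τ : Finset (Orb F V G)).card * Fintype.card G) *
      (Fintype.card F * Fintype.card F)) < Fintype.card V * Fintype.card V) :
    ∃ g : G, τ = gam g := by
  classical
  set P₁ := (univ : Finset (V × V)).filter (fun z => z.1 = z.2) with hP₁
  set P₂ := (univ : Finset (V × V)).filter (fun z => ∃ h : z.1 ≠ z.2,
    ¬ Gen G (thr F z.1 z.2 h)) with hP₂
  set P₃ := (univ : Finset (V × V)).filter (fun z => ∃ h : z.1 ≠ z.2,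
    Gen G (thr F z.1 z.2 h) ∧ ¬ Fine G τ (thr F z.1 z.2 h)) with hP₃
  set P := P₁ ∪ P₂ ∪ P₃ with hP
  have c1 : P₁.card ≤ Fintype.card V := by
    rw [← card_univ (α := V)]
    apply card_le_card_of_injOn (fun z => z.1)
    · intro z _
      exact mem_univ _
    · intro z hz z' hz' h
      rw [mem_coe, hP₁, mem_filter] at hz hz'
      exact Prod.ext h (hz.2.symm.trans (h.trans hz'.2))
  have c2 := card_nongen hΦ P₂ (fun z hz => (mem_filter.1 hz).2)
  have c3 := card_nonfine τ P₃ (fun z hz => (mem_filter.1 hz).2)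
  have hPc : 4 * P.card < Fintype.card V * Fintype.card V := by
    have h1 : P.card ≤ P₁.card + P₂.card + P₃.card :=
      (card_union_le _ _).trans (Nat.add_le_add_right (card_union_le _ _) _)
    omega
  -- a good point
  obtain ⟨x₀, hx₀⟩ : ∃ x₀ : V, 4 * (P.filter (fun z => z.1 = x₀)).card < Fintype.card V := by
    by_contra hcon
    push Not at hcon
    have h1 : P.card = ∑ x₀ : V, (P.filter (fun z => z.1 = x₀)).card :=
      card_eq_sum_card_fiberwise (fun z _ => mem_univ _)
    have h2 : Fintype.card V * Fintype.card V ≤ 4 * P.card := by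
      rw [h1, mul_sum]
      calc Fintype.card V * Fintype.card V = ∑ _x : V, Fintype.card V := by
            rw [sum_const, card_univ, smul_eq_mul]
        _ ≤ _ := sum_le_sum (fun x _ => hcon x)
    omega
  set Bx := (P.filter (fun z => z.1 = x₀)).image Prod.snd with hBx
  have hBxc : 4 * Bx.card < Fintype.card V :=
    lt_of_le_of_lt (Nat.mul_le_mul_left _ card_image_le) hx₀
  have hgood : ∀ x₁, x₁ ∉ Bx → ∃ h : x₀ ≠ x₁, Gen G (thr F x₀ x₁ h) ∧
      Fine G τ (thr F x₀ x₁ h) := by
    intro x₁ hx₁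
    have h1 : (x₀, x₁) ∉ P := by
      intro h
      exact hx₁ (mem_image.2 ⟨(x₀, x₁), mem_filter.2 ⟨h, rfl⟩, rfl⟩)
    rw [hP, mem_union, mem_union, hP₁, hP₂, hP₃, mem_filter, mem_filter, mem_filter] at h1
    push Not at h1
    obtain ⟨⟨h2, h3⟩, h4⟩ := h1
    have h5 := h2 (mem_univ _)
    have h6 := h3 (mem_univ _) h5
    exact ⟨h5, h6, h4 (mem_univ _) h5 h6⟩
  have hV0 : 0 < Fintype.card V := by
    by_contra h
    have : Fintype.card V = 0 := by omega
    rw [this] at hBxc
    omega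
  obtain ⟨j₀⟩ : Nonempty J := Fintype.card_pos_iff.1 hJ
  obtain ⟨x₂, hx₂⟩ : ∃ x₂, x₂ ∉ Bx := by
    by_contra hcon
    push Not at hcon
    have h1 := card_le_card (fun x _ => hcon x : (univ : Finset V) ⊆ Bx)
    rw [card_univ] at h1
    omega
  obtain ⟨h02, hgen2, ⟨g₀, hg₀⟩⟩ := hgood x₂ hx₂
  have hstab : ∀ g : G, g • x₀ = x₀ → g = 1 := by
    intro g hg
    exact hgen2 g x₀ (left_mem_thr h02) (by rw [hg]; exact left_mem_thr h02)
  have hall : ∀ x₁, x₁ ∉ Bx → ∀ p : Pt V J, p.pos = x₁ → τ⁻¹ p = gam g₀ p := by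
    intro x₁ hx₁ p hp
    obtain ⟨h01, hgen1, ⟨g, hg⟩⟩ := hgood x₁ hx₁
    have e1 := hg ⟨x₀, j₀⟩ (left_mem_thr h01)
    have e2 := hg₀ ⟨x₀, j₀⟩ (left_mem_thr h02)
    have e3 : g • x₀ = g₀ • x₀ := congrArg Pt.pos (e1.symm.trans e2)
    have e4 : g₀⁻¹ * g = 1 := hstab _ (by rw [mul_smul, e3, inv_smul_smul])
    have e5 : g = g₀ := (inv_mul_eq_one.1 e4).symm
    rw [← e5]
    apply hg
    rw [hp]
    exact right_mem_thr h01
  have hσ1 : τ * gam g₀ = 1 := by
    apply fix_all hk (isDes_desOf h𝒱 (fam_isGDD y))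
    · rw [mul_smul, desOf_invariant (fun g L => fam_smul y g L), hτ]
    · have h1 : ((Bxᶜ : Finset V) ×ˢ (univ : Finset J)).card
          ≤ ((univ : Finset (Pt V J)).filter
            (fun p => (τ * (gam g₀ : Equiv.Perm (Pt V J))) p = p)).card := by
        apply card_le_card_of_injOn (fun z => (⟨z.1, z.2⟩ : Pt V J))
        · intro z hz
          rw [mem_coe, mem_product, mem_compl] at hz
          rw [mem_coe, mem_filter]
          refine ⟨mem_univ _, ?_⟩
          rw [Equiv.Perm.mul_apply, ← hall z.1 hz.1 ⟨z.1, z.2⟩ rfl, perm_apply_inv]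
        · intro z _ z' _ h
          exact Prod.ext (congrArg Pt.pos h) (congrArg Pt.lab h)
      rw [card_product, card_compl, card_univ] at h1
      rw [card_Pt]
      obtain ⟨b, hb⟩ : ∃ b, Fintype.card V = Bx.card + b :=
        ⟨Fintype.card V - Bx.card, by have := card_le_univ Bx; omega⟩
      have h2 : Fintype.card V - Bx.card = b := by omega
      rw [h2] at h1
      have h3 : 3 * Fintype.card V < 4 * b := by omega
      have h4 : 3 * Fintype.card V * Fintype.card J < 4 * b * Fintype.card J :=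
        Nat.mul_lt_mul_of_pos_right h3 hJ
      generalize hX : ((univ : Finset (Pt V J)).filter
            (fun p => (τ * (gam g₀ : Equiv.Perm (Pt V J))) p = p)).card = X at h1 ⊢
      have h5 : 3 * Fintype.card V * Fintype.card J
          = 3 * (Fintype.card V * Fintype.card J) := by ring
      have h6 : 4 * b * Fintype.card J = 4 * (b * Fintype.card J) := by ring
      omega
  refine ⟨g₀⁻¹, ?_⟩
  rw [gam_inv]
  exact eq_inv_of_mul_eq_one_left hσ1

end pairs

end Pool.Agent.H59.Des
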