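import Pool.Agent.H59.Des.BaseDesign

/-!
# Class assignment for the symmetric base blocks
-/

open Finset

namespace Pool.Agent.H59.Des

variable {p : ℕ} [hp : Fact p.Prime]

/-- number of `z` with `z^n = α` and `(1-z)^n = (1+z)^n`. -/
def bcnt (n : ℕ) (α : ZMod p) : ℕ :=
  ((univ : Finset (ZMod p)).filter (fun z => z ^ n = α ∧ (1 - z) ^ n = (1 + z) ^ n)).card

lemma sum_bcnt {n : ℕ} (hn : 0 < n) (hp2 : p ≠ 2) (S : Finset (ZMod p)) :
    ∑ α ∈ S, bcnt n α ≤ n := by
  have h2 : (2 : ZMod p) ≠ 0 := by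
    intro h
    have h' : ((2 : ℕ) : ZMod p) = 0 := by exact_mod_cast h
    rw [ZMod.natCast_eq_zero_iff] at h'
    exact hp2 ((Nat.prime_dvd_prime_iff_eq hp.out Nat.prime_two).1 h')
  have hz : ∀ z : ZMod p, (1 - z) ^ n = (1 + z) ^ n → 1 + z ≠ 0 := by
    intro z hz h0
    rw [h0, zero_pow hn.ne'] at hz
    have h1 : 1 - z = 0 := pow_eq_zero_iff hn.ne' |>.1 hz
    apply h2
    linear_combination h0 + h1
  calc ∑ α ∈ S, bcnt n α
      = (S.biUnion (fun α => (univ : Finset (ZMod p)).filter
          (fun z => z ^ n = α ∧ (1 - z) ^ n = (1 + z) ^ n))).card := by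
        rw [card_biUnion]
        · rfl
        · intro α _ β _ hαβ
          rw [Function.onFun, disjoint_left]
          intro z h1 h2
          rw [mem_filter] at h1 h2
          exact hαβ (h1.2.1.symm.trans h2.2.1)
    _ ≤ (Cls n (1 : ZMod p)).card := by
        apply card_le_card_of_injOn (fun z => (1 - z) / (1 + z))
        · intro z h
          rw [mem_coe, mem_biUnion] at h
          obtain ⟨α, _, h⟩ := h
          rw [mem_filter] at h
          rw [mem_coe, mem_Cls, div_pow, h.2.2, div_self (pow_ne_zero _ (hz z h.2.2))]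
        · intro z h z' h' heq
          rw [mem_coe, mem_biUnion] at h h'
          obtain ⟨α, _, h⟩ := h
          obtain ⟨α', _, h'⟩ := h'
          rw [mem_filter] at h h'
          have e1 := hz z h.2.2
          have e2 := hz z' h'.2.2
          simp only at heq
          rw [div_eq_div_iff e1 e2] at heq
          have : 2 * (z - z') = 0 := by linear_combination -heq
          rcases mul_eq_zero.1 this with h3 | h3
          · exact absurd h3 h2
          · exact sub_eq_zero.1 h3
    _ ≤ n := card_Cls_le hn 1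

/-- greedy choice of class representatives. -/
lemma exists_reps {n h M : ℕ} (hn : 0 < n) (hh : 0 < h) (hp2 : p ≠ 2) {ζ : ZMod p}
    (hζ : IsPrimitiveRoot ζ (h * M)) (hM : 8 * h ^ 3 < M) :
    ∀ j : ℕ, j ≤ h → ∃ ρ : ℕ → ZMod p, (∀ r < j, ∃ s < M, ρ r = ζ ^ (h * s + r)) ∧
      ∀ r < j, ∀ r' < j, r ≠ r' → 4 * h ^ 2 * bcnt n (ρ r / ρ r') ≤ n := by
  intro j
  induction j with
  | zero =>
    intro _
    exact ⟨fun _ => 1, by simp, by simp⟩
  | succ j ih =>
    intro hj
    obtain ⟨ρ, h1, h2⟩ := ih (by omega)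
    have hm0 : 0 < h * M := Nat.mul_pos hh (by omega)
    have hζ0 : ζ ≠ 0 := hζ.ne_zero hm0.ne'
    -- the bad set of classes
    let f : ℕ → ZMod p := fun s => ζ ^ (h * s + j)
    have hf0 : ∀ s, f s ≠ 0 := fun s => pow_ne_zero _ hζ0
    have hfinj : Set.InjOn f (range M : Set ℕ) := by
      intro s hs s' hs' hss
      rw [mem_coe, mem_range] at hs hs'
      have hlt : ∀ t < M, h * t + j < h * M := by
        intro t ht
        calc h * t + j < h * t + h := by omega
          _ = h * (t + 1) := by ring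
          _ ≤ h * M := Nat.mul_le_mul_left _ ht
      have := hζ.pow_inj (hlt s hs) (hlt s' hs') hss
      have h3 : h * s = h * s' := by omega
      exact Nat.eq_of_mul_eq_mul_left hh h3
    have hρ0 : ∀ r < j, ρ r ≠ 0 := by
      intro r hr
      obtain ⟨s, _, hs⟩ := h1 r hr
      rw [hs]
      exact pow_ne_zero _ hζ0
    let bad1 : ℕ → Finset ℕ := fun r => (range M).filter (fun s => n < 4 * h ^ 2 * bcnt n (f s / ρ r))
    let bad2 : ℕ → Finset ℕ := fun r => (range M).filter (fun s => n < 4 * h ^ 2 * bcnt n (ρ r / f s))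
    have key : ∀ (g : ℕ → ZMod p), Set.InjOn g (range M : Set ℕ) →
        ((range M).filter (fun s => n < 4 * h ^ 2 * bcnt n (g s))).card ≤ 4 * h ^ 2 := by
      intro g hg
      set T := (range M).filter (fun s => n < 4 * h ^ 2 * bcnt n (g s)) with hT
      have hginj : Set.InjOn g (T : Set ℕ) := by
        intro a ha b hb hab
        apply hg _ _ hab
        · exact mem_coe.2 (mem_filter.1 (mem_coe.1 ha)).1
        · exact mem_coe.2 (mem_filter.1 (mem_coe.1 hb)).1
      have e1 : ∑ s ∈ T, bcnt n (g s) ≤ n := by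
        rw [← sum_image hginj (f := bcnt n)]
        exact sum_bcnt hn hp2 _
      have e2 : T.card * n ≤ 4 * h ^ 2 * n := by
        calc T.card * n = ∑ s ∈ T, n := by rw [sum_const, smul_eq_mul]
          _ ≤ ∑ s ∈ T, 4 * h ^ 2 * bcnt n (g s) := by
              apply sum_le_sum
              intro s hs
              rw [hT, mem_filter] at hs
              exact hs.2.le
          _ = 4 * h ^ 2 * ∑ s ∈ T, bcnt n (g s) := by rw [mul_sum]
          _ ≤ _ := Nat.mul_le_mul_left _ e1
      exact Nat.le_of_mul_le_mul_right e2 hn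
    have hb1 : ∀ r < j, (bad1 r).card ≤ 4 * h ^ 2 := by
      intro r hr
      apply key (fun s => f s / ρ r)
      intro a ha b hb hab
      apply hfinj ha hb
      simp only at hab
      rw [div_left_inj' (hρ0 r hr)] at hab
      exact hab
    have hb2 : ∀ r < j, (bad2 r).card ≤ 4 * h ^ 2 := by
      intro r hr
      apply key (fun s => ρ r / f s)
      intro a ha b hb hab
      apply hfinj ha hb
      simp only at hab
      rw [div_eq_div_iff (hf0 a) (hf0 b)] at hab
      exact (mul_left_cancel₀ (hρ0 r hr) hab).symm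
    have hlt : ((range j).biUnion (fun r => bad1 r ∪ bad2 r)).card < (range M).card := by
      calc ((range j).biUnion (fun r => bad1 r ∪ bad2 r)).card
          ≤ ∑ r ∈ range j, (bad1 r ∪ bad2 r).card := card_biUnion_le
        _ ≤ ∑ r ∈ range j, 8 * h ^ 2 := by
            apply sum_le_sum
            intro r hr
            rw [mem_range] at hr
            have := card_union_le (bad1 r) (bad2 r)
            have := hb1 r hr
            have := hb2 r hr
            omega
        _ = j * (8 * h ^ 2) := by rw [sum_const, card_range, smul_eq_mul]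
        _ ≤ h * (8 * h ^ 2) := Nat.mul_le_mul_right _ (by omega)
        _ = 8 * h ^ 3 := by ring
        _ < (range M).card := by rw [card_range]; exact hM
    obtain ⟨s, hs, hs'⟩ := exists_mem_notMem_of_card_lt_card hlt
    rw [mem_range] at hs
    have hs1 : ∀ r < j, 4 * h ^ 2 * bcnt n (f s / ρ r) ≤ n ∧ 4 * h ^ 2 * bcnt n (ρ r / f s) ≤ n := by
      intro r hr
      rw [mem_biUnion] at hs'
      push Not at hs'
      have h3 := hs' r (mem_range.2 hr)
      rw [mem_union, not_or] at h3
      simp only [bad1, bad2, mem_filter, mem_range, not_and, not_lt] at h3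
      exact ⟨h3.1 hs, h3.2 hs⟩
    refine ⟨Function.update ρ j (f s), ?_, ?_⟩
    · intro r hr
      by_cases hrj : r = j
      · subst hrj
        exact ⟨s, hs, by rw [Function.update_self]⟩
      · rw [Function.update_of_ne hrj]
        exact h1 r (by omega)
    · intro r hr r' hr' hne
      by_cases hrj : r = j
      · subst hrj
        have hrj' : r' ≠ r := Ne.symm hne
        rw [Function.update_self, Function.update_of_ne hrj']
        exact (hs1 r' (by omega)).1
      · rw [Function.update_of_ne hrj]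
        by_cases hrj' : r' = j
        · subst hrj'
          rw [Function.update_self]
          exact (hs1 r (by omega)).2
        · rw [Function.update_of_ne hrj']
          exact h2 r (by omega) r' (by omega) hne

/-- Class assignment. -/
theorem exists_E {w : ℕ} [hw : Fact w.Prime] {n h : ℕ} (hn : 0 < n) (hh : 0 < h) (hp2 : p ≠ 2)
    (hnm : p - 1 = n * (h * (w - 1))) (hM : 8 * h ^ 3 < w - 1) :
    ∃ E : (ZMod w)ˣ → ℕ → ZMod p,
      (∀ u, ∀ r < h, ∃ z₀ : ZMod p, z₀ ≠ 0 ∧ z₀ ^ n = E u r) ∧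
      (∀ u u', ∀ r < h, ∀ r' < h, E u r = E u' r' → u = u' ∧ r = r') ∧
      (∀ z : ZMod p, z ≠ 0 → ∃ u, ∃ r < h, E u r = z ^ n) ∧
      (∀ u, ∀ r < h, ∀ r' < h, r ≠ r' → 4 * h ^ 2 * bcnt n (E u r / E u r') ≤ n) := by
  obtain ⟨g, hg⟩ := exists_primroot (p := p)
  set M := w - 1 with hMdef
  have hM0 : 0 < M := by omega
  have hm0 : 0 < h * M := Nat.mul_pos hh hM0
  have hp0 : 0 < p - 1 := by rw [hnm]; positivity
  have hζ : IsPrimitiveRoot (g ^ n) (h * M) := hg.pow hp0 hnm
  have hg0 : g ≠ 0 := hg.ne_zero hp0.ne'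
  set ζ := g ^ n with hζdef
  have hζ0 : ζ ≠ 0 := pow_ne_zero _ hg0
  obtain ⟨ρ, h1, h2⟩ := exists_reps hn hh hp2 hζ hM h le_rfl
  have hcard : Fintype.card (ZMod w)ˣ = M := by
    rw [ZMod.card_units_eq_totient, Nat.totient_prime hw.out]
  let γ : (ZMod w)ˣ ≃ Fin M := Fintype.equivFinOfCardEq hcard
  choose! s hs hρ using h1
  have hE : ∀ u : (ZMod w)ˣ, ∀ r < h, ζ ^ (h * (γ u : ℕ)) * ρ r
      = ζ ^ (h * (((γ u : ℕ) + s r) % M) + r) := by
    intro u r hr
    rw [hρ r hr, ← pow_add]
    have e1 : h * (γ u : ℕ) + (h * s r + r) = (h * (((γ u : ℕ) + s r) % M) + r)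
        + (h * M) * (((γ u : ℕ) + s r) / M) := by
      have := Nat.mod_add_div ((γ u : ℕ) + s r) M
      calc h * (γ u : ℕ) + (h * s r + r) = h * ((γ u : ℕ) + s r) + r := by ring
        _ = h * (((γ u : ℕ) + s r) % M + M * (((γ u : ℕ) + s r) / M)) + r := by rw [this]
        _ = _ := by ring
    rw [e1, pow_add, pow_mul ζ (h * M), hζ.pow_eq_one, one_pow, mul_one]
  have hlt : ∀ t < M, ∀ r < h, h * t + r < h * M := by
    intro t ht r hr
    calc h * t + r < h * t + h := by omega
      _ = h * (t + 1) := by ring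
      _ ≤ h * M := Nat.mul_le_mul_left _ ht
  have hEinj : ∀ u u', ∀ r < h, ∀ r' < h, ζ ^ (h * (γ u : ℕ)) * ρ r = ζ ^ (h * (γ u' : ℕ)) * ρ r' →
      u = u' ∧ r = r' := by
    intro u u' r hr r' hr' heq
    rw [hE u r hr, hE u' r' hr'] at heq
    have e2 := hζ.pow_inj (hlt _ (Nat.mod_lt _ hM0) r hr) (hlt _ (Nat.mod_lt _ hM0) r' hr') heq
    have e3 : r = r' := by
      have := congrArg (· % h) e2
      simp only [Nat.mul_add_mod, Nat.mod_eq_of_lt hr, Nat.mod_eq_of_lt hr'] at this
      exact this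
    subst e3
    refine ⟨?_, rfl⟩
    have e4 : ((γ u : ℕ) + s r) % M = ((γ u' : ℕ) + s r) % M := by
      have : h * (((γ u : ℕ) + s r) % M) = h * (((γ u' : ℕ) + s r) % M) := by omega
      exact Nat.eq_of_mul_eq_mul_left hh this
    have e5 : (γ u : ℕ) % M = (γ u' : ℕ) % M := Nat.ModEq.add_right_cancel' (s r) e4
    rw [Nat.mod_eq_of_lt (γ u).2, Nat.mod_eq_of_lt (γ u').2] at e5
    exact γ.injective (Fin.ext e5)
  refine ⟨fun u r => ζ ^ (h * (γ u : ℕ)) * ρ r, ?_, hEinj, ?_, ?_⟩
  · intro u r hr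
    refine ⟨g ^ (h * (((γ u : ℕ) + s r) % M) + r), pow_ne_zero _ hg0, ?_⟩
    simp only
    rw [hE u r hr, hζdef, ← pow_mul, ← pow_mul, mul_comm]
  · intro z hz
    set K := (((univ : Finset (ZMod p)).filter (fun z => z ≠ 0)).image (fun z => z ^ n)) with hK
    have hKc : K.card = h * M := card_powers hnm hn hm0
    have himg : ((univ : Finset (ZMod w)ˣ) ×ˢ range h).image
        (fun x => ζ ^ (h * (γ x.1 : ℕ)) * ρ x.2) = K := by
      apply eq_of_subset_of_card_le
      · intro κ hκ
        rw [mem_image] at hκ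
        obtain ⟨x, hx, rfl⟩ := hκ
        rw [mem_product, mem_range] at hx
        rw [hE x.1 x.2 hx.2, hK, mem_image]
        refine ⟨g ^ (h * (((γ x.1 : ℕ) + s x.2) % M) + x.2), ?_, ?_⟩
        · rw [mem_filter]
          exact ⟨mem_univ _, pow_ne_zero _ hg0⟩
        · rw [hζdef, ← pow_mul, ← pow_mul, mul_comm]
      · have hinjOn : Set.InjOn (fun x : (ZMod w)ˣ × ℕ => ζ ^ (h * (γ x.1 : ℕ)) * ρ x.2)
            (((univ : Finset (ZMod w)ˣ) ×ˢ range h : Finset _) : Set ((ZMod w)ˣ × ℕ)) := by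
          intro x hx x' hx' heq
          rw [mem_coe, mem_product, mem_range] at hx hx'
          obtain ⟨e1, e2⟩ := hEinj _ _ _ hx.2 _ hx'.2 heq
          exact Prod.ext e1 e2
        rw [card_image_of_injOn hinjOn, hKc, card_product, card_univ, hcard, card_range, mul_comm]
    have hz' : z ^ n ∈ K := by
      rw [hK, mem_image]
      exact ⟨z, by rw [mem_filter]; exact ⟨mem_univ _, hz⟩, rfl⟩
    rw [← himg, mem_image] at hz'
    obtain ⟨x, hx, hx'⟩ := hz'
    rw [mem_product, mem_range] at hx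
    exact ⟨x.1, x.2, hx.2, hx'⟩
  · intro u r hr r' hr' hne
    simp only
    rw [mul_div_mul_left _ _ (pow_ne_zero _ hζ0)]
    exact h2 r hr r' hr' hne

end Pool.Agent.H59.Des
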