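import Pool.Agent.H59.Des.Family

/-!
# Flexibility of group divisible designs and rigidity of their automorphisms
-/

open Finset
open scoped Pointwise

namespace Pool.Agent.H59.Des

section rigid

variable {V J : Type*} [DecidableEq V] [DecidableEq J] {k : ℕ}

lemma swap_pos {a b : Pt V J} (h : a.pos = b.pos) (p : Pt V J) :
    (Equiv.swap a b p).pos = p.pos := by
  by_cases h1 : p = a
  · rw [h1, Equiv.swap_apply_left, h]
  · by_cases h2 : p = b
    · rw [h2, Equiv.swap_apply_right, h]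
    · rw [Equiv.swap_apply_of_ne_of_ne h1 h2]

lemma IsGDD.swap {L : Finset V} {D : Finset (Finset (Pt V J))} (hD : IsGDD k L D)
    {a b : Pt V J} (h : a.pos = b.pos) : IsGDD k L (Equiv.swap a b • D) := by
  apply hD.smul
  · intro p
    rw [swap_pos h]
  · intro p r _ _
    rw [swap_pos h, swap_pos h]

lemma mem_smul_perm {σ : Equiv.Perm (Pt V J)} {B : Finset (Pt V J)} {p : Pt V J} :
    p ∈ σ • B ↔ σ⁻¹ p ∈ B := by
  rw [mem_smul_finset]
  constructor
  · rintro ⟨r, hr, rfl⟩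
    rw [Equiv.Perm.smul_def, perm_inv_apply]
    exact hr
  · intro h
    exact ⟨_, h, perm_apply_inv σ p⟩

/-- Third point on a block. -/
lemma exists_third {α : Type*} [DecidableEq α] {k : ℕ} {B : Finset α} (hk : 3 ≤ k)
    (hB : B.card = k) (p r : α) :
    ∃ s ∈ B, s ≠ p ∧ s ≠ r := by
  have h1 : 0 < ((B.erase p).erase r).card := by
    have h2 : B.card - 1 ≤ (B.erase p).card := pred_card_le_card_erase
    have h3 : (B.erase p).card - 1 ≤ ((B.erase p).erase r).card := pred_card_le_card_erase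
    omega
  obtain ⟨s, hs⟩ := card_pos.1 h1
  rw [mem_erase, mem_erase] at hs
  exact ⟨s, hs.2.2, hs.2.1, hs.1⟩

theorem avoid_block [Nontrivial J] (hk : 3 ≤ k) {L : Finset V} {D : Finset (Finset (Pt V J))}
    (hD : IsGDD k L D) {p r : Pt V J} (hpr : p.pos ≠ r.pos)
    {B : Finset (Pt V J)} (hpB : p ∈ B) (hrB : r ∈ B) :
    ∃ D' : Finset (Finset (Pt V J)), IsGDD k L D' ∧ B ∉ D' := by
  by_cases hB : B ∈ D
  · obtain ⟨s, hs, hsp, hsr⟩ := exists_third hk (hD.card_eq B hB) p r
    have h1 : s.pos ≠ p.pos := fun h => hsp (hD.inj B hB s hs p hpB h)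
    have h2 : s.pos ≠ r.pos := fun h => hsr (hD.inj B hB s hs r hrB h)
    obtain ⟨j', hj'⟩ := exists_ne s.lab
    have hst : s ≠ (⟨s.pos, j'⟩ : Pt V J) := fun h => hj' (congrArg Pt.lab h).symm
    refine ⟨Equiv.swap s ⟨s.pos, j'⟩ • D, hD.swap rfl, ?_⟩
    intro hmem
    obtain ⟨B', hB', hBB'⟩ := mem_smul_finset.1 hmem
    have hfix : ∀ z : Pt V J, z.pos ≠ s.pos → z ∈ B → z ∈ B' := by
      intro z hz hzB
      rw [← hBB', mem_smul_perm, Equiv.swap_inv,
        Equiv.swap_apply_of_ne_of_ne (fun h => hz (by rw [h])) (fun h => hz (by rw [h]))] at hzB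
      exact hzB
    have hBB : B' = B := hD.uniq B' hB' B hB p r (fun h => hpr (by rw [h]))
      (hfix p h1.symm hpB) (hfix r h2.symm hrB) hpB hrB
    rw [hBB] at hBB'
    have h3 : (⟨s.pos, j'⟩ : Pt V J) ∈ B := by
      have h4 : s ∈ Equiv.swap s ⟨s.pos, j'⟩ • B := by rw [hBB']; exact hs
      rw [mem_smul_perm, Equiv.swap_inv, Equiv.swap_apply_left] at h4
      exact h4
    exact hst (hD.inj B hB s hs _ h3 rfl)
  · exact ⟨D, hD, hB⟩

theorem few_moved [Fintype J] (hk : 3 ≤ k) (hJ : 5 ≤ Fintype.card J) {L : Finset V}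
    (hL : 5 ≤ L.card) {D : Finset (Finset (Pt V J))} (hD : IsGDD k L D)
    (c : Equiv.Perm (Pt V J)) (hc : c • D = D) (M : Finset (Pt V J)) (hM : M.card ≤ 4)
    (hfix : ∀ p, p ∉ M → c p = p) (p : Pt V J) (hp : p.pos ∈ L) : c p = p := by
  classical
  by_contra hcp
  have hpM : p ∈ M := by
    by_contra h
    exact hcp (hfix p h)
  obtain ⟨x₁, hx₁, hx₁M⟩ : ∃ x₁ ∈ L, x₁ ∉ M.image Pt.pos := by
    by_contra hcon
    push Not at hcon
    have h1 : L ⊆ M.image Pt.pos := hcon
    have h2 := card_le_card h1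
    have h3 : (M.image Pt.pos).card ≤ M.card := card_image_le
    omega
  have hq : ∀ j : J, (⟨x₁, j⟩ : Pt V J) ∉ M := by
    intro j h
    exact hx₁M (mem_image.2 ⟨_, h, rfl⟩)
  have hpx : p.pos ≠ x₁ := by
    intro h
    exact hx₁M (mem_image.2 ⟨p, hpM, h⟩)
  have hB : ∀ j : J, ∃ B ∈ D, p ∈ B ∧ (⟨x₁, j⟩ : Pt V J) ∈ B := fun j =>
    hD.ex p ⟨x₁, j⟩ hp hx₁ hpx
  choose B hBD hpB hqB using hB
  have hBinj : ∀ j j', B j = B j' → j = j' := by
    intro j j' h
    have h1 := hqB j'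
    rw [← h] at h1
    exact congrArg Pt.lab (hD.inj (B j) (hBD j) _ (hqB j) _ h1 rfl)
  have hs : ∀ j : J, ∃ s ∈ B j, s ≠ p ∧ s ≠ (⟨x₁, j⟩ : Pt V J) := fun j =>
    exists_third hk (hD.card_eq _ (hBD j)) p _
  choose s hsB hsp hsq using hs
  set T := (univ : Finset J).filter (fun j => c p ∉ B j) with hT
  have hTM : T.card ≤ (M.erase p).card := by
    apply card_le_card_of_injOn s
    · intro j hj
      rw [mem_coe, hT, mem_filter] at hj
      rw [mem_coe, mem_erase]
      refine ⟨hsp j, ?_⟩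
      by_contra hsM
      apply hj.2
      have h1 : c • B j ∈ D := by
        rw [← hc]
        exact smul_mem_smul_finset (hBD j)
      have h2 : c • B j = B j := by
        refine hD.uniq _ h1 _ (hBD j) (s j) ⟨x₁, j⟩ (hsq j) ?_ ?_ (hsB j) (hqB j)
        · rw [← hfix (s j) hsM]
          exact smul_mem_smul_finset (hsB j)
        · have h3 := hfix _ (hq j)
          have h4 : c (⟨x₁, j⟩ : Pt V J) ∈ c • B j := smul_mem_smul_finset (hqB j)
          rwa [h3] at h4
      rw [← h2]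
      exact smul_mem_smul_finset (hpB j)
    · intro j hj j' hj' h
      apply hBinj
      have h1 := hsB j'
      rw [← h] at h1
      exact hD.uniq _ (hBD j) _ (hBD j') p (s j) (hsp j).symm (hpB j) (hsB j) (hpB j') h1
  have hTc : ((univ : Finset J).filter (fun j => ¬ (c p ∉ B j))).card ≤ 1 := by
    rw [card_le_one]
    intro j hj j' hj'
    rw [mem_filter, not_not] at hj hj'
    apply hBinj
    exact hD.uniq _ (hBD j) _ (hBD j') p (c p) (Ne.symm hcp) (hpB j) hj.2 (hpB j') hj'.2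
  have hsum := card_filter_add_card_filter_not (s := (univ : Finset J)) (fun j => c p ∉ B j)
  rw [card_univ, ← hT] at hsum
  rw [card_erase_of_mem hpM] at hTM
  omega

theorem rigid [Fintype J] (hk : 3 ≤ k) (hJ : 5 ≤ Fintype.card J) {L : Finset V}
    (hL : 5 ≤ L.card) {D : Finset (Finset (Pt V J))} (hD : IsGDD k L D)
    (ρ : Equiv.Perm (Pt V J))
    (hρ : ∀ D : Finset (Finset (Pt V J)), IsGDD k L D → ρ • D = D) (p : Pt V J)
    (hp : p.pos ∈ L) : ρ p = p := by
  classical
  have key : ∀ b : Pt V J, b.pos = p.pos → b ≠ p → ρ p = p ∨ ρ p = b := by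
    intro b hb hbp
    set c : Equiv.Perm (Pt V J) := ρ⁻¹ * Equiv.swap p b * ρ * Equiv.swap p b with hcdef
    have hc1 : c • D = D := by
      have h1 := hρ _ (hD.swap (a := p) (b := b) hb.symm)
      have h2 := hρ D hD
      have h3 : Equiv.swap p b • Equiv.swap p b • D = D := by
        rw [smul_smul, Equiv.swap_mul_self, one_smul]
      rw [hcdef, mul_smul, mul_smul, mul_smul, h1, h3, inv_smul_eq_iff, h2]
    have hM : ({p, b, ρ⁻¹ p, ρ⁻¹ b} : Finset (Pt V J)).card ≤ 4 := card_le_four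
    have hfix : ∀ z, z ∉ ({p, b, ρ⁻¹ p, ρ⁻¹ b} : Finset (Pt V J)) → c z = z := by
      intro z hz
      rw [mem_insert, mem_insert, mem_insert, mem_singleton] at hz
      push Not at hz
      obtain ⟨h1, h2, h3, h4⟩ := hz
      have h3' : ρ z ≠ p := fun h => h3 (by rw [← h, perm_inv_apply])
      have h4' : ρ z ≠ b := fun h => h4 (by rw [← h, perm_inv_apply])
      rw [hcdef, Equiv.Perm.mul_apply, Equiv.Perm.mul_apply, Equiv.Perm.mul_apply,
        Equiv.swap_apply_of_ne_of_ne h1 h2, Equiv.swap_apply_of_ne_of_ne h3' h4',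
        perm_inv_apply]
    have h5 := few_moved hk hJ hL hD c hc1 _ hM hfix b (by rw [hb]; exact hp)
    rw [hcdef, Equiv.Perm.mul_apply, Equiv.Perm.mul_apply, Equiv.Perm.mul_apply,
      Equiv.swap_apply_right] at h5
    have h6 : Equiv.swap p b (ρ p) = ρ b := by
      rw [← h5, perm_apply_inv]
      rw [h5]
    by_contra hcon
    push Not at hcon
    rw [Equiv.swap_apply_of_ne_of_ne hcon.1 hcon.2] at h6
    exact hbp (ρ.injective h6).symm
  obtain ⟨j₁, hj₁⟩ : ∃ j₁ : J, j₁ ∉ ({p.lab} : Finset J) := by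
    by_contra hcon
    push Not at hcon
    have h1 := card_le_card (fun j _ => hcon j : (univ : Finset J) ⊆ {p.lab})
    rw [card_univ, card_singleton] at h1
    omega
  obtain ⟨j₂, hj₂⟩ : ∃ j₂ : J, j₂ ∉ ({p.lab, j₁} : Finset J) := by
    by_contra hcon
    push Not at hcon
    have h1 := card_le_card (fun j _ => hcon j : (univ : Finset J) ⊆ {p.lab, j₁})
    have h2 := card_le_two (a := p.lab) (b := j₁)
    rw [card_univ] at h1
    omega
  rw [mem_singleton] at hj₁
  rw [mem_insert, mem_singleton] at hj₂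
  push Not at hj₂
  rcases key ⟨p.pos, j₁⟩ rfl (fun h => hj₁ (congrArg Pt.lab h)) with h1 | h1
  · exact h1
  · rcases key ⟨p.pos, j₂⟩ rfl (fun h => hj₂.1 (congrArg Pt.lab h)) with h2 | h2
    · exact h2
    · exact absurd (congrArg Pt.lab (h2.symm.trans h1)) hj₂.2

end rigid

end Pool.Agent.H59.Des
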