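import Pool.Agent.H59.Des.Select

/-!
# The symmetric base blocks
-/

open Finset

namespace Pool.Agent.H59.Des

/-- label of the `r`-th role in the symmetric block indexed by `β`. -/
def slab {w : ℕ} (β : (ZMod w)ˣ × ZMod w) (r : ℕ) : ZMod w := β.1 * (β.2 + (r : ZMod w))

/-- sign of a Boolean. -/
def sgb {p : ℕ} (b : Bool) : ZMod p := if b then 1 else -1

lemma natCast_inj_of_lt {w : ℕ} {r r' : ℕ} (hr : r < w) (hr' : r' < w)
    (h : (r : ZMod w) = (r' : ZMod w)) : r = r' := by
  rw [ZMod.natCast_eq_natCast_iff'] at h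
  rwa [Nat.mod_eq_of_lt hr, Nat.mod_eq_of_lt hr'] at h

lemma slab_inj {w : ℕ} {β : (ZMod w)ˣ × ZMod w} {r r' : ℕ} (hr : r < w)
    (hr' : r' < w) (h : slab β r = slab β r') : r = r' := by
  unfold slab at h
  have h1 := (Units.mul_right_inj β.1).1 h
  exact natCast_inj_of_lt hr hr' (add_left_cancel h1)

lemma slab_det {w : ℕ} [hw : Fact w.Prime] {β β' : (ZMod w)ˣ × ZMod w} {s s' : ℕ} (hs : s < w)
    (hs' : s' < w) (hne : s ≠ s') (h1 : slab β s = slab β' s) (h2 : slab β s' = slab β' s') :
    β = β' := by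
  unfold slab at h1 h2
  have h3 : (β.1 : ZMod w) * ((s : ZMod w) - s') = (β'.1 : ZMod w) * ((s : ZMod w) - s') := by
    linear_combination h1 - h2
  have h4 : (s : ZMod w) - s' ≠ 0 := by
    intro h
    exact hne (natCast_inj_of_lt hs hs' (sub_eq_zero.1 h))
  have h5 : β.1 = β'.1 := Units.ext (mul_right_cancel₀ h4 h3)
  have h6 : β.2 = β'.2 := by
    rw [h5] at h1
    have := (Units.mul_right_inj β'.1).1 h1
    exact add_right_cancel this
  exact Prod.ext h5 h6

theorem exists_sym {p : ℕ} [hp : Fact p.Prime] {w : ℕ} [hw : Fact w.Prime] {n h : ℕ}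
    (hn : 0 < n) (hh : 0 < h) (hnm : p - 1 = n * (h * (w - 1)))
    (hpm : 4 * (h * (w - 1)) ^ 4 ≤ p) (heven : Even n)
    (hw2 : 32 * h ^ 2 * (h + 1) ≤ w - 1) (hn8 : 8 * h ^ 2 ≤ n)
    (E : (ZMod w)ˣ → ℕ → ZMod p)
    (hE : ∀ u, ∀ r < h, ∃ z₀ : ZMod p, z₀ ≠ 0 ∧ z₀ ^ n = E u r)
    (hEb : ∀ u, ∀ r < h, ∀ r' < h, r ≠ r' → 4 * h ^ 2 * bcnt n (E u r / E u r') ≤ n) :
    ∃ x : (ZMod w)ˣ × ZMod w → ℕ → ZMod p,
      (∀ β, ∀ r < h, x β r ^ n = E β.1 r) ∧
      (∀ β, ∀ r < h, ∀ r' < h, r ≠ r' → x β r' - x β r ≠ 0 ∧ x β r' + x β r ≠ 0) ∧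
      (∀ β β', ∀ r < h, ∀ r' < h, r ≠ r' → ∀ s < h, ∀ s' < h, s ≠ s' → ∀ b b' : Bool,
        slab β r = slab β' s → slab β r' = slab β' s' →
        (x β r' + sgb b * x β r) ^ n = (x β' s' + sgb b' * x β' s) ^ n → β = β' ∧ b = b') ∧
      (∀ β, ∀ r < h, ∀ r' < h, r ≠ r' → ∀ b : Bool, ∀ β', ∀ t < h,
        ((slab β r = slab β' h ∧ slab β r' = slab β' t) ∨
          (slab β r = slab β' t ∧ slab β r' = slab β' h)) →
        (x β r' + sgb b * x β r) ^ n ≠ E β'.1 t) := by
  have hw1 : 1 < w := hw.out.one_lt
  have hhw : h < w := by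
    have : h ≤ 32 * h ^ 2 * (h + 1) := by nlinarith
    omega
  suffices H : ∀ T : Finset ((ZMod w)ˣ × ZMod w), ∃ x : (ZMod w)ˣ × ZMod w → ℕ → ZMod p,
      (∀ β ∈ T, ∀ r < h, x β r ^ n = E β.1 r) ∧
      (∀ β ∈ T, ∀ r < h, ∀ r' < h, r ≠ r' → x β r' - x β r ≠ 0 ∧ x β r' + x β r ≠ 0) ∧
      (∀ β ∈ T, ∀ β' ∈ T, ∀ r < h, ∀ r' < h, r ≠ r' → ∀ s < h, ∀ s' < h, s ≠ s' → ∀ b b' : Bool,
        slab β r = slab β' s → slab β r' = slab β' s' →
        (x β r' + sgb b * x β r) ^ n = (x β' s' + sgb b' * x β' s) ^ n → β = β' ∧ b = b') ∧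
      (∀ β ∈ T, ∀ r < h, ∀ r' < h, r ≠ r' → ∀ b : Bool, ∀ β', ∀ t < h,
        ((slab β r = slab β' h ∧ slab β r' = slab β' t) ∨
          (slab β r = slab β' t ∧ slab β r' = slab β' h)) →
        (x β r' + sgb b * x β r) ^ n ≠ E β'.1 t) by
    obtain ⟨x, h1, h2, h3, h4⟩ := H univ
    exact ⟨x, fun β => h1 β (mem_univ _), fun β => h2 β (mem_univ _),
      fun β β' => h3 β (mem_univ _) β' (mem_univ _), fun β => h4 β (mem_univ _)⟩
  intro T
  induction T using Finset.induction_on with
  | empty => exact ⟨fun _ _ => 0, by simp, by simp, by simp, by simp⟩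
  | insert β₀ T hβ₀ ih =>
    obtain ⟨x, h1, h2, h3, h4⟩ := ih
    -- the forbidden classes
    let D : ℕ → ℕ → Finset (((ZMod w)ˣ × ZMod w) × ℕ × ℕ × Bool) := fun r r' =>
      (T ×ˢ range h ×ˢ range h ×ˢ (univ : Finset Bool)).filter (fun z =>
        z.2.1 ≠ z.2.2.1 ∧ slab β₀ r = slab z.1 z.2.1 ∧ slab β₀ r' = slab z.1 z.2.2.1)
    let S1 : ℕ → ℕ → Finset (((ZMod w)ˣ × ZMod w) × ℕ) := fun r r' =>
      ((univ : Finset ((ZMod w)ˣ × ZMod w)) ×ˢ range h).filter (fun z =>
        slab β₀ r = slab z.1 h ∧ slab β₀ r' = slab z.1 z.2)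
    let S2 : ℕ → ℕ → Finset (((ZMod w)ˣ × ZMod w) × ℕ) := fun r r' =>
      ((univ : Finset ((ZMod w)ˣ × ZMod w)) ×ˢ range h).filter (fun z =>
        slab β₀ r = slab z.1 z.2 ∧ slab β₀ r' = slab z.1 h)
    let U : ℕ → ℕ → Finset (ZMod p) := fun r r' =>
      (D r r').image (fun z => (x z.1 z.2.2.1 + sgb z.2.2.2 * x z.1 z.2.1) ^ n) ∪
      ((S1 r r').image (fun z => E z.1.1 z.2) ∪ (S2 r r').image (fun z => E z.1.1 z.2))
    have hUcard : ∀ r r', (U r r').card ≤ 2 * h ^ 2 + 2 * h := by
      intro r r'
      have c1 : (D r r').card ≤ 2 * h ^ 2 := by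
        have : (D r r').card ≤ (range h ×ˢ range h ×ˢ (univ : Finset Bool)).card := by
          apply card_le_card_of_injOn (fun z => z.2)
          · intro z hz
            simp only [D, coe_filter, Set.mem_ofPred_eq, mem_product] at hz
            rw [mem_coe, mem_product, mem_product]
            exact ⟨hz.1.2.1, hz.1.2.2.1, mem_univ _⟩
          · intro z hz z' hz' heq
            simp only [D, coe_filter, Set.mem_ofPred_eq, mem_product, mem_range] at hz hz'
            simp only at heq
            refine Prod.ext ?_ heq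
            apply slab_det (s := z.2.1) (s' := z.2.2.1) (by omega) (by omega) hz.2.1
            · rw [← hz.2.2.1, hz'.2.2.1, heq]
            · rw [← hz.2.2.2, hz'.2.2.2, heq]
        rw [card_product, card_product, card_range, card_univ, Fintype.card_bool] at this
        calc _ ≤ _ := this
          _ = _ := by ring
      have c2 : (S1 r r').card ≤ h := by
        rw [← card_range h]
        apply card_le_card_of_injOn (fun z => z.2)
        · intro z hz
          simp only [S1, coe_filter, Set.mem_ofPred_eq, mem_product] at hz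
          exact hz.1.2
        · intro z hz z' hz' heq
          simp only [S1, coe_filter, Set.mem_ofPred_eq, mem_product, mem_range] at hz hz'
          simp only at heq
          refine Prod.ext ?_ heq
          apply slab_det (s := h) (s' := z.2) hhw (by omega) (by omega)
          · rw [← hz.2.1, hz'.2.1]
          · rw [← hz.2.2, hz'.2.2, heq]
      have c3 : (S2 r r').card ≤ h := by
        rw [← card_range h]
        apply card_le_card_of_injOn (fun z => z.2)
        · intro z hz
          simp only [S2, coe_filter, Set.mem_ofPred_eq, mem_product] at hz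
          exact hz.1.2
        · intro z hz z' hz' heq
          simp only [S2, coe_filter, Set.mem_ofPred_eq, mem_product, mem_range] at hz hz'
          simp only at heq
          refine Prod.ext ?_ heq
          apply slab_det (s := z.2) (s' := h) (by omega) hhw (by omega)
          · rw [← hz.2.1, hz'.2.1, heq]
          · rw [← hz.2.2, hz'.2.2]
      calc (U r r').card ≤ _ := card_union_le _ _
        _ ≤ (D r r').card + ((S1 r r').card + (S2 r r').card) := by
            refine Nat.add_le_add card_image_le ((card_union_le _ _).trans ?_)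
            exact Nat.add_le_add card_image_le card_image_le
        _ ≤ _ := by omega
    have hUK : ∀ r r', ∀ κ' ∈ U r r', ∃ z₀ : ZMod p, z₀ ≠ 0 ∧ z₀ ^ n = κ' := by
      intro r r' κ' hκ'
      simp only [U, mem_union, mem_image] at hκ'
      rcases hκ' with ⟨z, hz, rfl⟩ | ⟨z, hz, rfl⟩ | ⟨z, hz, rfl⟩
      · simp only [D, mem_filter, mem_product, mem_range] at hz
        have := h2 z.1 hz.1.1 z.2.1 hz.1.2.1 z.2.2.1 hz.1.2.2.1 hz.2.1
        refine ⟨_, ?_, rfl⟩
        rcases hb : z.2.2.2 with _ | _
        · simp only [sgb, Bool.false_eq_true, if_false, neg_mul, one_mul]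
          rw [← sub_eq_add_neg]
          exact this.1
        · simp only [sgb, if_true, one_mul]
          exact this.2
      · simp only [S1, mem_filter, mem_product, mem_range] at hz
        exact hE _ _ hz.1.2
      · simp only [S2, mem_filter, mem_product, mem_range] at hz
        exact hE _ _ hz.1.2
    obtain ⟨v, hv1, hv2⟩ := selection hn hh hw1 hnm hpm heven hw2 hn8 (E β₀.1) (hE β₀.1)
      (hEb β₀.1) U hUcard hUK
    have hvU : ∀ r < h, ∀ r' < h, r ≠ r' → ∀ b : Bool, (v r' + sgb b * v r) ^ n ∉ U r r' := by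
      intro r hr r' hr' hne b
      obtain ⟨_, _, _, e4, e5⟩ := hv2 r hr r' hr' hne
      rcases b with _ | _
      · simp only [sgb, Bool.false_eq_true, if_false, neg_mul, one_mul]
        rw [← sub_eq_add_neg]
        exact e4
      · simp only [sgb, if_true, one_mul]
        exact e5
    have hne0 : ∀ β ∈ T, β ≠ β₀ := fun β hβ h => hβ₀ (h ▸ hβ)
    refine ⟨Function.update x β₀ v, ?_, ?_, ?_, ?_⟩
    · intro β hβ r hr
      rcases mem_insert.1 hβ with rfl | hβ
      · rw [Function.update_self]
        exact hv1 r hr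
      · rw [Function.update_of_ne (hne0 β hβ)]
        exact h1 β hβ r hr
    · intro β hβ r hr r' hr' hne
      rcases mem_insert.1 hβ with rfl | hβ
      · rw [Function.update_self]
        exact ⟨(hv2 r hr r' hr' hne).1, (hv2 r hr r' hr' hne).2.1⟩
      · rw [Function.update_of_ne (hne0 β hβ)]
        exact h2 β hβ r hr r' hr' hne
    · intro β hβI β' hβI' r hr r' hr' hne s hs s' hs' hne' b b' hl1 hl2 hcl
      rcases mem_insert.1 hβI with hβe | hβ
      · rcases mem_insert.1 hβI' with hβe' | hβ'
        · subst hβe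
          rw [hβe'] at hl1 hl2 hcl ⊢
          rw [Function.update_self] at hcl
          have e1 : r = s := slab_inj (by omega) (by omega) hl1
          have e2 : r' = s' := slab_inj (by omega) (by omega) hl2
          subst e1 e2
          refine ⟨rfl, ?_⟩
          have h5 := (hv2 r hr r' hr' hne).2.2.1
          rcases b with _ | _ <;> rcases b' with _ | _
          · rfl
          · exfalso
            simp only [sgb, Bool.false_eq_true, if_false, if_true, neg_mul, one_mul] at hcl
            rw [← sub_eq_add_neg] at hcl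
            exact h5 hcl
          · exfalso
            simp only [sgb, Bool.false_eq_true, if_false, if_true, neg_mul, one_mul] at hcl
            rw [← sub_eq_add_neg] at hcl
            exact h5 hcl.symm
          · rfl
        · exfalso
          subst hβe
          rw [Function.update_self, Function.update_of_ne (hne0 β' hβ')] at hcl
          apply hvU r hr r' hr' hne b
          rw [hcl]
          simp only [U, mem_union, mem_image]
          left
          refine ⟨(β', s, s', b'), ?_, rfl⟩
          simp only [D, mem_filter, mem_product, mem_range]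
          exact ⟨⟨hβ', hs, hs', mem_univ _⟩, hne', hl1, hl2⟩
      · rcases mem_insert.1 hβI' with hβe' | hβ'
        · exfalso
          rw [hβe'] at hl1 hl2 hcl
          rw [Function.update_self, Function.update_of_ne (hne0 β hβ)] at hcl
          apply hvU s hs s' hs' hne' b'
          rw [← hcl]
          simp only [U, mem_union, mem_image]
          left
          refine ⟨(β, r, r', b), ?_, rfl⟩
          simp only [D, mem_filter, mem_product, mem_range]
          exact ⟨⟨hβ, hr, hr', mem_univ _⟩, hne, hl1.symm, hl2.symm⟩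
        · rw [Function.update_of_ne (hne0 β hβ), Function.update_of_ne (hne0 β' hβ')] at hcl
          exact h3 β hβ β' hβ' r hr r' hr' hne s hs s' hs' hne' b b' hl1 hl2 hcl
    · intro β hβ r hr r' hr' hne b β' t ht hl
      rcases mem_insert.1 hβ with hβe | hβ
      · subst hβe
        rw [Function.update_self]
        intro hcl
        apply hvU r hr r' hr' hne b
        rw [hcl]
        simp only [U, mem_union, mem_image]
        right
        rcases hl with hl | hl
        · left
          refine ⟨(β', t), ?_, rfl⟩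
          simp only [S1, mem_filter, mem_product, mem_range]
          exact ⟨⟨mem_univ _, ht⟩, hl⟩
        · right
          refine ⟨(β', t), ?_, rfl⟩
          simp only [S2, mem_filter, mem_product, mem_range]
          exact ⟨⟨mem_univ _, ht⟩, hl⟩
      · rw [Function.update_of_ne (hne0 β hβ)]
        exact h4 β hβ r hr r' hr' hne b β' t ht hl

end Pool.Agent.H59.Des
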