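import Pool.Agent.H59.Des.Reps

/-!
# Selection of the entries of a symmetric base block
-/

open Finset

namespace Pool.Agent.H59.Des

lemma pair_count {F : Type*} [DecidableEq F] {h n : ℕ} (C : Fin h → Finset F)
    (hC : ∀ r, (C r).card = n) {r r' : Fin h} (hne : r ≠ r') (S : Finset (F × F))
    (hS : S ⊆ C r ×ˢ C r') :
    ((Fintype.piFinset C).filter (fun v => (v r, v r') ∈ S)).card * n ^ 2 ≤ S.card * n ^ h := by
  have h1 : (((Fintype.piFinset C).filter (fun v => (v r, v r') ∈ S)) ×ˢ (C r ×ˢ C r')).card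
      ≤ (S ×ˢ (Fintype.piFinset C)).card := by
    apply card_le_card_of_injOn (fun x => ((x.1 r, x.1 r'),
      Function.update (Function.update x.1 r x.2.1) r' x.2.2))
    · rintro ⟨v, a, b⟩ hx
      rw [mem_coe, mem_product, mem_filter, mem_product] at hx
      obtain ⟨⟨hv, hvS⟩, ha, hb⟩ := hx
      rw [mem_coe, mem_product]
      refine ⟨hvS, ?_⟩
      rw [Fintype.mem_piFinset] at hv ⊢
      intro s
      by_cases hs : s = r'
      · subst hs
        simpa using hb
      · simp only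
        rw [Function.update_of_ne hs]
        by_cases hs' : s = r
        · subst hs'
          rw [Function.update_self]
          exact ha
        · rw [Function.update_of_ne hs']
          exact hv s
    · rintro ⟨v, a, b⟩ _ ⟨v', a', b'⟩ _ heq
      simp only [Prod.mk.injEq] at heq
      obtain ⟨⟨e1, e2⟩, e3⟩ := heq
      have e4 : ∀ s, s ≠ r → s ≠ r' → v s = v' s := by
        intro s hs hs'
        have := congrFun e3 s
        rwa [Function.update_of_ne hs', Function.update_of_ne hs', Function.update_of_ne hs,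
          Function.update_of_ne hs] at this
      have e5 : b = b' := by
        have := congrFun e3 r'
        simpa using this
      have e6 : a = a' := by
        have := congrFun e3 r
        rwa [Function.update_of_ne hne, Function.update_of_ne hne, Function.update_self,
          Function.update_self] at this
      have e7 : v = v' := by
        funext s
        by_cases hs : s = r
        · rw [hs]; exact e1
        · by_cases hs' : s = r'
          · rw [hs']; exact e2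
          · exact e4 s hs hs'
      rw [e5, e6, e7]
  rw [card_product, card_product, card_product, Fintype.card_piFinset, hC, hC] at h1
  simp only [hC, prod_const, card_univ, Fintype.card_fin] at h1
  rw [sq]
  exact h1

variable {p : ℕ} [hp : Fact p.Prime]

lemma mixing_upper {n m : ℕ} (hn : 0 < n) (hm : 0 < m) (hnm : p - 1 = n * m)
    (hpm : 4 * m ^ 4 ≤ p) {κ₁ κ₂ κ : ZMod p} (h₁ : ∃ z₀ : ZMod p, z₀ ≠ 0 ∧ z₀ ^ n = κ₁)
    (h₂ : ∃ z₀ : ZMod p, z₀ ≠ 0 ∧ z₀ ^ n = κ₂) (h₃ : ∃ z₀ : ZMod p, z₀ ≠ 0 ∧ z₀ ^ n = κ) :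
    (((Cls n κ₁ ×ˢ Cls n κ₂).filter (fun z => (z.2 - z.1) ^ n = κ)).card : ℝ)
      ≤ 2 * n ^ 2 / m := by
  have hC : ∀ κ : ZMod p, (∃ z₀ : ZMod p, z₀ ≠ 0 ∧ z₀ ^ n = κ) → (Cls n κ).card = n := by
    rintro κ ⟨z₀, h0, rfl⟩
    exact card_Cls_pow hnm hn hm h0
  have hmix := mixing hn (card_Cls_one hnm hn hm) κ (hC κ h₃) (Cls n κ₁) (Cls n κ₂)
  rw [hC κ₁ h₁, hC κ₂ h₂] at hmix
  have hup := (abs_le.1 hmix).2
  have hnR : (0 : ℝ) < n := by exact_mod_cast hn
  have hmR : (0 : ℝ) < m := by exact_mod_cast hm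
  have hpR : (0 : ℝ) < p := by exact_mod_cast hp.out.pos
  have hnmR : (p : ℝ) - 1 = n * m := by
    have : ((p - 1 : ℕ) : ℝ) = n * m := by rw [hnm]; push_cast; ring
    rw [Nat.cast_sub hp.out.one_lt.le] at this
    simpa using this
  have hp2 : (2 : ℝ) ≤ p := by exact_mod_cast hp.out.two_le
  have hpmR : 4 * (m : ℝ) ^ 4 ≤ p := by exact_mod_cast hpm
  have e1 : (n : ℝ) * n * n / p ≤ n ^ 2 / m := by
    rw [div_le_div_iff₀ hpR hmR]
    have : (n : ℝ) * m ≤ p := by linarith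
    calc (n : ℝ) * n * n * m = n ^ 2 * (n * m) := by ring
      _ ≤ n ^ 2 * p := by gcongr
  have e2 : Real.sqrt (p * n * n) ≤ n ^ 2 / m := by
    apply Real.sqrt_le_iff.2
    refine ⟨by positivity, ?_⟩
    rw [div_pow, le_div_iff₀ (by positivity)]
    have h1 : (p : ℝ) * m ^ 4 ≤ (p - 1) ^ 2 := by
      nlinarith
    have h2 : (p : ℝ) * m ^ 4 ≤ (n * m) ^ 2 := by rw [← hnmR]; exact h1
    have h3 : (p : ℝ) * (m : ℝ) ^ 2 ≤ (n : ℝ) ^ 2 := by
      have hm2 : (0 : ℝ) < (m : ℝ) ^ 2 := by positivity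
      have h4 : ((p : ℝ) * (m : ℝ) ^ 2) * (m : ℝ) ^ 2 ≤ (n : ℝ) ^ 2 * (m : ℝ) ^ 2 := by
        calc ((p : ℝ) * (m : ℝ) ^ 2) * (m : ℝ) ^ 2 = (p : ℝ) * (m : ℝ) ^ 4 := by ring
          _ ≤ ((n : ℝ) * m) ^ 2 := h2
          _ = _ := by ring
      exact le_of_mul_le_mul_right h4 hm2
    calc (p : ℝ) * n * n * (m : ℝ) ^ 2 = (n : ℝ) ^ 2 * ((p : ℝ) * (m : ℝ) ^ 2) := by ring
      _ ≤ (n : ℝ) ^ 2 * (n : ℝ) ^ 2 := by gcongr
      _ = _ := by ring
  have e3 : (2 : ℝ) * n ^ 2 / m = n ^ 2 / m + n ^ 2 / m := by ring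
  rw [e3]
  linarith

/-- **Selection lemma.** -/
theorem selection {n h w : ℕ} (hn : 0 < n) (hh : 0 < h) (hw : 1 < w)
    (hnm : p - 1 = n * (h * (w - 1))) (hpm : 4 * (h * (w - 1)) ^ 4 ≤ p)
    (heven : Even n) (hw2 : 32 * h ^ 2 * (h + 1) ≤ w - 1) (hn8 : 8 * h ^ 2 ≤ n)
    (κ : ℕ → ZMod p) (hκ : ∀ r < h, ∃ z₀ : ZMod p, z₀ ≠ 0 ∧ z₀ ^ n = κ r)
    (hb : ∀ r < h, ∀ r' < h, r ≠ r' → 4 * h ^ 2 * bcnt n (κ r / κ r') ≤ n)
    (U : ℕ → ℕ → Finset (ZMod p)) (hU : ∀ r r', (U r r').card ≤ 2 * h ^ 2 + 2 * h)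
    (hUK : ∀ r r', ∀ κ' ∈ U r r', ∃ z₀ : ZMod p, z₀ ≠ 0 ∧ z₀ ^ n = κ') :
    ∃ v : ℕ → ZMod p, (∀ r < h, v r ^ n = κ r) ∧
      ∀ r < h, ∀ r' < h, r ≠ r' → v r' - v r ≠ 0 ∧ v r' + v r ≠ 0 ∧
        (v r' - v r) ^ n ≠ (v r' + v r) ^ n ∧
        (v r' - v r) ^ n ∉ U r r' ∧ (v r' + v r) ^ n ∉ U r r' := by
  set m := h * (w - 1) with hm
  have hm0 : 0 < m := Nat.mul_pos hh (by omega)
  have hnR : (0 : ℝ) < n := by exact_mod_cast hn
  have hmR : (0 : ℝ) < m := by exact_mod_cast hm0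
  have hhR : (0 : ℝ) < h := by exact_mod_cast hh
  let C : Fin h → Finset (ZMod p) := fun r => Cls n (κ r)
  have hC : ∀ r, (C r).card = n := by
    intro r
    obtain ⟨z₀, h0, h1⟩ := hκ r r.2
    simp only [C]
    rw [← h1]
    exact card_Cls_pow hnm hn hm0 h0
  let S : Fin h → Fin h → Finset (ZMod p × ZMod p) := fun r r' => (C r ×ˢ C r').filter
    (fun z => z.2 - z.1 = 0 ∨ z.2 + z.1 = 0 ∨ (z.2 - z.1) ^ n = (z.2 + z.1) ^ n ∨
      (z.2 - z.1) ^ n ∈ U r r' ∨ (z.2 + z.1) ^ n ∈ U r r')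
  have hSsub : ∀ r r', S r r' ⊆ C r ×ˢ C r' := fun r r' => filter_subset _ _
  have hScard : ∀ r r' : Fin h, r ≠ r' → (h : ℝ) ^ 2 * (S r r').card ≤ 3 / 4 * n ^ 2 := by
    intro r r' hne
    have hne' : (r : ℕ) ≠ r' := fun h => hne (Fin.ext h)
    have b0 : ∀ r : Fin h, ∀ a ∈ C r, a ≠ 0 := by
      intro r a ha h0
      obtain ⟨z₀, h1, h2⟩ := hκ r r.2
      simp only [C, mem_Cls] at ha
      rw [h0, zero_pow hn.ne', ← h2] at ha
      exact pow_ne_zero _ h1 ha.symm
    let S1 := (C r ×ˢ C r').filter (fun z => z.2 - z.1 = 0)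
    let S2 := (C r ×ˢ C r').filter (fun z => z.2 + z.1 = 0)
    let S3 := (C r ×ˢ C r').filter (fun z => (z.2 - z.1) ^ n = (z.2 + z.1) ^ n)
    let S4 := (U r r').biUnion (fun κ' => (C r ×ˢ C r').filter (fun z => (z.2 - z.1) ^ n = κ'))
    let S5 := (U r r').biUnion (fun κ' => (C r ×ˢ C r').filter (fun z => (z.2 + z.1) ^ n = κ'))
    have c1 : S1.card ≤ n := by
      rw [← hC r]
      apply card_le_card_of_injOn Prod.fst
      · intro z hz
        exact (mem_product.1 (mem_filter.1 hz).1).1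
      · intro z hz z' hz' heq
        rw [mem_coe, mem_filter] at hz hz'
        refine Prod.ext heq ?_
        have h1 := hz.2
        have h2 := hz'.2
        rw [sub_eq_zero] at h1 h2
        rw [h1, h2, heq]
    have c2 : S2.card ≤ n := by
      rw [← hC r]
      apply card_le_card_of_injOn Prod.fst
      · intro z hz
        exact (mem_product.1 (mem_filter.1 hz).1).1
      · intro z hz z' hz' heq
        rw [mem_coe, mem_filter] at hz hz'
        refine Prod.ext heq ?_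
        have h1 := hz.2
        have h2 := hz'.2
        rw [add_eq_zero_iff_eq_neg] at h1 h2
        rw [h1, h2, heq]
    have c3 : S3.card ≤ n * bcnt n (κ r / κ r') := by
      have : S3.card ≤ (C r' ×ˢ ((univ : Finset (ZMod p)).filter
          (fun z => z ^ n = κ r / κ r' ∧ (1 - z) ^ n = (1 + z) ^ n))).card := by
        apply card_le_card_of_injOn (fun z => (z.2, z.1 / z.2))
        · intro z hz
          rw [mem_coe, mem_filter, mem_product] at hz
          obtain ⟨⟨h1, h2⟩, h3⟩ := hz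
          have h4 := b0 _ _ h2
          rw [mem_coe, mem_product, mem_filter]
          refine ⟨h2, mem_univ _, ?_, ?_⟩
          · simp only [C, mem_Cls] at h1 h2
            simp only
            rw [div_pow, h1, h2]
          · have e1 : 1 - z.1 / z.2 = (z.2 - z.1) / z.2 := by field_simp
            have e2 : 1 + z.1 / z.2 = (z.2 + z.1) / z.2 := by field_simp
            simp only
            rw [e1, e2, div_pow, div_pow, h3]
        · intro z hz z' hz' heq
          rw [mem_coe, mem_filter, mem_product] at hz hz'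
          have h4 := b0 _ _ hz.1.2
          simp only [Prod.mk.injEq] at heq
          obtain ⟨e1, e2⟩ := heq
          rw [← e1] at e2
          refine Prod.ext ?_ e1
          exact (div_left_inj' h4).1 e2
      rw [card_product, hC] at this
      exact this
    have c4 : (S4.card : ℝ) ≤ (2 * h ^ 2 + 2 * h) * (2 * n ^ 2 / m) := by
      calc (S4.card : ℝ) ≤ ∑ κ' ∈ U r r', (((C r ×ˢ C r').filter
            (fun z => (z.2 - z.1) ^ n = κ')).card : ℝ) := by exact_mod_cast card_biUnion_le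
        _ ≤ ∑ κ' ∈ U r r', (2 * n ^ 2 / m : ℝ) := by
            apply sum_le_sum
            intro κ' hκ'
            exact mixing_upper hn hm0 hnm hpm (hκ r r.2) (hκ r' r'.2) (hUK r r' κ' hκ')
        _ = (U r r').card * (2 * n ^ 2 / m : ℝ) := by rw [sum_const, nsmul_eq_mul]
        _ ≤ _ := by
            apply mul_le_mul_of_nonneg_right _ (by positivity)
            exact_mod_cast hU r r'
    have c5 : (S5.card : ℝ) ≤ (2 * h ^ 2 + 2 * h) * (2 * n ^ 2 / m) := by
      calc (S5.card : ℝ) ≤ ∑ κ' ∈ U r r', (((C r ×ˢ C r').filter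
            (fun z => (z.2 + z.1) ^ n = κ')).card : ℝ) := by exact_mod_cast card_biUnion_le
        _ ≤ ∑ κ' ∈ U r r', (2 * n ^ 2 / m : ℝ) := by
            apply sum_le_sum
            intro κ' hκ'
            refine le_trans ?_ (mixing_upper hn hm0 hnm hpm (hκ r r.2) (hκ r' r'.2)
              (hUK r r' κ' hκ'))
            have : ((C r ×ˢ C r').filter (fun z => (z.2 + z.1) ^ n = κ')).card
                ≤ ((Cls n (κ r) ×ˢ Cls n (κ r')).filter (fun z => (z.2 - z.1) ^ n = κ')).card := by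
              apply card_le_card_of_injOn (fun z => (-z.1, z.2))
              · intro z hz
                rw [mem_coe, mem_filter, mem_product] at hz ⊢
                simp only [C, mem_Cls] at hz ⊢
                refine ⟨⟨by rw [heven.neg_pow]; exact hz.1.1, hz.1.2⟩, ?_⟩
                rw [sub_neg_eq_add]
                exact hz.2
              · intro z _ z' _ heq
                simp only [Prod.mk.injEq, neg_inj] at heq
                exact Prod.ext heq.1 heq.2
            exact_mod_cast this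
        _ = (U r r').card * (2 * n ^ 2 / m : ℝ) := by rw [sum_const, nsmul_eq_mul]
        _ ≤ _ := by
            apply mul_le_mul_of_nonneg_right _ (by positivity)
            exact_mod_cast hU r r'
    have hsub : S r r' ⊆ S1 ∪ (S2 ∪ (S3 ∪ (S4 ∪ S5))) := by
      intro z hz
      simp only [S, mem_filter] at hz
      obtain ⟨h1, h2⟩ := hz
      simp only [mem_union, S1, S2, S3, S4, S5, mem_filter, mem_biUnion]
      rcases h2 with h2 | h2 | h2 | h2 | h2
      · exact Or.inl ⟨h1, h2⟩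
      · exact Or.inr (Or.inl ⟨h1, h2⟩)
      · exact Or.inr (Or.inr (Or.inl ⟨h1, h2⟩))
      · exact Or.inr (Or.inr (Or.inr (Or.inl ⟨_, h2, h1, rfl⟩)))
      · exact Or.inr (Or.inr (Or.inr (Or.inr ⟨_, h2, h1, rfl⟩)))
    have hcard : ((S r r').card : ℝ) ≤ S1.card + (S2.card + (S3.card + (S4.card + S5.card))) := by
      have h1 := card_le_card hsub
      have h2 := card_union_le S1 (S2 ∪ (S3 ∪ (S4 ∪ S5)))
      have h3 := card_union_le S2 (S3 ∪ (S4 ∪ S5))
      have h4 := card_union_le S3 (S4 ∪ S5)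
      have h5 := card_union_le S4 S5
      have : (S r r').card ≤ S1.card + (S2.card + (S3.card + (S4.card + S5.card))) := by omega
      exact_mod_cast this
    have hbne := hb r r.2 r' r'.2 hne'
    have d1 : (h : ℝ) ^ 2 * (S1.card + S2.card) ≤ n ^ 2 / 4 := by
      have e1 : ((S1.card : ℝ) + S2.card) ≤ 2 * n := by
        have : S1.card + S2.card ≤ 2 * n := by omega
        exact_mod_cast this
      have e2 : 8 * (h : ℝ) ^ 2 ≤ n := by exact_mod_cast hn8
      calc (h : ℝ) ^ 2 * (S1.card + S2.card) ≤ h ^ 2 * (2 * n) := by gcongr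
        _ = (8 * (h : ℝ) ^ 2) * n / 4 := by ring
        _ ≤ n * n / 4 := by gcongr
        _ = _ := by ring
    have d2 : (h : ℝ) ^ 2 * S3.card ≤ n ^ 2 / 4 := by
      have e1 : (S3.card : ℝ) ≤ n * bcnt n (κ r / κ r') := by exact_mod_cast c3
      have e2 : 4 * (h : ℝ) ^ 2 * bcnt n (κ r / κ r') ≤ n := by exact_mod_cast hbne
      calc (h : ℝ) ^ 2 * S3.card ≤ h ^ 2 * (n * bcnt n (κ r / κ r')) := by gcongr
        _ = n * (4 * (h : ℝ) ^ 2 * bcnt n (κ r / κ r')) / 4 := by ring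
        _ ≤ n * n / 4 := by gcongr
        _ = _ := by ring
    have d3 : (h : ℝ) ^ 2 * (S4.card + S5.card) ≤ n ^ 2 / 4 := by
      have e1 : ((S4.card : ℝ) + S5.card) ≤ 2 * ((2 * h ^ 2 + 2 * h) * (2 * n ^ 2 / m)) := by
        linarith
      have e2 : 32 * (h : ℝ) ^ 2 * (h + 1) ≤ ((w - 1 : ℕ) : ℝ) := by exact_mod_cast hw2
      have e3 : (m : ℝ) = h * ((w - 1 : ℕ) : ℝ) := by rw [hm]; push_cast; ring
      have hw1 : (0 : ℝ) < ((w - 1 : ℕ) : ℝ) := by
        have : 0 < w - 1 := by omega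
        exact_mod_cast this
      calc (h : ℝ) ^ 2 * (S4.card + S5.card)
          ≤ h ^ 2 * (2 * ((2 * h ^ 2 + 2 * h) * (2 * n ^ 2 / m))) := by gcongr
        _ = (32 * (h : ℝ) ^ 2 * (h + 1)) * n ^ 2 / (4 * ((w - 1 : ℕ) : ℝ)) := by
            rw [e3]; field_simp; ring
        _ ≤ ((w - 1 : ℕ) : ℝ) * n ^ 2 / (4 * ((w - 1 : ℕ) : ℝ)) := by gcongr
        _ = _ := by field_simp
    calc (h : ℝ) ^ 2 * (S r r').card
        ≤ h ^ 2 * (S1.card + (S2.card + (S3.card + (S4.card + S5.card)))) := by gcongr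
      _ = (h : ℝ) ^ 2 * (S1.card + S2.card) + h ^ 2 * S3.card + h ^ 2 * (S4.card + S5.card) := by ring
      _ ≤ n ^ 2 / 4 + n ^ 2 / 4 + n ^ 2 / 4 := by linarith
      _ = _ := by ring
  -- counting
  let Bad : Finset (Fin h → ZMod p) := (univ : Finset (Fin h)).offDiag.biUnion
    (fun x => (Fintype.piFinset C).filter (fun v => (v x.1, v x.2) ∈ S x.1 x.2))
  have hBad : Bad.card < (Fintype.piFinset C).card := by
    have hpi : (Fintype.piFinset C).card = n ^ h := by
      rw [Fintype.card_piFinset]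
      simp only [hC, prod_const, card_univ, Fintype.card_fin]
    rw [hpi]
    have e1 : Bad.card * n ^ 2 ≤ ∑ x ∈ (univ : Finset (Fin h)).offDiag, (S x.1 x.2).card * n ^ h := by
      calc Bad.card * n ^ 2 ≤ (∑ x ∈ (univ : Finset (Fin h)).offDiag,
            ((Fintype.piFinset C).filter (fun v => (v x.1, v x.2) ∈ S x.1 x.2)).card) * n ^ 2 :=
            Nat.mul_le_mul_right _ card_biUnion_le
        _ = ∑ x ∈ (univ : Finset (Fin h)).offDiag,
            ((Fintype.piFinset C).filter (fun v => (v x.1, v x.2) ∈ S x.1 x.2)).card * n ^ 2 := by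
            rw [sum_mul]
        _ ≤ _ := by
            apply sum_le_sum
            intro x hx
            rw [mem_offDiag] at hx
            exact pair_count C hC hx.2.2 _ (hSsub _ _)
    have e2 : (h : ℝ) ^ 2 * (Bad.card * n ^ 2) ≤ (h * h - h) * (3 / 4 * n ^ 2) * n ^ h := by
      have e3 : ((Bad.card * n ^ 2 : ℕ) : ℝ)
          ≤ ∑ x ∈ (univ : Finset (Fin h)).offDiag, ((S x.1 x.2).card : ℝ) * n ^ h := by
        exact_mod_cast e1
      calc (h : ℝ) ^ 2 * (Bad.card * n ^ 2) = h ^ 2 * ((Bad.card * n ^ 2 : ℕ) : ℝ) := by push_cast; ring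
        _ ≤ h ^ 2 * ∑ x ∈ (univ : Finset (Fin h)).offDiag, ((S x.1 x.2).card : ℝ) * n ^ h := by
            gcongr
        _ = ∑ x ∈ (univ : Finset (Fin h)).offDiag, (h ^ 2 * ((S x.1 x.2).card : ℝ)) * n ^ h := by
            rw [mul_sum]
            apply sum_congr rfl
            intro x _
            ring
        _ ≤ ∑ x ∈ (univ : Finset (Fin h)).offDiag, (3 / 4 * (n : ℝ) ^ 2) * n ^ h := by
            apply sum_le_sum
            intro x hx
            rw [mem_offDiag] at hx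
            have := hScard x.1 x.2 hx.2.2
            gcongr
        _ = _ := by
            rw [sum_const, offDiag_card, card_univ, Fintype.card_fin, nsmul_eq_mul]
            rw [Nat.cast_sub (Nat.le_mul_self h)]
            push_cast
            ring
    have e4 : (Bad.card : ℝ) < (n : ℝ) ^ h := by
      have hpos : (0 : ℝ) < (h : ℝ) ^ 2 * (n : ℝ) ^ 2 := by positivity
      have hnh : (0 : ℝ) < (n : ℝ) ^ h := by positivity
      have e5 : ((h : ℝ) * h - h) * (3 / 4 * (n : ℝ) ^ 2) < (h : ℝ) ^ 2 * (n : ℝ) ^ 2 := by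
        have h1 : (0 : ℝ) < (n : ℝ) ^ 2 := by positivity
        nlinarith [mul_pos hhR h1, mul_pos (mul_pos hhR hhR) h1]
      have e6 : ((h : ℝ) * h - h) * (3 / 4 * (n : ℝ) ^ 2) * (n : ℝ) ^ h
          < (h : ℝ) ^ 2 * (n : ℝ) ^ 2 * (n : ℝ) ^ h := mul_lt_mul_of_pos_right e5 hnh
      have e7 : ((h : ℝ) ^ 2 * (n : ℝ) ^ 2) * (Bad.card : ℝ)
          < ((h : ℝ) ^ 2 * (n : ℝ) ^ 2) * (n : ℝ) ^ h := by
        calc ((h : ℝ) ^ 2 * (n : ℝ) ^ 2) * (Bad.card : ℝ)
            = (h : ℝ) ^ 2 * (Bad.card * (n : ℝ) ^ 2) := by ring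
          _ ≤ _ := e2
          _ < _ := e6
      exact lt_of_mul_lt_mul_left e7 hpos.le
    exact_mod_cast e4
  obtain ⟨v, hv, hvB⟩ := exists_mem_notMem_of_card_lt_card hBad
  rw [Fintype.mem_piFinset] at hv
  refine ⟨fun r => if hr : r < h then v ⟨r, hr⟩ else 0, ?_, ?_⟩
  · intro r hr
    simp only [dif_pos hr]
    exact mem_Cls.1 (hv ⟨r, hr⟩)
  · intro r hr r' hr' hne
    simp only [dif_pos hr, dif_pos hr']
    have h1 : (v ⟨r, hr⟩, v ⟨r', hr'⟩) ∉ S ⟨r, hr⟩ ⟨r', hr'⟩ := by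
      intro hS
      apply hvB
      rw [mem_biUnion]
      refine ⟨(⟨r, hr⟩, ⟨r', hr'⟩), ?_, ?_⟩
      · rw [mem_offDiag]
        exact ⟨mem_univ _, mem_univ _, fun h => hne (congrArg Fin.val h)⟩
      · rw [mem_filter, Fintype.mem_piFinset]
        exact ⟨hv, hS⟩
    simp only [S, mem_filter, mem_product, not_and, not_or] at h1
    have h2 := h1 ⟨hv _, hv _⟩
    exact ⟨h2.1, h2.2.1, h2.2.2.1, h2.2.2.2.1, h2.2.2.2.2⟩

end Pool.Agent.H59.Des
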