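import Pool.Agent.H59.Des.Pairs
import Pool.Agent.H59.Des.Count

/-!
# Existence of a design with no automorphisms outside the group
-/

open Finset
open scoped Pointwise

namespace Pool.Agent.H59.Des

section union

variable {F V J : Type*} [Field F] [Fintype F] [AddCommGroup V] [Module F V] [DecidableEq V]
  [DecidableEq J] [Fintype V] [Fintype J] {k : ℕ} {G : Type*} [Group G] [DistribMulAction G V]
  [SMulCommClass G F V]

noncomputable instance instFintypeOm (M : Orb F V G) : Fintype (Om J k M) := by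
  classical
  unfold Om
  exact Fintype.ofFinite _

lemma card_Om_le (M : Orb F V G) :
    Fintype.card (Om J k M) ≤ 2 ^ (2 ^ (Fintype.card F * Fintype.card J)) := by
  classical
  set T : Finset (Pt V J) := (univ : Finset (Pt V J)).filter (fun p => p.pos ∈ (rep M).pts)
    with hT
  have hTc : T.card ≤ Fintype.card F * Fintype.card J := by
    rw [← (rep M).card, ← card_univ (α := J), ← card_product]
    apply card_le_card_of_injOn (fun p => (p.pos, p.lab))
    · intro p hp
      rw [mem_coe, hT, mem_filter] at hp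
      rw [mem_coe, mem_product]
      exact ⟨hp.2, mem_univ _⟩
    · intro p _ r _ h
      exact Pt.ext (congrArg Prod.fst h) (congrArg Prod.snd h)
  have h1 : Fintype.card (Om J k M) ≤ T.powerset.powerset.card := by
    rw [← card_univ]
    apply card_le_card_of_injOn (fun D => D.1)
    · intro D _
      rw [mem_coe, mem_powerset]
      intro B hB
      rw [mem_powerset]
      intro p hp
      rw [hT, mem_filter]
      exact ⟨mem_univ _, D.2.1.sub B hB p hp⟩
    · intro D _ D' _ h
      exact Subtype.ext h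
  rw [card_powerset, card_powerset] at h1
  refine h1.trans ?_
  exact Nat.pow_le_pow_right (by norm_num) (Nat.pow_le_pow_right (by norm_num) hTc)

theorem exists_rigid [Fintype G] [DecidableEq F] (hk : 3 ≤ k) (hJ : 5 ≤ Fintype.card J)
    (hF : 5 ≤ Fintype.card F) {𝒱 : Finset (Finset J)} (h𝒱 : IsDes k 𝒱)
    (hex : ∀ L : Lin F V, ∃ D' : Finset (Finset (Pt V J)), IsGDD k L.pts D' ∧
      ∀ g : G, g • L = L → (Des.gam g : Equiv.Perm (Pt V J)) • D' = D')
    {Φ : ℕ} (hΦ : ∀ g : G, g ≠ 1 → ((univ : Finset V).filter (fun x => g • x = x)).card ≤ Φ)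
    (hv : 2 * k ≤ Fintype.card V * Fintype.card J) (s₀ N : ℕ) (hN1 : 1 ≤ N)
    (hN : 2 ^ (2 ^ (Fintype.card F * Fintype.card J)) ≤ N)
    (hs₀ : 4 * (Fintype.card V + Fintype.card G * (Fintype.card F * Fintype.card F) *
      (Φ * Fintype.card V) + (s₀ * Fintype.card G) *
      (Fintype.card F * Fintype.card F)) < Fintype.card V * Fintype.card V)
    (hfin : ∀ s, s₀ < 2 * s → (Fintype.card V * Fintype.card J).factorial * (N - 1) ^ s < N ^ s) :
    ∃ y : (∀ M : Orb F V G, Om J k M), ∀ τ : Equiv.Perm (Pt V J),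
      τ • desOf 𝒱 (fam y) = desOf 𝒱 (fam y) → ∃ g : G, τ = gam g := by
  classical
  by_contra hcon
  push Not at hcon
  haveI hneOm : ∀ M : Orb F V G, Nonempty (Om J k M) := by
    intro M
    obtain ⟨D, h1, h2⟩ := hex (rep M)
    exact ⟨⟨D, h1, h2⟩⟩
  haveI : Fintype (Orb F V G) := by
    haveI : Finite (Lin F V) := inferInstance
    exact Fintype.ofFinite _
  have hN' : ∀ M : Orb F V G, Fintype.card (Om J k M) ≤ N := fun M => (card_Om_le M).trans hN
  set Ωc := Fintype.card (∀ M : Orb F V G, Om J k M) with hΩc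
  have hΩ0 : 0 < Ωc := Fintype.card_pos
  set X : Finset (Equiv.Perm (Pt V J)) := univ.filter (fun τ =>
    s₀ < (badOrb τ : Finset (Orb F V G)).card) with hX
  let C : Equiv.Perm (Pt V J) → Finset (∀ M : Orb F V G, Om J k M) := fun τ =>
    univ.filter (fun y => τ • desOf 𝒱 (fam y) = desOf 𝒱 (fam y))
  have hcover : (univ : Finset (∀ M : Orb F V G, Om J k M)) ⊆ X.biUnion C := by
    intro y _
    obtain ⟨τ, h1, h2⟩ := hcon y
    refine mem_biUnion.2 ⟨τ, ?_, mem_filter.2 ⟨mem_univ _, h1⟩⟩
    rw [hX, mem_filter]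
    refine ⟨mem_univ _, ?_⟩
    by_contra hle
    push Not at hle
    obtain ⟨g, hg⟩ := mem_of_few hk h𝒱 hΦ y τ h1 (by omega) hv (by
      refine lt_of_le_of_lt ?_ hs₀
      apply Nat.mul_le_mul_left
      apply Nat.add_le_add_left
      apply Nat.mul_le_mul_right
      exact Nat.mul_le_mul_right _ hle)
    exact h2 g hg
  have hC : ∀ τ ∈ X, Fintype.card (Equiv.Perm (Pt V J)) * (C τ).card < Ωc := by
    intro τ hτ
    rw [hX, mem_filter] at hτ
    have hsel : ∀ M : Orb F V G, ∃ (d : Orb F V G) (f : (∀ M : Orb F V G, Om J k M) → Om J k M),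
        M ∈ (badOrb τ : Finset (Orb F V G)) → (∀ y c, f (Function.update y M c) = f y) ∧
          (∀ j, j ≠ d → ∀ y c, f (Function.update y j c) = f y) ∧
          ∀ y : (∀ M : Orb F V G, Om J k M),
            τ • desOf 𝒱 (fam y) = desOf 𝒱 (fam y) → y M ≠ f y := by
      intro M
      by_cases hM : M ∈ (badOrb τ : Finset (Orb F V G))
      · obtain ⟨L, rfl, hgen, hnf⟩ := mem_badOrb.1 hM
        obtain ⟨d, f, h1, h2, h3⟩ := constraint hk hJ hF h𝒱
          (fun L => ⟨(hex L).choose, (hex L).choose_spec.1⟩) τ hgen hnf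
        exact ⟨d, f, fun _ => ⟨fun y c => h1 y c, fun j hj y c => h2 j hj y c, h3⟩⟩
      · exact ⟨M, fun y => y M, fun h => absurd h hM⟩
    choose d f hf using hsel
    obtain ⟨s, hs1, hs2⟩ := count_half hN1 hN' (badOrb τ : Finset (Orb F V G)) f d
      (fun M hM => (hf M hM).1) (fun M hM => (hf M hM).2.1)
    have hsub : C τ ⊆ (univ : Finset (∀ M : Orb F V G, Om J k M)).filter
        (fun y => ∀ M ∈ (badOrb τ : Finset (Orb F V G)), y M ≠ f M y) := by
      intro y hy
      simp only [C, mem_filter] at hy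
      rw [mem_filter]
      exact ⟨mem_univ _, fun M hM => (hf M hM).2.2 y hy.2⟩
    have h4 := card_le_card hsub
    have h5 : N ^ s * (C τ).card ≤ (N - 1) ^ s * Ωc := le_trans (Nat.mul_le_mul_left _ h4) hs2
    have h6 := hfin s (by omega)
    have h7 : Fintype.card (Equiv.Perm (Pt V J))
        = (Fintype.card V * Fintype.card J).factorial := by
      rw [Fintype.card_perm, card_Pt]
    rw [h7]
    set v! := (Fintype.card V * Fintype.card J).factorial with hv!
    have h8 : N ^ s * (v! * (C τ).card) < N ^ s * Ωc := by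
      calc N ^ s * (v! * (C τ).card) = v! * (N ^ s * (C τ).card) := by ring
        _ ≤ v! * ((N - 1) ^ s * Ωc) := Nat.mul_le_mul_left _ h5
        _ = (v! * (N - 1) ^ s) * Ωc := by ring
        _ < N ^ s * Ωc := Nat.mul_lt_mul_of_pos_right h6 hΩ0
    exact lt_of_mul_lt_mul_left h8 (Nat.zero_le _)
  have h1 : Ωc ≤ ∑ τ ∈ X, (C τ).card := by
    rw [hΩc, ← card_univ]
    exact (card_le_card hcover).trans card_biUnion_le
  have h2 : Fintype.card (Equiv.Perm (Pt V J)) * Ωc
      ≤ Fintype.card (Equiv.Perm (Pt V J)) * (Ωc - 1) := by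
    calc Fintype.card (Equiv.Perm (Pt V J)) * Ωc
        ≤ Fintype.card (Equiv.Perm (Pt V J)) * ∑ τ ∈ X, (C τ).card := Nat.mul_le_mul_left _ h1
      _ = ∑ τ ∈ X, Fintype.card (Equiv.Perm (Pt V J)) * (C τ).card := by rw [mul_sum]
      _ ≤ ∑ τ ∈ X, (Ωc - 1) := sum_le_sum (fun τ hτ => by have := hC τ hτ; omega)
      _ = X.card * (Ωc - 1) := by rw [sum_const, smul_eq_mul]
      _ ≤ _ := Nat.mul_le_mul_right _ (card_le_univ _)
  have h3 : 0 < Fintype.card (Equiv.Perm (Pt V J)) := Fintype.card_pos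
  have h4 : Fintype.card (Equiv.Perm (Pt V J)) * (Ωc - 1)
      < Fintype.card (Equiv.Perm (Pt V J)) * Ωc :=
    Nat.mul_lt_mul_of_pos_left (by omega) h3
  omega

end union

end Pool.Agent.H59.Des
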